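import Mathlib

/-!
Calculus for compactly supported smooth functions on `ℝ³`.
-/

open MeasureTheory Set Metric
open scoped ContDiff

namespace Pool.Agent.Helper728.Cone

/-- Euclidean three-space. -/
abbrev E : Type := EuclideanSpace ℝ (Fin 3)

/-- `i`-th derivative of a complex valued function. -/
noncomputable def pd (i : Fin 3) (f : E → ℂ) (x : E) : ℂ := fderiv ℝ f x (EuclideanSpace.single i 1)

/-- smooth complex valued functions with compact support in `Ω` -/
structure IsTest (Ω : Set E) (φ : E → ℂ) : Prop where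
  smooth : ContDiff ℝ ∞ φ
  compact : HasCompactSupport φ
  subset : tsupport φ ⊆ Ω

lemma pd_eq_zero_of_notMem {f : E → ℂ} {x : E} (i : Fin 3) (h : x ∉ tsupport f) : pd i f x = 0 := by
  have : fderiv ℝ f x = 0 := by
    have h1 : f =ᶠ[nhds x] 0 := notMem_tsupport_iff_eventuallyEq.1 h
    rw [h1.fderiv_eq]
    simp
  simp [pd, this]

lemma IsTest.zero_of_notMem {Ω : Set E} {φ : E → ℂ} (h : IsTest Ω φ) {x : E} (hx : x ∉ Ω) : φ x = 0 :=
  image_eq_zero_of_notMem_tsupport fun h' => hx (h.subset h')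

lemma IsTest.pd_zero_of_notMem {Ω : Set E} {φ : E → ℂ} (h : IsTest Ω φ) {x : E} (hx : x ∉ Ω) (i : Fin 3) :
    pd i φ x = 0 :=
  pd_eq_zero_of_notMem i fun h' => hx (h.subset h')

lemma contDiff_pd {f : E → ℂ} (hf : ContDiff ℝ ∞ f) (i : Fin 3) : ContDiff ℝ ∞ (pd i f) := by
  have : ContDiff ℝ ∞ (fderiv ℝ f) := hf.fderiv_right (by norm_cast)
  exact this.clm_apply contDiff_const

lemma tsupport_pd {f : E → ℂ} (i : Fin 3) : tsupport (pd i f) ⊆ tsupport f := by
  apply closure_minimal _ (isClosed_tsupport f)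
  intro x hx
  by_contra h
  exact hx (pd_eq_zero_of_notMem i h)

lemma IsTest.pd {Ω : Set E} {φ : E → ℂ} (h : IsTest Ω φ) (i : Fin 3) : IsTest Ω (pd i φ) where
  smooth := contDiff_pd h.smooth i
  compact := h.compact.mono' (subset_closure.trans (tsupport_pd i))
  subset := (tsupport_pd i).trans h.subset

lemma IsTest.continuous {Ω : Set E} {φ : E → ℂ} (h : IsTest Ω φ) : Continuous φ := h.smooth.continuous

lemma IsTest.differentiable {Ω : Set E} {φ : E → ℂ} (h : IsTest Ω φ) : Differentiable ℝ φ :=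
  h.smooth.differentiable (by simp)

/-- product of a function continuous on `Ω` with a test function on `Ω` -/
lemma continuous_mul_test {Ω : Set E} (hΩ : IsOpen Ω) {g ψ : E → ℂ} (hg : ContinuousOn g Ω)
    (hψ : Continuous ψ) (hs : tsupport ψ ⊆ Ω) : Continuous (fun x => g x * ψ x) := by
  rw [continuous_iff_continuousAt]
  intro x
  by_cases hx : x ∈ Ω
  · exact (hg.continuousAt (hΩ.mem_nhds hx)).mul hψ.continuousAt
  · have hx' : x ∉ tsupport ψ := fun h => hx (hs h)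
    have h1 : ψ =ᶠ[nhds x] 0 := notMem_tsupport_iff_eventuallyEq.1 hx'
    have h2 : (fun x => g x * ψ x) =ᶠ[nhds x] fun _ => 0 := by
      filter_upwards [h1] with y hy
      simp [hy]
    exact continuousAt_const.congr h2.symm

lemma integrable_mul_test {Ω : Set E} (hΩ : IsOpen Ω) {g ψ : E → ℂ} (hg : ContinuousOn g Ω)
    (hψ : Continuous ψ) (hc : HasCompactSupport ψ) (hs : tsupport ψ ⊆ Ω) :
    Integrable (fun x => g x * ψ x) := by
  apply (continuous_mul_test hΩ hg hψ hs).integrable_of_hasCompactSupport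
  exact hc.mul_left

/-- integration by parts -/
lemma ibp {Ω : Set E} (hΩ : IsOpen Ω) {q ψ : E → ℂ} (i : Fin 3) (hq : ∀ x ∈ Ω, DifferentiableAt ℝ q x)
    (hq' : ContinuousOn (pd i q) Ω) (hψ : IsTest Ω ψ) :
    ∫ x, q x * pd i ψ x = -∫ x, pd i q x * ψ x := by
  have hqc : ContinuousOn q Ω := fun x hx => (hq x hx).continuousAt.continuousWithinAt
  refine integral_mul_fderiv_eq_neg_fderiv_mul_of_integrable (𝕜 := ℂ) (f := q) (g := ψ)
    (v := EuclideanSpace.single i 1) ?_ ?_ ?_ ?_ ?_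
  · exact integrable_mul_test hΩ hq' hψ.continuous hψ.compact hψ.subset
  · exact integrable_mul_test hΩ hqc (hψ.pd i).continuous (hψ.pd i).compact (hψ.pd i).subset
  · exact integrable_mul_test hΩ hqc hψ.continuous hψ.compact hψ.subset
  · exact fun x hx => hq x (hψ.subset hx)
  · exact fun x _ => hψ.differentiable x

/-- the integral of a derivative of a compactly supported `C¹` function vanishes -/
lemma integral_deriv_eq_zero {h : E → ℝ} (hh : ContDiff ℝ 1 h) (hc : HasCompactSupport h) (v : E) :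
    ∫ x, fderiv ℝ h x v = 0 := by
  have h1 : Continuous (fun x => fderiv ℝ h x v) := (hh.continuous_fderiv (by norm_num)).clm_apply continuous_const
  have h2 : HasCompactSupport (fun x => fderiv ℝ h x v) := hc.fderiv_apply ℝ v
  have := integral_mul_fderiv_eq_neg_fderiv_mul_of_integrable (𝕜 := ℝ) (f := fun _ : E => (1 : ℝ)) (g := h)
    (v := v) (μ := volume) (by simp) (by simpa using h1.integrable_of_hasCompactSupport h2)
    (by simpa using hh.continuous.integrable_of_hasCompactSupport hc) (by simp)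
    (fun x _ => hh.differentiable (by norm_num) x)
  simpa using this

/-- The truncated circular cone. -/
def Om : Set E := {x | x 0 ^ 2 + x 1 ^ 2 < x 2 ^ 2 ∧ 0 < x 2 ∧ x 2 < 1}

lemma isOpen_Om : IsOpen Om := by
  have h1 : IsOpen {x : E | x 0 ^ 2 + x 1 ^ 2 < x 2 ^ 2} := isOpen_lt (by fun_prop) (by fun_prop)
  have h2 : IsOpen {x : E | 0 < x 2} := isOpen_lt (by fun_prop) (by fun_prop)
  have h3 : IsOpen {x : E | x 2 < 1} := isOpen_lt (by fun_prop) (by fun_prop)
  exact h1.inter (h2.inter h3)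

lemma norm_sq_eq (x : E) : ‖x‖ ^ 2 = x 0 ^ 2 + x 1 ^ 2 + x 2 ^ 2 := by
  rw [EuclideanSpace.norm_sq_eq]; simp [Fin.sum_univ_three]

lemma norm_lt_of_mem_Om {x : E} (hx : x ∈ Om) : ‖x‖ < 2 * x 2 := by
  obtain ⟨h1, h2, h3⟩ := hx
  have := norm_sq_eq x
  nlinarith [norm_nonneg x]

lemma Om_subset_ball : Om ⊆ ball (0 : E) 2 := by
  intro x hx
  rw [mem_ball_zero_iff]
  have := norm_lt_of_mem_Om hx
  linarith [hx.2.2]

/-- Lebesgue measure on `Om`. -/
noncomputable def nu : Measure E := volume.restrict Om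

instance : IsFiniteMeasure nu := by
  constructor
  rw [nu, Measure.restrict_apply_univ]
  exact (measure_mono Om_subset_ball).trans_lt measure_ball_lt_top

lemma fderiv_mul_apply' {f g : E → ℝ} {x : E} (hf : DifferentiableAt ℝ f x) (hg : DifferentiableAt ℝ g x)
    (v : E) : fderiv ℝ (fun y => f y * g y) x v = fderiv ℝ f x v * g x + f x * fderiv ℝ g x v := by
  rw [fderiv_fun_mul hf hg]
  simp
  ring

lemma fderiv_comp_coord {θ : ℝ → ℝ} (hθ : ContDiff ℝ 1 θ) (i j : Fin 3) (x : E) :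
    fderiv ℝ (fun y : E => θ (y i)) x (EuclideanSpace.single j 1) = if i = j then deriv θ (x i) else 0 := by
  have h1 : HasFDerivAt (fun y : E => y i) (EuclideanSpace.proj i : E →L[ℝ] ℝ) x :=
    (EuclideanSpace.proj i : E →L[ℝ] ℝ).hasFDerivAt
  have h2 : HasDerivAt θ (deriv θ (x i)) (x i) := (hθ.differentiable (by norm_num) _).hasDerivAt
  have h3 := h2.comp_hasFDerivAt x h1
  have h4 : fderiv ℝ (fun y : E => θ (y i)) x = deriv θ (x i) • (EuclideanSpace.proj i : E →L[ℝ] ℝ) :=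
    h3.fderiv
  rw [h4]
  by_cases hij : i = j
  · subst hij; simp
  · simp [hij]

lemma fderiv_norm_sq_test {φ : E → ℂ} {x : E} (h : DifferentiableAt ℝ φ x) (v : E) :
    fderiv ℝ (fun y => ‖φ y‖ ^ 2) x v = 2 * inner ℝ (φ x) (fderiv ℝ φ x v) := by
  have := (h.hasFDerivAt.norm_sq).fderiv
  rw [this]
  simp
  ring

/-- Poincaré type inequality on horizontal slices of the cone. -/
lemma poincare_test {φ : E → ℂ} (hφ : IsTest Om φ) {θ : ℝ → ℝ} (hθ : ContDiff ℝ 1 θ)
    (h0 : ∀ t, 0 ≤ θ t) :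
    ∫ x : E, θ (x 2) * ‖φ x‖ ^ 2 ≤ 4 * ∫ x : E, θ (x 2) * (x 2 ^ 2 * ‖pd 0 φ x‖ ^ 2) := by
  have hφ1 : ContDiff ℝ 1 φ := hφ.smooth.of_le (by norm_cast)
  have hn : ContDiff ℝ 1 (fun x => ‖φ x‖ ^ 2) := hφ1.norm_sq ℝ
  have hh : ContDiff ℝ 1 (fun x : E => θ (x 2) * (x 0 * ‖φ x‖ ^ 2)) := by
    have h1 : ContDiff ℝ 1 (fun x : E => θ (x 2)) := hθ.comp (by fun_prop)
    have h2 : ContDiff ℝ 1 (fun x : E => x 0) := by fun_prop
    exact h1.mul (h2.mul hn)
  have hcs : HasCompactSupport (fun x : E => ‖φ x‖ ^ 2) := by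
    have := hφ.compact.norm.comp_left (g := fun t : ℝ => t ^ 2) (by simp)
    exact this
  have hc : HasCompactSupport (fun x : E => θ (x 2) * (x 0 * ‖φ x‖ ^ 2)) :=
    (hcs.mul_left).mul_left
  have key := integral_deriv_eq_zero hh hc (EuclideanSpace.single 0 1)
  have hpt : ∀ x : E, fderiv ℝ (fun x : E => θ (x 2) * (x 0 * ‖φ x‖ ^ 2)) x (EuclideanSpace.single 0 1) =
      θ (x 2) * (‖φ x‖ ^ 2 + 2 * x 0 * inner ℝ (φ x) (pd 0 φ x)) := by
    intro x
    have d1 : DifferentiableAt ℝ (fun x : E => θ (x 2)) x :=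
      (hθ.differentiable (by norm_num) _).comp x (by fun_prop)
    have d2 : DifferentiableAt ℝ (fun x : E => x 0) x := by fun_prop
    have d3 : DifferentiableAt ℝ (fun x : E => ‖φ x‖ ^ 2) x := hn.differentiable (by norm_num) x
    have d4 : DifferentiableAt ℝ (fun x : E => x 0 * ‖φ x‖ ^ 2) x := d2.mul d3
    rw [fderiv_mul_apply' d1 d4, fderiv_mul_apply' d2 d3, fderiv_comp_coord hθ,
      fderiv_norm_sq_test (hφ.differentiable x)]
    have := fderiv_comp_coord (θ := fun t => t) contDiff_id 0 0 x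
    simp only [if_true, deriv_id''] at this
    rw [this, if_neg (show ¬((2 : Fin 3) = 0) by decide)]
    simp only [pd]
    ring
  simp only [hpt] at key
  have hpc : Continuous (pd 0 φ) := (hφ.pd 0).continuous
  have hphc := (hφ.pd 0).compact
  have hcs2 : HasCompactSupport (fun x : E => ‖pd 0 φ x‖ ^ 2) := by
    have := hphc.norm.comp_left (g := fun t : ℝ => t ^ 2) (by simp)
    exact this
  have hφc := hφ.continuous
  have hθc := hθ.continuous
  have i1 : Integrable (fun x : E => θ (x 2) * ‖φ x‖ ^ 2) := by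
    apply Continuous.integrable_of_hasCompactSupport (by fun_prop) hcs.mul_left
  have i2 : Integrable (fun x : E => θ (x 2) * (x 2 ^ 2 * ‖pd 0 φ x‖ ^ 2)) := by
    apply Continuous.integrable_of_hasCompactSupport (by fun_prop) (hcs2.mul_left).mul_left
  have i3 : Integrable (fun x : E => θ (x 2) * (‖φ x‖ ^ 2 + 2 * x 0 * inner ℝ (φ x) (pd 0 φ x))) := by
    apply Continuous.integrable_of_hasCompactSupport (by fun_prop)
    apply HasCompactSupport.mul_left
    apply hcs.add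
    apply HasCompactSupport.mul_left
    apply hφ.compact.mono
    intro x hx h
    apply hx
    simp [h]
  have hle : ∫ x : E, (1 / 2 * (θ (x 2) * ‖φ x‖ ^ 2) - 2 * (θ (x 2) * (x 2 ^ 2 * ‖pd 0 φ x‖ ^ 2))) ≤
      ∫ x : E, θ (x 2) * (‖φ x‖ ^ 2 + 2 * x 0 * inner ℝ (φ x) (pd 0 φ x)) := by
    refine integral_mono ((i1.const_mul _).sub (i2.const_mul _)) i3 fun x => ?_
    by_cases hx : x ∈ Om
    · have h1 : |inner ℝ (φ x) (pd 0 φ x)| ≤ ‖φ x‖ * ‖pd 0 φ x‖ := abs_real_inner_le_norm _ _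
      have h2 : x 0 ^ 2 ≤ x 2 ^ 2 := by nlinarith [hx.1, sq_nonneg (x 1)]
      have h3 : 0 ≤ θ (x 2) := h0 _
      have h4 : -(2 * |x 0| * (‖φ x‖ * ‖pd 0 φ x‖)) ≤ 2 * x 0 * inner ℝ (φ x) (pd 0 φ x) := by
        have : |2 * x 0 * inner ℝ (φ x) (pd 0 φ x)| ≤ 2 * |x 0| * (‖φ x‖ * ‖pd 0 φ x‖) := by
          rw [abs_mul, abs_mul, abs_two]
          gcongr
        exact (abs_le.1 this).1
      have h5 : 2 * |x 0| * (‖φ x‖ * ‖pd 0 φ x‖) ≤ 1 / 2 * ‖φ x‖ ^ 2 + 2 * (x 2 ^ 2 * ‖pd 0 φ x‖ ^ 2) := by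
        have h6 : 0 ≤ (‖φ x‖ - 2 * (|x 0| * ‖pd 0 φ x‖)) ^ 2 := sq_nonneg _
        have h7 : (|x 0| * ‖pd 0 φ x‖) ^ 2 ≤ x 2 ^ 2 * ‖pd 0 φ x‖ ^ 2 := by
          rw [mul_pow, sq_abs]
          gcongr
        nlinarith
      have h8 : 1 / 2 * ‖φ x‖ ^ 2 - 2 * (x 2 ^ 2 * ‖pd 0 φ x‖ ^ 2) ≤
          ‖φ x‖ ^ 2 + 2 * x 0 * inner ℝ (φ x) (pd 0 φ x) := by linarith
      have h9 := mul_le_mul_of_nonneg_left h8 h3
      calc _ = θ (x 2) * (1 / 2 * ‖φ x‖ ^ 2 - 2 * (x 2 ^ 2 * ‖pd 0 φ x‖ ^ 2)) := by ring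
        _ ≤ _ := h9
    · simp [hφ.zero_of_notMem hx, hφ.pd_zero_of_notMem hx]
  rw [key, integral_sub (i1.const_mul _) (i2.const_mul _), integral_const_mul, integral_const_mul] at hle
  linarith

end Pool.Agent.Helper728.Cone
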