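import Mathlib
import Pool.Agent.Helper728.ConeCalc

/-!
The closure of the test functions in the Sobolev space of the truncated cone, weak solutions and
the energy estimate.
-/

open MeasureTheory Set Metric Filter Topology
open scoped ContDiff InnerProductSpace

namespace Pool.Agent.Helper728.Cone

/-- complex Lax-Milgram, operator form -/
lemma lax_milgram {H : Type*} [NormedAddCommGroup H] [InnerProductSpace ℂ H] [CompleteSpace H]
    (T : H →L[ℂ] H) (c : ℝ) (hc : 0 < c) (h : ∀ u, c * ‖u‖ ^ 2 ≤ (inner ℂ u (T u)).re) :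
    Function.Surjective T := by
  have hb : ∀ u, c * ‖u‖ ≤ ‖T u‖ := by
    intro u
    by_cases hu : 0 < ‖u‖
    · have h1 := h u
      have h2 : (inner ℂ u (T u)).re ≤ ‖u‖ * ‖T u‖ :=
        (Complex.re_le_norm _).trans (norm_inner_le_norm _ _)
      nlinarith
    · have : ‖u‖ = 0 := le_antisymm (not_lt.1 hu) (norm_nonneg _)
      rw [this]; simp
  have hanti : AntilipschitzWith (c⁻¹).toNNReal T := by
    apply ContinuousLinearMap.antilipschitz_of_bound
    intro u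
    rw [Real.coe_toNNReal _ (inv_nonneg.2 hc.le)]
    rw [← div_eq_inv_mul, le_div_iff₀ hc, mul_comm]
    exact hb u
  have hcl : IsClosed (T.range : Set H) := by
    rw [LinearMap.coe_range]
    exact hanti.isClosed_range T.uniformContinuous
  have : CompleteSpace T.range := hcl.completeSpace_coe
  have htop : T.range = ⊤ := by
    rw [← Submodule.orthogonal_eq_bot_iff, Submodule.eq_bot_iff]
    intro w hw
    rw [Submodule.mem_orthogonal] at hw
    have h1 := hw (T w) (by simp)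
    have h2 := h w
    have h3 : (inner ℂ w (T w)).re = 0 := by
      rw [← inner_conj_symm, h1]; simp
    rw [h3] at h2
    have h4 : ‖w‖ ^ 2 ≤ 0 := by nlinarith
    have h5 : ‖w‖ = 0 := by nlinarith [norm_nonneg w]
    exact norm_eq_zero.1 h5
  intro y
  have : y ∈ T.range := by rw [htop]; trivial
  simpa using this

/-- value space of the jets -/
abbrev V4 : Type := EuclideanSpace ℂ (Fin 4)

/-- The jet `(φ, ∇ φ)`. -/
noncomputable def J (φ : E → ℂ) (x : E) : V4 := WithLp.toLp 2 ![φ x, pd 0 φ x, pd 1 φ x, pd 2 φ x]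

@[simp] lemma J_zero (φ : E → ℂ) (x : E) : J φ x 0 = φ x := rfl
@[simp] lemma J_one (φ : E → ℂ) (x : E) : J φ x 1 = pd 0 φ x := rfl
@[simp] lemma J_two (φ : E → ℂ) (x : E) : J φ x 2 = pd 1 φ x := rfl
@[simp] lemma J_three (φ : E → ℂ) (x : E) : J φ x 3 = pd 2 φ x := rfl

lemma pd_add {f g : E → ℂ} {x : E} (i : Fin 3) (hf : DifferentiableAt ℝ f x) (hg : DifferentiableAt ℝ g x) :
    pd i (fun y => f y + g y) x = pd i f x + pd i g x := by
  simp [pd, fderiv_fun_add hf hg]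

lemma pd_sub {f g : E → ℂ} {x : E} (i : Fin 3) (hf : DifferentiableAt ℝ f x) (hg : DifferentiableAt ℝ g x) :
    pd i (fun y => f y - g y) x = pd i f x - pd i g x := by
  simp [pd, fderiv_fun_sub hf hg]

lemma pd_const_mul {f : E → ℂ} {x : E} (i : Fin 3) (c : ℂ) (hf : DifferentiableAt ℝ f x) :
    pd i (fun y => c * f y) x = c * pd i f x := by
  simp [pd, fderiv_const_mul hf]

lemma pd_mul {f g : E → ℂ} {x : E} (i : Fin 3) (hf : DifferentiableAt ℝ f x) (hg : DifferentiableAt ℝ g x) :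
    pd i (fun y => f y * g y) x = pd i f x * g x + f x * pd i g x := by
  simp [pd, fderiv_fun_mul hf hg]
  ring

lemma pd_conj {f : E → ℂ} {x : E} (i : Fin 3) (hf : DifferentiableAt ℝ f x) :
    pd i (fun y => (starRingEnd ℂ) (f y)) x = (starRingEnd ℂ) (pd i f x) := by
  have h1 : HasFDerivAt (fun y => (starRingEnd ℂ) (f y)) ((Complex.conjCLE : ℂ →L[ℝ] ℂ).comp (fderiv ℝ f x)) x :=
    (Complex.conjCLE : ℂ →L[ℝ] ℂ).hasFDerivAt.comp x hf.hasFDerivAt
  simp [pd, h1.fderiv]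

lemma isTest_zero {Ω : Set E} : IsTest Ω (fun _ => 0) where
  smooth := contDiff_const
  compact := HasCompactSupport.zero
  subset := by
    have : tsupport (fun _ : E => (0 : ℂ)) = ∅ := by
      rw [tsupport_eq_empty_iff]; rfl
    rw [this]; exact empty_subset _

lemma IsTest.add {Ω : Set E} {φ ψ : E → ℂ} (h : IsTest Ω φ) (h' : IsTest Ω ψ) :
    IsTest Ω (fun x => φ x + ψ x) where
  smooth := h.smooth.add h'.smooth
  compact := h.compact.add h'.compact
  subset := (tsupport_add φ ψ).trans (union_subset h.subset h'.subset)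

lemma IsTest.const_mul {Ω : Set E} {φ : E → ℂ} (h : IsTest Ω φ) (c : ℂ) :
    IsTest Ω (fun x => c * φ x) where
  smooth := contDiff_const.mul h.smooth
  compact := h.compact.mul_left
  subset := (closure_mono (by intro x hx; simp at hx ⊢; tauto)).trans h.subset

lemma IsTest.conj {Ω : Set E} {φ : E → ℂ} (h : IsTest Ω φ) :
    IsTest Ω (fun x => (starRingEnd ℂ) (φ x)) where
  smooth := Complex.conjCLE.contDiff.comp h.smooth
  compact := h.compact.comp_left (g := starRingEnd ℂ) (by simp)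
  subset := (closure_mono (by intro x hx; simpa using hx)).trans h.subset

lemma continuous_J {φ : E → ℂ} (h : ContDiff ℝ ∞ φ) : Continuous (J φ) := by
  unfold J
  apply (PiLp.continuous_toLp 2 _).comp
  apply continuous_pi
  intro i
  fin_cases i
  · exact h.continuous
  · exact (contDiff_pd h 0).continuous
  · exact (contDiff_pd h 1).continuous
  · exact (contDiff_pd h 2).continuous

lemma J_eq_zero_of_notMem {φ : E → ℂ} {x : E} (h : x ∉ tsupport φ) : J φ x = 0 := by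
  ext i
  fin_cases i
  · simpa using image_eq_zero_of_notMem_tsupport h
  · simpa using pd_eq_zero_of_notMem 0 h
  · simpa using pd_eq_zero_of_notMem 1 h
  · simpa using pd_eq_zero_of_notMem 2 h

lemma IsTest.memLp_J {φ : E → ℂ} (h : IsTest Om φ) : MemLp (J φ) 2 nu := by
  apply (continuous_J h.smooth).memLp_of_hasCompactSupport
  apply h.compact.mono'
  intro x hx
  by_contra h'
  exact hx (J_eq_zero_of_notMem h')

lemma J_add {φ ψ : E → ℂ} (h : Differentiable ℝ φ) (h' : Differentiable ℝ ψ) (x : E) :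
    J (fun x => φ x + ψ x) x = J φ x + J ψ x := by
  ext i
  fin_cases i
  · simp
  · simp [pd_add 0 (h x) (h' x)]
  · simp [pd_add 1 (h x) (h' x)]
  · simp [pd_add 2 (h x) (h' x)]

lemma J_const_mul {φ : E → ℂ} (h : Differentiable ℝ φ) (c : ℂ) (x : E) :
    J (fun x => c * φ x) x = c • J φ x := by
  ext i
  fin_cases i
  · simp
  · simp [pd_const_mul 0 c (h x)]
  · simp [pd_const_mul 1 c (h x)]
  · simp [pd_const_mul 2 c (h x)]

/-- The Hilbert space of square integrable jets. -/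
abbrev X2 : Type := Lp V4 2 nu

/-- jets of test functions -/
noncomputable def S0 : Submodule ℂ X2 where
  carrier := {v | ∃ φ, IsTest Om φ ∧ v =ᵐ[nu] J φ}
  zero_mem' := ⟨fun _ => 0, isTest_zero, by
    filter_upwards [Lp.coeFn_zero V4 2 nu] with x hx
    rw [hx]
    ext i
    fin_cases i <;> simp [pd]⟩
  add_mem' := by
    rintro u v ⟨φ, hφ, hu⟩ ⟨ψ, hψ, hv⟩
    refine ⟨_, hφ.add hψ, ?_⟩
    filter_upwards [Lp.coeFn_add u v, hu, hv] with x h1 h2 h3
    rw [h1, J_add hφ.differentiable hψ.differentiable, Pi.add_apply, h2, h3]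
  smul_mem' := by
    rintro c u ⟨φ, hφ, hu⟩
    refine ⟨_, hφ.const_mul c, ?_⟩
    filter_upwards [Lp.coeFn_smul c u, hu] with x h1 h2
    rw [h1, J_const_mul hφ.differentiable, Pi.smul_apply, h2]

/-- The space of jets of elements of the Sobolev space `H¹₀` of the cone. -/
noncomputable def H0 : Submodule ℂ X2 := S0.topologicalClosure

lemma isClosed_H0 : IsClosed (H0 : Set X2) := S0.isClosed_topologicalClosure

instance : CompleteSpace H0 := isClosed_H0.completeSpace_coe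

lemma IsTest.toLp_mem {φ : E → ℂ} (h : IsTest Om φ) : h.memLp_J.toLp (J φ) ∈ H0 :=
  S0.le_topologicalClosure ⟨φ, h, h.memLp_J.coeFn_toLp⟩

/-- density principle -/
lemma H0_induction {p : X2 → Prop} (hc : IsClosed {u | p u}) (h : ∀ φ (hφ : IsTest Om φ), p (hφ.memLp_J.toLp (J φ)))
    {u : X2} (hu : u ∈ H0) : p u := by
  have : closure (S0 : Set X2) ⊆ {u | p u} := by
    apply closure_minimal _ hc
    rintro v ⟨φ, hφ, hv⟩
    have : v = hφ.memLp_J.toLp (J φ) := by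
      apply Lp.ext
      exact hv.trans hφ.memLp_J.coeFn_toLp.symm
    rw [this]
    exact h φ hφ
  exact this hu

lemma norm_sq_eq_integral (U : X2) : ‖U‖ ^ 2 = ∫ x, ‖U x‖ ^ 2 ∂nu := by
  have h1 : inner ℂ U U = ((‖U‖ ^ 2 : ℝ) : ℂ) := by
    rw [inner_self_eq_norm_sq_to_K]; norm_cast
  rw [L2.inner_def] at h1
  have h2 : ∫ x, inner ℂ (U x) (U x) ∂nu = ((∫ x, ‖U x‖ ^ 2 ∂nu : ℝ) : ℂ) := by
    rw [← integral_complex_ofReal]
    apply integral_congr_ae
    filter_upwards with x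
    rw [inner_self_eq_norm_sq_to_K]; norm_cast
  rw [h2] at h1
  exact_mod_cast h1.symm

lemma V4_norm_sq (v : V4) : ‖v‖ ^ 2 = ‖v 0‖ ^ 2 + ‖v 1‖ ^ 2 + ‖v 2‖ ^ 2 + ‖v 3‖ ^ 2 := by
  rw [EuclideanSpace.norm_sq_eq, Fin.sum_univ_four]

lemma V4_norm_le (v : V4) (i : Fin 4) : ‖v i‖ ≤ ‖v‖ := PiLp.norm_apply_le v i

lemma memLp_apply {U : E → V4} (h : MemLp U 2 nu) (i : Fin 4) : MemLp (fun x => U x i) 2 nu :=
  (EuclideanSpace.proj i : V4 →L[ℂ] ℂ).comp_memLp' h

lemma integrable_sq {F : Type*} [NormedAddCommGroup F] {f : E → F} {μ : Measure E} (h : MemLp f 2 μ) :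
    Integrable (fun x => ‖f x‖ ^ 2) μ := (memLp_two_iff_integrable_sq_norm h.1).1 h

lemma integrable_mul {f g : E → ℂ} {μ : Measure E} (h : MemLp f 2 μ) (h' : MemLp g 2 μ) :
    Integrable (fun x => f x * g x) μ := by
  exact MemLp.integrable_mul h h'

/-- Cauchy-Schwarz -/
lemma norm_integral_mul_le {f g : E → ℂ} {μ : Measure E} (h : MemLp f 2 μ) (h' : MemLp g 2 μ) :
    ‖∫ x, f x * g x ∂μ‖ ^ 2 ≤ (∫ x, ‖f x‖ ^ 2 ∂μ) * ∫ x, ‖g x‖ ^ 2 ∂μ := by
  have h1 : ‖∫ x, f x * g x ∂μ‖ ≤ ∫ x, ‖f x‖ * ‖g x‖ ∂μ := by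
    refine (norm_integral_le_integral_norm _).trans (le_of_eq ?_)
    simp
  have h2 := integral_mul_norm_le_Lp_mul_Lq (μ := μ) (f := f) (g := g) (p := 2) (q := 2)
    (by constructor <;> norm_num) (by simpa using h) (by simpa using h')
  have h3 := h1.trans h2
  have h4 : ∀ t : ℝ, t ^ (2 : ℝ) = t ^ 2 := fun t => by norm_cast
  simp only [h4] at h3
  have hA : 0 ≤ ∫ x, ‖f x‖ ^ 2 ∂μ := integral_nonneg fun x => sq_nonneg _
  have hB : 0 ≤ ∫ x, ‖g x‖ ^ 2 ∂μ := integral_nonneg fun x => sq_nonneg _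
  calc ‖∫ x, f x * g x ∂μ‖ ^ 2 ≤ ((∫ x, ‖f x‖ ^ 2 ∂μ) ^ (1 / (2 : ℝ)) * (∫ x, ‖g x‖ ^ 2 ∂μ) ^ (1 / (2 : ℝ))) ^ 2 := by
        gcongr
    _ = _ := by
        rw [← Real.sqrt_eq_rpow, ← Real.sqrt_eq_rpow, mul_pow, Real.sq_sqrt hA, Real.sq_sqrt hB]

/-- The diagonal coefficient matrix acting on jets. -/
noncomputable def Dm (α β : ℂ) : V4 →L[ℂ] V4 :=
  LinearMap.toContinuousLinearMap
    { toFun := fun v => WithLp.toLp 2 ![0, α * v 1, α * v 2, β * v 3]
      map_add' := fun u v => by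
        ext i; fin_cases i <;> simp <;> ring
      map_smul' := fun c v => by
        ext i; fin_cases i <;> simp <;> ring }

@[simp] lemma Dm_zero (α β : ℂ) (v : V4) : Dm α β v 0 = 0 := rfl
@[simp] lemma Dm_one (α β : ℂ) (v : V4) : Dm α β v 1 = α * v 1 := rfl
@[simp] lemma Dm_two (α β : ℂ) (v : V4) : Dm α β v 2 = α * v 2 := rfl
@[simp] lemma Dm_three (α β : ℂ) (v : V4) : Dm α β v 3 = β * v 3 := rfl

lemma V4_inner (u v : V4) : inner ℂ u v = (starRingEnd ℂ) (u 0) * v 0 + (starRingEnd ℂ) (u 1) * v 1 +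
    (starRingEnd ℂ) (u 2) * v 2 + (starRingEnd ℂ) (u 3) * v 3 := by
  rw [PiLp.inner_apply, Fin.sum_univ_four]
  simp only [RCLike.inner_apply, mul_comm]

lemma Dm_re (α β : ℂ) (v : V4) : (inner ℂ v (Dm α β v)).re =
    α.re * (‖v 1‖ ^ 2 + ‖v 2‖ ^ 2) + β.re * ‖v 3‖ ^ 2 := by
  rw [V4_inner]
  simp only [Dm_zero, Dm_one, Dm_two, Dm_three]
  have key : ∀ a z : ℂ, (starRingEnd ℂ) z * (a * z) = a * ((‖z‖ ^ 2 : ℝ) : ℂ) := by
    intro a z
    rw [Complex.ofReal_pow, ← Complex.conj_mul']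
    ring
  rw [key, key, key]
  simp [-Complex.ofReal_pow]
  ring


/-- complex conjugation of the coordinates -/
noncomputable def cj (v : V4) : V4 := WithLp.toLp 2 fun i => (starRingEnd ℂ) (v i)

@[simp] lemma cj_apply (v : V4) (i : Fin 4) : cj v i = (starRingEnd ℂ) (v i) := rfl

/-- bilinear pairing -/
noncomputable def dot (a v : V4) : ℂ := a 0 * v 0 + a 1 * v 1 + a 2 * v 2 + a 3 * v 3

lemma inner_cj (a v : V4) : inner ℂ (cj a) v = dot a v := by
  rw [V4_inner]; simp [dot]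

lemma continuous_cj : Continuous cj := by
  unfold cj
  apply (PiLp.continuous_toLp 2 _).comp
  apply continuous_pi
  intro i
  exact Complex.continuous_conj.comp (by fun_prop)

lemma norm_cj (v : V4) : ‖cj v‖ = ‖v‖ := by
  have h : ‖cj v‖ ^ 2 = ‖v‖ ^ 2 := by rw [V4_norm_sq, V4_norm_sq]; simp
  exact (pow_left_inj₀ (norm_nonneg _) (norm_nonneg _) (by norm_num)).1 h

lemma memLp_cj {A : E → V4} (h : MemLp A 2 nu) : MemLp (fun x => cj (A x)) 2 nu := by
  refine h.of_le (continuous_cj.comp_aestronglyMeasurable h.1) ?_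
  filter_upwards with x
  rw [norm_cj]

/-- The jet `U` belongs to (the closure of test functions in) `H¹`. -/
def InH (U : E → V4) : Prop := ∃ h : MemLp U 2 nu, h.toLp U ∈ H0

lemma InH.memLp {U : E → V4} (h : InH U) : MemLp U 2 nu := h.1

lemma IsTest.inH {φ : E → ℂ} (h : IsTest Om φ) : InH (J φ) := ⟨h.memLp_J, h.toLp_mem⟩

lemma inner_toLp {A U : E → V4} (hA : MemLp A 2 nu) (hU : MemLp U 2 nu) :
    inner ℂ (hA.toLp A) (hU.toLp U) = ∫ x, inner ℂ (A x) (U x) ∂nu := by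
  rw [L2.inner_def]
  apply integral_congr_ae
  filter_upwards [hA.coeFn_toLp, hU.coeFn_toLp] with x h1 h2
  rw [h1, h2]

lemma pairing_zero {A : E → V4} (hA : MemLp A 2 nu)
    (h : ∀ φ, IsTest Om φ → ∫ x, dot (A x) (J φ x) ∂nu = 0) {U : E → V4} (hU : InH U) :
    ∫ x, dot (A x) (U x) ∂nu = 0 := by
  obtain ⟨hU1, hU2⟩ := hU
  have hB := memLp_cj hA
  have h1 : ∀ u ∈ H0, inner ℂ (hB.toLp _) u = 0 := by
    intro u hu
    refine H0_induction (p := fun u => inner ℂ (hB.toLp _) u = 0) ?_ ?_ hu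
    · exact isClosed_eq (by fun_prop) continuous_const
    · intro φ hφ
      rw [inner_toLp]
      rw [← h φ hφ]
      simp only [inner_cj]
  have h2 := h1 _ hU2
  rw [inner_toLp] at h2
  rw [← h2]
  simp only [inner_cj]

lemma integral_nu_eq {F : Type*} [NormedAddCommGroup F] [NormedSpace ℝ F] {g : E → F} (h : ∀ x ∉ Om, g x = 0) :
    ∫ x, g x ∂nu = ∫ x, g x := by
  rw [nu]
  exact setIntegral_eq_integral_of_forall_compl_eq_zero h

lemma poincare_nu {φ : E → ℂ} (hφ : IsTest Om φ) :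
    ∫ x, ‖φ x‖ ^ 2 ∂nu ≤ 4 * ∫ x, ‖pd 0 φ x‖ ^ 2 ∂nu := by
  have h1 := poincare_test hφ (θ := fun _ => 1) contDiff_const (fun _ => zero_le_one)
  simp only [one_mul] at h1
  have h2 : ∫ x, ‖φ x‖ ^ 2 ∂nu = ∫ x, ‖φ x‖ ^ 2 := by
    apply integral_nu_eq
    intro x hx
    simp [hφ.zero_of_notMem hx]
  have h3 : ∫ x, x 2 ^ 2 * ‖pd 0 φ x‖ ^ 2 ∂nu = ∫ x : E, x 2 ^ 2 * ‖pd 0 φ x‖ ^ 2 := by
    apply integral_nu_eq
    intro x hx
    simp [hφ.pd_zero_of_notMem hx]
  have h4 : ∫ x, x 2 ^ 2 * ‖pd 0 φ x‖ ^ 2 ∂nu ≤ ∫ x, ‖pd 0 φ x‖ ^ 2 ∂nu := by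
    have hi : MemLp (pd 0 φ) 2 nu := memLp_apply hφ.memLp_J 1
    have hi' := integrable_sq hi
    refine integral_mono_of_nonneg ?_ hi' ?_
    · filter_upwards with x using by positivity
    · have : ∀ᵐ x ∂nu, x ∈ Om := ae_restrict_mem isOpen_Om.measurableSet
      filter_upwards [this] with x hx
      have h5 : x 2 ^ 2 ≤ 1 := by nlinarith [hx.2.1, hx.2.2]
      nlinarith [sq_nonneg ‖pd 0 φ x‖]
  rw [h2]
  linarith

/-- smooth step: `0` for `t ≤ 1`, `1` for `t ≥ 2` -/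
noncomputable def st (t : ℝ) : ℝ := Real.smoothTransition (t - 1)

lemma st_contDiff : ContDiff ℝ ∞ st := Real.smoothTransition.contDiff.comp (by fun_prop)

lemma st_nonneg (t : ℝ) : 0 ≤ st t := Real.smoothTransition.nonneg _

lemma st_le_one (t : ℝ) : st t ≤ 1 := Real.smoothTransition.le_one _

lemma st_of_le {t : ℝ} (h : t ≤ 1) : st t = 0 := Real.smoothTransition.zero_of_nonpos (by linarith)

lemma st_of_ge {t : ℝ} (h : 2 ≤ t) : st t = 1 := Real.smoothTransition.one_of_one_le (by linarith)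

/-- localized estimate for test functions -/
lemma local_pairing_test {f : E → ℂ} (hf : MemLp f 2 nu) {ρ : ℝ} (hρ : 0 < ρ) (hs : ∀ x : E, ρ < x 2 → f x = 0)
    {φ : E → ℂ} (hφ : IsTest Om φ) :
    ‖∫ x, f x * φ x ∂nu‖ ^ 2 ≤ 16 * ρ ^ 2 * (∫ x, ‖f x‖ ^ 2 ∂nu) * ∫ x, ‖pd 0 φ x‖ ^ 2 ∂nu := by
  set A : Set E := {x | x 2 ≤ ρ} with hA
  have hAm : MeasurableSet A := (isClosed_le (by fun_prop) (by fun_prop)).measurableSet
  have hφm : MemLp φ 2 nu := memLp_apply hφ.memLp_J 0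
  have hpm : MemLp (pd 0 φ) 2 nu := memLp_apply hφ.memLp_J 1
  have hg : MemLp (A.indicator φ) 2 nu := hφm.indicator hAm
  have h1 : ∫ x, f x * φ x ∂nu = ∫ x, f x * A.indicator φ x ∂nu := by
    congr 1
    ext x
    by_cases hx : x ∈ A
    · rw [indicator_of_mem hx]
    · rw [hs x (by simpa [hA] using hx)]; simp
  rw [h1]
  have h2 := norm_integral_mul_le hf hg
  set θ : ℝ → ℝ := fun t => 1 - st (t / ρ) with hθ
  have hθc : ContDiff ℝ 1 θ := contDiff_const.sub ((st_contDiff.of_le (by norm_cast)).comp (by fun_prop))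
  have hθ0 : ∀ t, 0 ≤ θ t := fun t => by simp only [hθ]; linarith [st_le_one (t / ρ)]
  have h3 : ∫ x, ‖A.indicator φ x‖ ^ 2 ∂nu ≤ 16 * ρ ^ 2 * ∫ x, ‖pd 0 φ x‖ ^ 2 ∂nu := by
    have h4 := poincare_test hφ hθc hθ0
    have h5 : ∫ x, θ (x 2) * ‖φ x‖ ^ 2 ∂nu = ∫ x : E, θ (x 2) * ‖φ x‖ ^ 2 := by
      apply integral_nu_eq
      intro x hx
      simp [hφ.zero_of_notMem hx]
    have h6 : ∫ x, θ (x 2) * (x 2 ^ 2 * ‖pd 0 φ x‖ ^ 2) ∂nu = ∫ x : E, θ (x 2) * (x 2 ^ 2 * ‖pd 0 φ x‖ ^ 2) := by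
      apply integral_nu_eq
      intro x hx
      simp [hφ.pd_zero_of_notMem hx]
    rw [← h5, ← h6] at h4
    have hθcont : Continuous (fun x : E => θ (x 2)) := hθc.continuous.comp (by fun_prop)
    have hφcont := hφ.continuous
    have hint : Integrable (fun x : E => θ (x 2) * ‖φ x‖ ^ 2) nu := by
      have : Integrable (fun x : E => θ (x 2) * ‖φ x‖ ^ 2) := by
        apply Continuous.integrable_of_hasCompactSupport (by fun_prop)
        have := hφ.compact.norm.comp_left (g := fun t : ℝ => t ^ 2) (by simp)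
        exact this.mul_left
      exact this.restrict
    have h7 : ∫ x, ‖A.indicator φ x‖ ^ 2 ∂nu ≤ ∫ x, θ (x 2) * ‖φ x‖ ^ 2 ∂nu := by
      refine integral_mono (integrable_sq hg) hint fun x => ?_
      by_cases hx : x ∈ A
      · have : θ (x 2) = 1 := by
          simp only [hθ]
          rw [st_of_le]
          · ring
          · rw [div_le_one hρ]; exact hx
        simp only
        rw [this, indicator_of_mem hx, one_mul]
      · simp only
        rw [indicator_of_notMem hx]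
        have := hθ0 (x 2)
        rw [norm_zero, zero_pow two_ne_zero]
        positivity
    have h8 : ∫ x, θ (x 2) * (x 2 ^ 2 * ‖pd 0 φ x‖ ^ 2) ∂nu ≤ 4 * ρ ^ 2 * ∫ x, ‖pd 0 φ x‖ ^ 2 ∂nu := by
      rw [← integral_const_mul]
      refine integral_mono_of_nonneg ?_ ((integrable_sq hpm).const_mul _) ?_
      · filter_upwards with x
        have := hθ0 (x 2)
        simp only [Pi.zero_apply]
        positivity
      · have : ∀ᵐ x ∂nu, x ∈ Om := ae_restrict_mem isOpen_Om.measurableSet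
        filter_upwards [this] with x hx
        by_cases hx2 : 2 * ρ ≤ x 2
        · have : θ (x 2) = 0 := by
            simp only [hθ]
            rw [st_of_ge]
            · ring
            · rw [le_div_iff₀ hρ]; exact hx2
          rw [this, zero_mul]
          positivity
        · have h9 : θ (x 2) ≤ 1 := by simp only [hθ]; linarith [st_nonneg (x 2 / ρ)]
          have h10 : x 2 ^ 2 ≤ 4 * ρ ^ 2 := by nlinarith [hx.2.1, not_le.1 hx2]
          have h11 : x 2 ^ 2 * ‖pd 0 φ x‖ ^ 2 ≤ 4 * ρ ^ 2 * ‖pd 0 φ x‖ ^ 2 := by gcongr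
          have h12 : θ (x 2) * (x 2 ^ 2 * ‖pd 0 φ x‖ ^ 2) ≤ 1 * (x 2 ^ 2 * ‖pd 0 φ x‖ ^ 2) := by gcongr
          linarith
    linarith
  have h13 : 0 ≤ ∫ x, ‖f x‖ ^ 2 ∂nu := integral_nonneg fun x => sq_nonneg _
  calc ‖∫ x, f x * A.indicator φ x ∂nu‖ ^ 2 ≤ (∫ x, ‖f x‖ ^ 2 ∂nu) * ∫ x, ‖A.indicator φ x‖ ^ 2 ∂nu := h2
    _ ≤ (∫ x, ‖f x‖ ^ 2 ∂nu) * (16 * ρ ^ 2 * ∫ x, ‖pd 0 φ x‖ ^ 2 ∂nu) := by gcongr
    _ = _ := by ring

/-- `i`-th component as a bounded operator -/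
noncomputable def comp (i : Fin 4) : X2 →L[ℂ] Lp ℂ 2 nu := (EuclideanSpace.proj i : V4 →L[ℂ] ℂ).compLpL 2 nu

lemma comp_toLp {U : E → V4} (hU : MemLp U 2 nu) (i : Fin 4) :
    comp i (hU.toLp U) =ᵐ[nu] fun x => U x i := by
  have h1 := (EuclideanSpace.proj i : V4 →L[ℂ] ℂ).coeFn_compLpL (p := 2) (hU.toLp U)
  filter_upwards [h1, hU.coeFn_toLp] with x h1 h2
  rw [comp, h1, h2]
  rfl

lemma norm_sq_Lp (u : Lp ℂ 2 nu) : ‖u‖ ^ 2 = ∫ x, ‖u x‖ ^ 2 ∂nu := by
  have h1 : inner ℂ u u = ((‖u‖ ^ 2 : ℝ) : ℂ) := by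
    rw [inner_self_eq_norm_sq_to_K]; norm_cast
  rw [L2.inner_def] at h1
  have h2 : ∫ x, inner ℂ (u x) (u x) ∂nu = ((∫ x, ‖u x‖ ^ 2 ∂nu : ℝ) : ℂ) := by
    rw [← integral_complex_ofReal]
    apply integral_congr_ae
    filter_upwards with x
    rw [inner_self_eq_norm_sq_to_K]; norm_cast
  rw [h2] at h1
  exact_mod_cast h1.symm

lemma norm_sq_comp_toLp {U : E → V4} (hU : MemLp U 2 nu) (i : Fin 4) :
    ‖comp i (hU.toLp U)‖ ^ 2 = ∫ x, ‖U x i‖ ^ 2 ∂nu := by
  rw [norm_sq_Lp]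
  apply integral_congr_ae
  filter_upwards [comp_toLp hU i] with x hx
  rw [hx]

/-- Poincaré inequality in the space `InH` -/
lemma InH.poincare {U : E → V4} (hU : InH U) : ∫ x, ‖U x 0‖ ^ 2 ∂nu ≤ 4 * ∫ x, ‖U x 1‖ ^ 2 ∂nu := by
  obtain ⟨h1, h2⟩ := hU
  have h3 : ‖comp 0 (h1.toLp U)‖ ^ 2 ≤ 4 * ‖comp 1 (h1.toLp U)‖ ^ 2 := by
    refine H0_induction (p := fun u => ‖comp 0 u‖ ^ 2 ≤ 4 * ‖comp 1 u‖ ^ 2) ?_ ?_ h2
    · exact isClosed_le (by fun_prop) (by fun_prop)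
    · intro φ hφ
      rw [norm_sq_comp_toLp, norm_sq_comp_toLp]
      exact poincare_nu hφ
  rwa [norm_sq_comp_toLp, norm_sq_comp_toLp] at h3

lemma memLp_single {f : E → ℂ} (hf : MemLp f 2 nu) : MemLp (fun x => (WithLp.toLp 2 ![f x, 0, 0, 0] : V4)) 2 nu := by
  have hc : Continuous (fun z : ℂ => (WithLp.toLp 2 ![z, 0, 0, 0] : V4)) := by
    apply (PiLp.continuous_toLp 2 _).comp
    apply continuous_pi
    intro i
    fin_cases i
    · exact continuous_id
    · exact continuous_const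
    · exact continuous_const
    · exact continuous_const
  refine hf.of_le (hc.comp_aestronglyMeasurable hf.1) ?_
  filter_upwards with x
  apply le_of_eq
  have : ‖(WithLp.toLp 2 ![f x, 0, 0, 0] : V4)‖ ^ 2 = ‖f x‖ ^ 2 := by
    rw [V4_norm_sq]
    simp
  exact (pow_left_inj₀ (norm_nonneg _) (norm_nonneg _) (by norm_num)).1 this

lemma InH.local_pairing {f : E → ℂ} (hf : MemLp f 2 nu) {ρ : ℝ} (hρ : 0 < ρ) (hs : ∀ x : E, ρ < x 2 → f x = 0)
    {U : E → V4} (hU : InH U) :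
    ‖∫ x, f x * U x 0 ∂nu‖ ^ 2 ≤ 16 * ρ ^ 2 * (∫ x, ‖f x‖ ^ 2 ∂nu) * ∫ x, ‖U x 1‖ ^ 2 ∂nu := by
  obtain ⟨h1, h2⟩ := hU
  have hB := memLp_cj (memLp_single hf)
  have h3 : ‖inner ℂ (hB.toLp _) (h1.toLp U)‖ ^ 2 ≤
      16 * ρ ^ 2 * (∫ x, ‖f x‖ ^ 2 ∂nu) * ‖comp 1 (h1.toLp U)‖ ^ 2 := by
    refine H0_induction (p := fun u => ‖inner ℂ (hB.toLp _) u‖ ^ 2 ≤
      16 * ρ ^ 2 * (∫ x, ‖f x‖ ^ 2 ∂nu) * ‖comp 1 u‖ ^ 2) ?_ ?_ h2
    · exact isClosed_le (by fun_prop) (by fun_prop)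
    · intro φ hφ
      rw [norm_sq_comp_toLp, inner_toLp]
      simp only [inner_cj]
      simpa [dot] using local_pairing_test hf hρ hs hφ
  rw [norm_sq_comp_toLp, inner_toLp] at h3
  simp only [inner_cj] at h3
  simpa [dot] using h3

/-- weak solutions, tested against test functions -/
def WeakSol (α β : ℂ) (f : E → ℂ) (U : E → V4) : Prop :=
  ∀ ψ, IsTest Om ψ → ∫ x, dot (Dm α β (U x)) (J ψ x) ∂nu = -∫ x, f x * ψ x ∂nu

lemma memLp_Dm (α β : ℂ) {U : E → V4} (hU : MemLp U 2 nu) : MemLp (fun x => Dm α β (U x)) 2 nu :=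
  (Dm α β).comp_memLp' hU

lemma J_conj {φ : E → ℂ} (h : Differentiable ℝ φ) (x : E) :
    J (fun x => (starRingEnd ℂ) (φ x)) x = cj (J φ x) := by
  ext i
  fin_cases i
  · simp
  · simp [pd_conj 0 (h x)]
  · simp [pd_conj 1 (h x)]
  · simp [pd_conj 2 (h x)]

lemma cj_cj (v : V4) : cj (cj v) = v := by
  ext i; simp

lemma integrable_inner {A U : E → V4} (hA : MemLp A 2 nu) (hU : MemLp U 2 nu) :
    Integrable (fun x => inner ℂ (A x) (U x)) nu := by
  have := L2.integrable_inner (𝕜 := ℂ) (hA.toLp A) (hU.toLp U)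
  refine this.congr ?_
  filter_upwards [hA.coeFn_toLp, hU.coeFn_toLp] with x h1 h2
  rw [h1, h2]

lemma integrable_dot {A U : E → V4} (hA : MemLp A 2 nu) (hU : MemLp U 2 nu) :
    Integrable (fun x => dot (A x) (U x)) nu := by
  have := integrable_inner (memLp_cj hA) hU
  simpa only [inner_cj] using this

lemma dot_single (z : ℂ) (v : V4) : dot (WithLp.toLp 2 ![z, 0, 0, 0]) v = z * v 0 := by
  simp [dot]

/-- weak solutions can be tested against elements of `InH` -/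
lemma WeakSol.extend {α β : ℂ} {f : E → ℂ} (hf : MemLp f 2 nu) {U : E → V4} (hU : MemLp U 2 nu)
    (h : WeakSol α β f U) {K : E → V4} (hK : InH K) :
    ∫ x, dot (Dm α β (U x)) (K x) ∂nu = -∫ x, f x * K x 0 ∂nu := by
  have hA := memLp_Dm α β hU
  have hF := memLp_single hf
  have key : ∀ {V : E → V4}, MemLp V 2 nu → ∫ x, dot (Dm α β (U x) + WithLp.toLp 2 ![f x, 0, 0, 0]) (V x) ∂nu =
      ∫ x, dot (Dm α β (U x)) (V x) ∂nu + ∫ x, f x * V x 0 ∂nu := by
    intro V hV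
    have h2 := integrable_dot hF hV
    simp only [dot_single] at h2
    rw [← integral_add (integrable_dot hA hV) h2]
    congr 1
    ext x
    rw [← dot_single]
    simp [dot]
    ring
  have h1 := pairing_zero (hA.add hF) (by
    intro φ hφ
    have := key hφ.memLp_J
    simp only [Pi.add_apply]
    rw [this, h φ hφ]
    simp) hK
  simp only [Pi.add_apply] at h1
  rw [key hK.memLp] at h1
  linear_combination h1

lemma WeakSol.inner_eq {α β : ℂ} {f : E → ℂ} (hf : MemLp f 2 nu) {U : E → V4} (hU : InH U)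
    (h : WeakSol α β f U) : ∫ x, inner ℂ (U x) (Dm α β (U x)) ∂nu = -∫ x, (starRingEnd ℂ) (U x 0) * f x ∂nu := by
  have hUm := hU.memLp
  have hA := memLp_Dm α β hUm
  have hF := memLp_single hf
  have key : ∀ {V : E → V4}, MemLp V 2 nu → ∫ x, inner ℂ (V x) (Dm α β (U x) + WithLp.toLp 2 ![f x, 0, 0, 0]) ∂nu =
      ∫ x, inner ℂ (V x) (Dm α β (U x)) ∂nu + ∫ x, (starRingEnd ℂ) (V x 0) * f x ∂nu := by
    intro V hV
    have h2 := integrable_inner hV hF
    have h3 : ∀ x, inner ℂ (V x) (WithLp.toLp 2 ![f x, 0, 0, 0] : V4) = (starRingEnd ℂ) (V x 0) * f x := by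
      intro x
      rw [V4_inner]; simp
    simp only [h3] at h2
    rw [← integral_add (integrable_inner hV hA) h2]
    congr 1
    ext x
    rw [inner_add_right, h3]
  obtain ⟨h1, h2⟩ := hU
  have hAF := hA.add hF
  have h3 : inner ℂ (h1.toLp U) (hAF.toLp _) = 0 := by
    refine H0_induction (p := fun u => inner ℂ u (hAF.toLp _) = 0) ?_ ?_ h2
    · exact isClosed_eq (by fun_prop) continuous_const
    · intro φ hφ
      rw [inner_toLp]
      simp only [Pi.add_apply]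
      rw [key hφ.memLp_J]
      have h4 := h _ hφ.conj
      have h5 : ∫ x, inner ℂ (J φ x) (Dm α β (U x)) ∂nu =
          ∫ x, dot (Dm α β (U x)) (J (fun x => (starRingEnd ℂ) (φ x)) x) ∂nu := by
        congr 1
        ext x
        rw [J_conj hφ.differentiable, V4_inner]
        simp only [dot, cj_apply]
        ring
      rw [h5, h4]
      simp only [J_zero]
      rw [← sub_eq_neg_add, sub_eq_zero]
      congr 1
      ext x
      ring
  rw [inner_toLp] at h3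
  simp only [Pi.add_apply] at h3
  rw [key h1] at h3
  linear_combination h3

/-- energy estimate -/
lemma WeakSol.energy {α β : ℂ} {c : ℝ} (hc : 0 < c) (hα : c ≤ α.re) (hβ : c ≤ β.re) {f : E → ℂ} (hf : MemLp f 2 nu)
    {ρ : ℝ} (hρ : 0 < ρ) (hs : ∀ x : E, ρ < x 2 → f x = 0) {U : E → V4} (hU : InH U)
    (h : WeakSol α β f U) :
    ∫ x, ‖U x 0‖ ^ 2 ∂nu ≤ 64 / c ^ 2 * ρ ^ 2 * ∫ x, ‖f x‖ ^ 2 ∂nu := by
  have hUm := hU.memLp
  have h1 := h.inner_eq hf hU
  have i1 := integrable_sq (memLp_apply hUm 1)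
  have i2 := integrable_sq (memLp_apply hUm 2)
  have i3 := integrable_sq (memLp_apply hUm 3)
  set N := ∫ x, ‖U x 1‖ ^ 2 ∂nu with hN
  have hN0 : 0 ≤ N := integral_nonneg fun x => sq_nonneg _
  have h2 : c * N ≤ (∫ x, inner ℂ (U x) (Dm α β (U x)) ∂nu).re := by
    have h3 : (∫ x, inner ℂ (U x) (Dm α β (U x)) ∂nu).re = ∫ x, (inner ℂ (U x) (Dm α β (U x))).re ∂nu := by
      have := integral_re (𝕜 := ℂ) (integrable_inner hUm (memLp_Dm α β hUm))
      simpa using this.symm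
    rw [h3, hN, ← integral_const_mul]
    refine integral_mono (i1.const_mul c) ?_ fun x => ?_
    · have := (integrable_inner hUm (memLp_Dm α β hUm)).re
      simpa using this
    · simp only
      rw [Dm_re]
      have a1 := sq_nonneg ‖U x 1‖
      have a2 := sq_nonneg ‖U x 2‖
      have a3 := sq_nonneg ‖U x 3‖
      nlinarith
  have h4 : (∫ x, inner ℂ (U x) (Dm α β (U x)) ∂nu).re ≤ ‖∫ x, (starRingEnd ℂ) (f x) * U x 0 ∂nu‖ := by
    rw [h1]
    refine (Complex.re_le_norm _).trans (le_of_eq ?_)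
    rw [norm_neg, ← Complex.norm_conj, ← integral_conj]
    congr 2
    ext x
    simp [mul_comm]
  have hfc : MemLp (fun x => (starRingEnd ℂ) (f x)) 2 nu := by
    refine hf.of_le (Complex.continuous_conj.comp_aestronglyMeasurable hf.1) ?_
    filter_upwards with x
    simp
  have h5 := hU.local_pairing hfc hρ (fun x hx => by simp [hs x hx])
  have h6 : ∀ x, ‖(starRingEnd ℂ) (f x)‖ ^ 2 = ‖f x‖ ^ 2 := fun x => by simp
  simp only [h6] at h5
  set F := ∫ x, ‖f x‖ ^ 2 ∂nu with hF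
  have hF0 : 0 ≤ F := integral_nonneg fun x => sq_nonneg _
  have h7 : (c * N) ^ 2 ≤ 16 * ρ ^ 2 * F * N := by
    have h8 : c * N ≤ ‖∫ x, (starRingEnd ℂ) (f x) * U x 0 ∂nu‖ := h2.trans h4
    calc (c * N) ^ 2 ≤ ‖∫ x, (starRingEnd ℂ) (f x) * U x 0 ∂nu‖ ^ 2 := by gcongr
      _ ≤ _ := h5
  have h9 : c ^ 2 * N ≤ 16 * ρ ^ 2 * F := by
    by_cases hN' : N = 0
    · rw [hN']; simp; positivity
    · have hNp : 0 < N := lt_of_le_of_ne hN0 (Ne.symm hN')
      nlinarith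
  have h10 := hU.poincare
  rw [← hN] at h10
  calc ∫ x, ‖U x 0‖ ^ 2 ∂nu ≤ 4 * N := h10
    _ ≤ 64 / c ^ 2 * ρ ^ 2 * F := by
      have : N ≤ 16 * ρ ^ 2 * F / c ^ 2 := by
        rw [le_div_iff₀ (by positivity)]; linarith
      calc 4 * N ≤ 4 * (16 * ρ ^ 2 * F / c ^ 2) := by gcongr
        _ = _ := by ring

lemma X2_norm_sq (u : X2) : ‖u‖ ^ 2 = ‖comp 0 u‖ ^ 2 + ‖comp 1 u‖ ^ 2 + ‖comp 2 u‖ ^ 2 + ‖comp 3 u‖ ^ 2 := by
  have hu : MemLp (fun x => u x) 2 nu := Lp.memLp u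
  have e : hu.toLp _ = u := Lp.toLp_coeFn u hu
  have h0 := norm_sq_comp_toLp hu 0
  have h1 := norm_sq_comp_toLp hu 1
  have h2 := norm_sq_comp_toLp hu 2
  have h3 := norm_sq_comp_toLp hu 3
  rw [e] at h0 h1 h2 h3
  rw [norm_sq_eq_integral, h0, h1, h2, h3]
  have i0 := integrable_sq (memLp_apply hu 0)
  have i1 := integrable_sq (memLp_apply hu 1)
  have i2 := integrable_sq (memLp_apply hu 2)
  have i3 := integrable_sq (memLp_apply hu 3)
  have i01 : Integrable (fun x => ‖u x 0‖ ^ 2 + ‖u x 1‖ ^ 2) nu := i0.add i1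
  have i012 : Integrable (fun x => ‖u x 0‖ ^ 2 + ‖u x 1‖ ^ 2 + ‖u x 2‖ ^ 2) nu := i01.add i2
  rw [← integral_add i0 i1, ← integral_add i01 i2, ← integral_add i012 i3]
  congr 1
  ext x
  exact V4_norm_sq _

lemma H0_poincare {u : X2} (hu : u ∈ H0) : ‖comp 0 u‖ ^ 2 ≤ 4 * ‖comp 1 u‖ ^ 2 := by
  refine H0_induction (p := fun u => ‖comp 0 u‖ ^ 2 ≤ 4 * ‖comp 1 u‖ ^ 2) ?_ ?_ hu
  · exact isClosed_le (by fun_prop) (by fun_prop)
  · intro φ hφ
    rw [norm_sq_comp_toLp, norm_sq_comp_toLp]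
    exact poincare_nu hφ

lemma coercive_X2 {α β : ℂ} {c : ℝ} (hc : 0 < c) (hα : c ≤ α.re) (hβ : c ≤ β.re) {u : X2} (hu : u ∈ H0) :
    c / 5 * ‖u‖ ^ 2 ≤ (inner ℂ u ((Dm α β).compLpL 2 nu u)).re := by
  have hum : MemLp (fun x => u x) 2 nu := Lp.memLp u
  have e : hum.toLp _ = u := Lp.toLp_coeFn u hum
  have h1 : inner ℂ u ((Dm α β).compLpL 2 nu u) = ∫ x, inner ℂ (u x) (Dm α β (u x)) ∂nu := by
    rw [L2.inner_def]
    apply integral_congr_ae
    filter_upwards [(Dm α β).coeFn_compLpL (p := 2) u] with x hx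
    rw [hx]
  have h2 : (∫ x, inner ℂ (u x) (Dm α β (u x)) ∂nu).re = ∫ x, (inner ℂ (u x) (Dm α β (u x))).re ∂nu := by
    have := integral_re (𝕜 := ℂ) (integrable_inner hum (memLp_Dm α β hum))
    simpa using this.symm
  have i1 := integrable_sq (memLp_apply hum 1)
  have i2 := integrable_sq (memLp_apply hum 2)
  have i3 := integrable_sq (memLp_apply hum 3)
  have n1 := norm_sq_comp_toLp hum 1
  have n2 := norm_sq_comp_toLp hum 2
  have n3 := norm_sq_comp_toLp hum 3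
  rw [e] at n1 n2 n3
  have h3 : c * (‖comp 1 u‖ ^ 2 + ‖comp 2 u‖ ^ 2 + ‖comp 3 u‖ ^ 2) ≤
      ∫ x, (inner ℂ (u x) (Dm α β (u x))).re ∂nu := by
    have i12 : Integrable (fun x => ‖u x 1‖ ^ 2 + ‖u x 2‖ ^ 2) nu := i1.add i2
    have i123 : Integrable (fun x => ‖u x 1‖ ^ 2 + ‖u x 2‖ ^ 2 + ‖u x 3‖ ^ 2) nu := i12.add i3
    rw [n1, n2, n3, ← integral_add i1 i2, ← integral_add i12 i3, ← integral_const_mul]
    refine integral_mono (i123.const_mul c) ?_ fun x => ?_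
    · have := (integrable_inner hum (memLp_Dm α β hum)).re
      simpa using this
    · simp only
      rw [Dm_re]
      have a1 := sq_nonneg ‖u x 1‖
      have a2 := sq_nonneg ‖u x 2‖
      have a3 := sq_nonneg ‖u x 3‖
      nlinarith
  have h4 := H0_poincare hu
  rw [h1, h2]
  refine le_trans ?_ h3
  rw [X2_norm_sq]
  have b1 := sq_nonneg ‖comp 1 u‖
  have b2 := sq_nonneg ‖comp 2 u‖
  have b3 := sq_nonneg ‖comp 3 u‖
  nlinarith

/-- existence of weak solutions -/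
lemma exists_weakSol {α β : ℂ} {c : ℝ} (hc : 0 < c) (hα : c ≤ α.re) (hβ : c ≤ β.re) {f : E → ℂ} (hf : MemLp f 2 nu) :
    ∃ U, InH U ∧ WeakSol α β f U := by
  set D : X2 →L[ℂ] X2 := (Dm α β).compLpL 2 nu with hD
  set T : H0 →L[ℂ] H0 := (H0.orthogonalProjectionOnto).comp (D.comp H0.subtypeL) with hT
  have hTi : ∀ u v : H0, inner ℂ v (T u) = inner ℂ (v : X2) (D u) := by
    intro u v
    rw [hT]
    simp only [ContinuousLinearMap.comp_apply]
    rw [Submodule.coe_inner]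
    exact Submodule.inner_orthogonalProjectionOnto_eq_of_mem_left v _
  have hsurj : Function.Surjective T := by
    apply lax_milgram T (c / 5) (by positivity)
    intro u
    rw [hTi]
    exact coercive_X2 hc hα hβ u.2
  have hF := memLp_single hf
  obtain ⟨u, hu⟩ := hsurj (-(H0.orthogonalProjectionOnto (hF.toLp _)))
  have hum : MemLp (fun x => (u : X2) x) 2 nu := Lp.memLp _
  have e : hum.toLp _ = (u : X2) := Lp.toLp_coeFn _ hum
  refine ⟨fun x => (u : X2) x, ⟨hum, ?_⟩, ?_⟩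
  · rw [e]; exact u.2
  · intro ψ hψ
    have hc := hψ.conj
    obtain ⟨v, hv⟩ : ∃ v : H0, (v : X2) = hc.memLp_J.toLp _ := ⟨⟨_, hc.toLp_mem⟩, rfl⟩
    have h1 : inner ℂ v (T u) = inner ℂ v (-(H0.orthogonalProjectionOnto (hF.toLp _))) := by
      rw [hu]
    rw [hTi, inner_neg_right, Submodule.inner_orthogonalProjectionOnto_eq_of_mem_left, hv] at h1
    rw [inner_toLp, L2.inner_def] at h1
    have h2 : ∫ x, inner ℂ ((hc.memLp_J.toLp _) x) ((D (u : X2)) x) ∂nu =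
        ∫ x, dot (Dm α β ((u : X2) x)) (J ψ x) ∂nu := by
      apply integral_congr_ae
      filter_upwards [hc.memLp_J.coeFn_toLp, (Dm α β).coeFn_compLpL (p := 2) (u : X2)] with x h1 h2
      rw [hD, h1, h2, J_conj hψ.differentiable, inner_cj]
      simp only [dot]
      ring
    rw [h2] at h1
    rw [h1]
    congr 2
    ext x
    rw [J_conj hψ.differentiable, inner_cj]
    simp [dot]
    ring

end Pool.Agent.Helper728.Cone
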