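import Mathlib

/-!
The hypergeometric function `F = 2F1(a, b; 1; ·)` with `a = 2/5 - 3i/2`, `b = 9/10 - 3i/2`
on the unit disc: derivatives, the differential equation and a nonreal zero.
-/

open Complex Metric Set Filter Topology

namespace Pool.Agent.Helper728.Hyper

/-- the parameter `a` -/
noncomputable def pa : ℂ := ⟨2 / 5, -3 / 2⟩
/-- the parameter `b` -/
noncomputable def pb : ℂ := ⟨9 / 10, -3 / 2⟩

/-- coefficients of the hypergeometric series -/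
noncomputable def c : ℕ → ℂ
  | 0 => 1
  | k + 1 => c k * (((k : ℂ) + pa) * ((k : ℂ) + pb) / ((k : ℂ) + 1) ^ 2)

lemma c_succ (k : ℕ) : ((k : ℂ) + 1) ^ 2 * c (k + 1) = ((k : ℂ) + pa) * ((k : ℂ) + pb) * c k := by
  have : ((k : ℂ) + 1) ≠ 0 := by exact_mod_cast Nat.succ_ne_zero k
  simp only [c]
  field_simp

lemma norm_ratio (k : ℕ) (hk : 3 ≤ k) :
    ‖((k : ℂ) + pa) * ((k : ℂ) + pb) / ((k : ℂ) + 1) ^ 2‖ ≤ 1 := by
  have h1 : ‖(k : ℂ) + pa‖ ^ 2 = ((k : ℝ) + 2 / 5) ^ 2 + (3 / 2) ^ 2 := by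
    rw [← normSq_eq_norm_sq, normSq_apply]; simp [pa]; ring
  have h2 : ‖(k : ℂ) + pb‖ ^ 2 = ((k : ℝ) + 9 / 10) ^ 2 + (3 / 2) ^ 2 := by
    rw [← normSq_eq_norm_sq, normSq_apply]; simp [pb]; ring
  have h3 : ‖(k : ℂ) + 1‖ = (k : ℝ) + 1 := by
    have : (k : ℂ) + 1 = (((k : ℝ) + 1 : ℝ) : ℂ) := by push_cast; rfl
    rw [this, norm_real, Real.norm_of_nonneg (by positivity)]
  rw [norm_div, norm_mul, norm_pow, h3, div_le_one (by positivity)]
  have hk' : (3 : ℝ) ≤ k := by exact_mod_cast hk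
  have h4 : (‖(k : ℂ) + pa‖ * ‖(k : ℂ) + pb‖) ^ 2 ≤ (((k : ℝ) + 1) ^ 2) ^ 2 := by
    rw [mul_pow, h1, h2]
    obtain ⟨j, hj⟩ : ∃ j : ℝ, (k : ℝ) = j + 3 := ⟨k - 3, by ring⟩
    have hj0 : 0 ≤ j := by linarith
    rw [hj]
    have : 0 ≤ j ^ 2 := sq_nonneg j
    have : 0 ≤ j ^ 3 := by positivity
    nlinarith
  exact le_of_sq_le_sq h4 (by positivity)

lemma c0 : c 0 = ⟨1, 0⟩ := rfl

lemma c1 : c 1 = ⟨-189 / 100, -39 / 20⟩ := by
  have h : c 1 = c 0 * ((((0 : ℕ) : ℂ) + pa) * (((0 : ℕ) : ℂ) + pb) / (((0 : ℕ) : ℂ) + 1) ^ 2) := rfl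
  rw [h, c0]
  have e : (((0 : ℕ) : ℂ) + 1) ^ 2 = (((1 : ℝ)) : ℂ) := by push_cast; norm_num
  rw [e]
  apply Complex.ext
  · simp only [mul_re, mul_im, div_ofReal_re, div_ofReal_im, add_re, add_im, natCast_re, natCast_im, pa, pb]
    norm_num
  · simp only [mul_re, mul_im, div_ofReal_re, div_ofReal_im, add_re, add_im, natCast_re, natCast_im, pa, pb]
    norm_num

lemma c2 : c 2 = ⟨-52137 / 20000, 2139 / 1000⟩ := by
  have h : c 2 = c 1 * ((((1 : ℕ) : ℂ) + pa) * (((1 : ℕ) : ℂ) + pb) / (((1 : ℕ) : ℂ) + 1) ^ 2) := rfl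
  rw [h, c1]
  have e : (((1 : ℕ) : ℂ) + 1) ^ 2 = (((4 : ℝ)) : ℂ) := by push_cast; norm_num
  rw [e]
  apply Complex.ext
  · simp only [mul_re, mul_im, div_ofReal_re, div_ofReal_im, add_re, add_im, natCast_re, natCast_im, pa, pb]
    norm_num
  · simp only [mul_re, mul_im, div_ofReal_re, div_ofReal_im, add_re, add_im, natCast_re, natCast_im, pa, pb]
    norm_num

lemma c3 : c 3 = ⟨1050397 / 2000000, 1368851 / 400000⟩ := by
  have h : c 3 = c 2 * ((((2 : ℕ) : ℂ) + pa) * (((2 : ℕ) : ℂ) + pb) / (((2 : ℕ) : ℂ) + 1) ^ 2) := rfl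
  rw [h, c2]
  have e : (((2 : ℕ) : ℂ) + 1) ^ 2 = (((9 : ℝ)) : ℂ) := by push_cast; norm_num
  rw [e]
  apply Complex.ext
  · simp only [mul_re, mul_im, div_ofReal_re, div_ofReal_im, add_re, add_im, natCast_re, natCast_im, pa, pb]
    norm_num
  · simp only [mul_re, mul_im, div_ofReal_re, div_ofReal_im, add_re, add_im, natCast_re, natCast_im, pa, pb]
    norm_num

lemma c4 : c 4 = ⟨4325473161 / 1600000000, 159633501 / 80000000⟩ := by
  have h : c 4 = c 3 * ((((3 : ℕ) : ℂ) + pa) * (((3 : ℕ) : ℂ) + pb) / (((3 : ℕ) : ℂ) + 1) ^ 2) := rfl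
  rw [h, c3]
  have e : (((3 : ℕ) : ℂ) + 1) ^ 2 = (((16 : ℝ)) : ℂ) := by push_cast; norm_num
  rw [e]
  apply Complex.ext
  · simp only [mul_re, mul_im, div_ofReal_re, div_ofReal_im, add_re, add_im, natCast_re, natCast_im, pa, pb]
    norm_num
  · simp only [mul_re, mul_im, div_ofReal_re, div_ofReal_im, add_re, add_im, natCast_re, natCast_im, pa, pb]
    norm_num

lemma c5 : c 5 = ⟨12806263351791 / 4000000000000, 5240429961 / 160000000000⟩ := by
  have h : c 5 = c 4 * ((((4 : ℕ) : ℂ) + pa) * (((4 : ℕ) : ℂ) + pb) / (((4 : ℕ) : ℂ) + 1) ^ 2) := rfl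
  rw [h, c4]
  have e : (((4 : ℕ) : ℂ) + 1) ^ 2 = (((25 : ℝ)) : ℂ) := by push_cast; norm_num
  rw [e]
  apply Complex.ext
  · simp only [mul_re, mul_im, div_ofReal_re, div_ofReal_im, add_re, add_im, natCast_re, natCast_im, pa, pb]
    norm_num
  · simp only [mul_re, mul_im, div_ofReal_re, div_ofReal_im, add_re, add_im, natCast_re, natCast_im, pa, pb]
    norm_num

lemma c6 : c 6 = ⟨2118967166902807 / 800000000000000, -3701162075247 / 2500000000000⟩ := by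
  have h : c 6 = c 5 * ((((5 : ℕ) : ℂ) + pa) * (((5 : ℕ) : ℂ) + pb) / (((5 : ℕ) : ℂ) + 1) ^ 2) := rfl
  rw [h, c5]
  have e : (((5 : ℕ) : ℂ) + 1) ^ 2 = (((36 : ℝ)) : ℂ) := by push_cast; norm_num
  rw [e]
  apply Complex.ext
  · simp only [mul_re, mul_im, div_ofReal_re, div_ofReal_im, add_re, add_im, natCast_re, natCast_im, pa, pb]
    norm_num
  · simp only [mul_re, mul_im, div_ofReal_re, div_ofReal_im, add_re, add_im, natCast_re, natCast_im, pa, pb]
    norm_num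

lemma c7 : c 7 = ⟨6517769527651979337 / 3920000000000000000, -262601199437895903 / 112000000000000000⟩ := by
  have h : c 7 = c 6 * ((((6 : ℕ) : ℂ) + pa) * (((6 : ℕ) : ℂ) + pb) / (((6 : ℕ) : ℂ) + 1) ^ 2) := rfl
  rw [h, c6]
  have e : (((6 : ℕ) : ℂ) + 1) ^ 2 = (((49 : ℝ)) : ℂ) := by push_cast; norm_num
  rw [e]
  apply Complex.ext
  · simp only [mul_re, mul_im, div_ofReal_re, div_ofReal_im, add_re, add_im, natCast_re, natCast_im, pa, pb]
    norm_num
  · simp only [mul_re, mul_im, div_ofReal_re, div_ofReal_im, add_re, add_im, natCast_re, natCast_im, pa, pb]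
    norm_num

lemma c8 : c 8 = ⟨1110210083577341960343 / 1792000000000000000000, -832764100467196788189 / 313600000000000000000⟩ := by
  have h : c 8 = c 7 * ((((7 : ℕ) : ℂ) + pa) * (((7 : ℕ) : ℂ) + pb) / (((7 : ℕ) : ℂ) + 1) ^ 2) := rfl
  rw [h, c7]
  have e : (((7 : ℕ) : ℂ) + 1) ^ 2 = (((64 : ℝ)) : ℂ) := by push_cast; norm_num
  rw [e]
  apply Complex.ext
  · simp only [mul_re, mul_im, div_ofReal_re, div_ofReal_im, add_re, add_im, natCast_re, natCast_im, pa, pb]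
    norm_num
  · simp only [mul_re, mul_im, div_ofReal_re, div_ofReal_im, add_re, add_im, natCast_re, natCast_im, pa, pb]
    norm_num

lemma c9 : c 9 = ⟨-3343331157373320081432061 / 11289600000000000000000000, -1938532339760653134488653 / 752640000000000000000000⟩ := by
  have h : c 9 = c 8 * ((((8 : ℕ) : ℂ) + pa) * (((8 : ℕ) : ℂ) + pb) / (((8 : ℕ) : ℂ) + 1) ^ 2) := rfl
  rw [h, c8]
  have e : (((8 : ℕ) : ℂ) + 1) ^ 2 = (((81 : ℝ)) : ℂ) := by push_cast; norm_num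
  rw [e]
  apply Complex.ext
  · simp only [mul_re, mul_im, div_ofReal_re, div_ofReal_im, add_re, add_im, natCast_re, natCast_im, pa, pb]
    norm_num
  · simp only [mul_re, mul_im, div_ofReal_re, div_ofReal_im, add_re, add_im, natCast_re, natCast_im, pa, pb]
    norm_num


lemma norm_le_of_sq {z : ℂ} {r : ℝ} (hr : 0 ≤ r) (h : z.re ^ 2 + z.im ^ 2 ≤ r ^ 2) : ‖z‖ ≤ r := by
  apply le_of_sq_le_sq _ hr
  rw [← normSq_eq_norm_sq, normSq_apply]
  nlinarith

lemma le_norm_of_sq {z : ℂ} {r : ℝ} (h : r ^ 2 ≤ z.re ^ 2 + z.im ^ 2) : r ≤ ‖z‖ := by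
  apply le_of_sq_le_sq _ (norm_nonneg z)
  rw [← normSq_eq_norm_sq, normSq_apply]
  nlinarith

lemma norm_c_le (k : ℕ) : ‖c k‖ ≤ 7 / 2 := by
  rcases le_or_gt k 3 with h | h
  · interval_cases k
    · rw [c0]; exact norm_le_of_sq (by norm_num) (by norm_num)
    · rw [c1]; exact norm_le_of_sq (by norm_num) (by norm_num)
    · rw [c2]; exact norm_le_of_sq (by norm_num) (by norm_num)
    · rw [c3]; exact norm_le_of_sq (by norm_num) (by norm_num)
  · obtain ⟨j, rfl⟩ : ∃ j, k = 3 + j := ⟨k - 3, by omega⟩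
    clear h
    induction j with
    | zero => rw [c3]; exact norm_le_of_sq (by norm_num) (by norm_num)
    | succ j ih =>
      have : c (3 + (j + 1)) = c (3 + j) * ((((3 + j : ℕ) : ℂ) + pa) * (((3 + j : ℕ) : ℂ) + pb) /
        (((3 + j : ℕ) : ℂ) + 1) ^ 2) := rfl
      rw [this, norm_mul]
      calc ‖c (3 + j)‖ * _ ≤ (7 / 2) * 1 := by
            apply mul_le_mul ih (norm_ratio _ (by omega)) (norm_nonneg _) (by norm_num)
        _ = 7 / 2 := by norm_num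

/-- termwise differentiation of a power series with polynomially bounded coefficients -/
lemma hasDerivAt_series {d : ℕ → ℂ} {C : ℝ} {m : ℕ} (hd : ∀ k, ‖d k‖ ≤ C * ((k : ℝ) + 1) ^ m)
    {t : ℂ} (ht : ‖t‖ < 1) :
    HasDerivAt (fun z => ∑' k : ℕ, d k * z ^ k) (∑' k : ℕ, (((k : ℂ) + 1) * d (k + 1)) * t ^ k) t := by
  obtain ⟨ρ, hρ1, hρ2⟩ := exists_between ht
  have hρ0 : 0 < ρ := lt_of_le_of_lt (norm_nonneg t) hρ1
  have hρn : ‖ρ‖ < 1 := by rwa [Real.norm_of_nonneg hρ0.le]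
  have hC : 0 ≤ C := by
    have := (norm_nonneg (d 0)).trans (hd 0)
    simpa using this
  -- summable bound
  have hsum : Summable (fun k : ℕ => C / ρ * (((k : ℝ) + 1) ^ (m + 1) * ρ ^ k)) := by
    apply Summable.mul_left
    have h1 : ∀ j : ℕ, Summable (fun k : ℕ => (k : ℝ) ^ j * ρ ^ k) := fun j =>
      summable_pow_mul_geometric_of_norm_lt_one j hρn
    have h2 : (fun k : ℕ => ((k : ℝ) + 1) ^ (m + 1) * ρ ^ k) =
        fun k : ℕ => ∑ j ∈ Finset.range (m + 2), ((m + 1).choose j : ℝ) * ((k : ℝ) ^ j * ρ ^ k) := by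
      funext k
      rw [add_pow, Finset.sum_mul]
      apply Finset.sum_congr rfl
      intro j _
      simp
      ring
    rw [h2]
    exact summable_sum fun j _ => (h1 j).mul_left _
  have key := hasDerivAt_tsum_of_isPreconnected (𝕜 := ℂ) (g := fun k z => d k * z ^ k)
    (g' := fun k z => d k * ((k : ℂ) * z ^ (k - 1)))
    (u := fun k : ℕ => C / ρ * (((k : ℝ) + 1) ^ (m + 1) * ρ ^ k))
    (t := ball (0 : ℂ) ρ) (y₀ := 0) (y := t) hsum isOpen_ball
    (convex_ball _ _).isPreconnected ?_ ?_ (mem_ball_self hρ0) ?_ (by simpa using hρ1)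
  · refine key.congr_deriv ?_
    have hs : Summable (fun k : ℕ => d k * ((k : ℂ) * t ^ (k - 1))) := by
      refine Summable.of_norm_bounded hsum fun k => ?_
      rw [norm_mul, norm_mul, norm_pow, Complex.norm_natCast]
      rcases k with _ | k
      · simp; positivity
      · have h3 : ‖t‖ ^ k ≤ ρ ^ k := by gcongr
        have h4 := hd (k + 1)
        have e : C / ρ * ((((k + 1 : ℕ) : ℝ) + 1) ^ (m + 1) * ρ ^ (k + 1)) =
          (C * (((k + 1 : ℕ) : ℝ) + 1) ^ m) * ((((k + 1 : ℕ) : ℝ) + 1) * ρ ^ k) := by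
          field_simp
          ring
        rw [e]
        apply mul_le_mul h4 _ (by positivity) (by positivity)
        apply mul_le_mul _ (by simpa using h3) (by positivity) (by positivity)
        linarith
    rw [hs.tsum_eq_zero_add]
    simp only [Nat.cast_zero, zero_mul, mul_zero, zero_add]
    apply tsum_congr
    intro k
    rw [Nat.add_sub_cancel]
    push_cast
    ring
  · intro k y _
    exact (hasDerivAt_pow k y).const_mul (d k)
  · intro k y hy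
    rw [mem_ball_zero_iff] at hy
    rw [norm_mul, norm_mul, norm_pow, Complex.norm_natCast]
    rcases k with _ | k
    · simp; positivity
    · have h3 : ‖y‖ ^ k ≤ ρ ^ k := by gcongr
      have h4 := hd (k + 1)
      have e : C / ρ * ((((k + 1 : ℕ) : ℝ) + 1) ^ (m + 1) * ρ ^ (k + 1)) =
        (C * (((k + 1 : ℕ) : ℝ) + 1) ^ m) * ((((k + 1 : ℕ) : ℝ) + 1) * ρ ^ k) := by
        field_simp
        ring
      rw [e]
      apply mul_le_mul h4 _ (by positivity) (by positivity)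
      apply mul_le_mul _ (by simpa using h3) (by positivity) (by positivity)
      linarith
  · refine summable_of_ne_finset_zero (s := {0}) ?_
    intro k hk
    simp only [Finset.mem_singleton] at hk
    simp [hk]

/-- the series and its first two derivatives -/
noncomputable def F0 (t : ℂ) : ℂ := ∑' k, c k * t ^ k
noncomputable def F1 (t : ℂ) : ℂ := ∑' k : ℕ, (((k : ℂ) + 1) * c (k + 1)) * t ^ k
noncomputable def F2 (t : ℂ) : ℂ :=
  ∑' k : ℕ, (((k : ℂ) + 1) * (((k : ℂ) + 2) * c (k + 2))) * t ^ k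

lemma norm_nat_add (k j : ℕ) : ‖(k : ℂ) + (j : ℂ)‖ = (k : ℝ) + j := by
  have : (k : ℂ) + (j : ℂ) = (((k : ℝ) + j : ℝ) : ℂ) := by push_cast; rfl
  rw [this, norm_real, Real.norm_of_nonneg (by positivity)]

lemma norm_d1 (k : ℕ) : ‖((k : ℂ) + 1) * c (k + 1)‖ ≤ 7 / 2 * ((k : ℝ) + 1) ^ 1 := by
  have h := norm_nat_add k 1
  push_cast at h
  rw [norm_mul, h, pow_one, mul_comm]
  exact mul_le_mul_of_nonneg_right (norm_c_le _) (by positivity)

lemma norm_d2 (k : ℕ) : ‖((k : ℂ) + 1) * (((k : ℂ) + 2) * c (k + 2))‖ ≤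
    7 / 2 * (((k : ℝ) + 1) * ((k : ℝ) + 2)) := by
  have h := norm_nat_add k 1
  have h' := norm_nat_add k 2
  push_cast at h h'
  rw [norm_mul, norm_mul, h, h']
  have := norm_c_le (k + 2)
  have : ((k : ℝ) + 1) * (((k : ℝ) + 2) * ‖c (k + 2)‖) = ‖c (k + 2)‖ * (((k : ℝ) + 1) * ((k : ℝ) + 2)) := by ring
  rw [this]
  exact mul_le_mul_of_nonneg_right (norm_c_le _) (by positivity)

lemma hasDerivAt_F0 {t : ℂ} (ht : ‖t‖ < 1) : HasDerivAt F0 (F1 t) t :=
  hasDerivAt_series (C := 7 / 2) (m := 0) (fun k => by simpa using norm_c_le k) ht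

lemma hasDerivAt_F1 {t : ℂ} (ht : ‖t‖ < 1) : HasDerivAt F1 (F2 t) t := by
  have h := hasDerivAt_series (C := 7 / 2) (m := 1) norm_d1 ht
  refine h.congr_deriv ?_
  unfold F2
  apply tsum_congr
  intro k
  have e : (((k + 1 : ℕ) : ℂ) + 1) = (k : ℂ) + 2 := by push_cast; ring
  rw [e]

lemma summable_F0 {t : ℂ} (ht : ‖t‖ < 1) : Summable (fun k => c k * t ^ k) := by
  refine Summable.of_norm_bounded ((summable_geometric_of_lt_one (norm_nonneg t) ht).mul_left (7 / 2)) ?_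
  intro k
  rw [norm_mul, norm_pow]
  exact mul_le_mul_of_nonneg_right (norm_c_le k) (by positivity)

lemma summable_F1 {t : ℂ} (ht : ‖t‖ < 1) :
    Summable (fun k : ℕ => (((k : ℂ) + 1) * c (k + 1)) * t ^ k) := by
  have hn : ‖‖t‖‖ < 1 := by simpa using ht
  have h1 := (summable_pow_mul_geometric_of_norm_lt_one 1 hn).add (summable_geometric_of_lt_one (norm_nonneg t) ht)
  refine Summable.of_norm_bounded (h1.mul_left (7 / 2)) ?_
  intro k
  rw [norm_mul, norm_pow]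
  have := mul_le_mul_of_nonneg_right (norm_d1 k) (show 0 ≤ ‖t‖ ^ k by positivity)
  refine this.trans (le_of_eq ?_)
  ring

lemma summable_F2 {t : ℂ} (ht : ‖t‖ < 1) :
    Summable (fun k : ℕ => (((k : ℂ) + 1) * (((k : ℂ) + 2) * c (k + 2))) * t ^ k) := by
  have hn : ‖‖t‖‖ < 1 := by simpa using ht
  have h1 := ((summable_pow_mul_geometric_of_norm_lt_one 2 hn).add
    ((summable_pow_mul_geometric_of_norm_lt_one 1 hn).mul_left 3)).add
    ((summable_geometric_of_lt_one (norm_nonneg t) ht).mul_left 2)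
  refine Summable.of_norm_bounded (h1.mul_left (7 / 2)) ?_
  intro k
  rw [norm_mul, norm_pow]
  have := mul_le_mul_of_nonneg_right (norm_d2 k) (show 0 ≤ ‖t‖ ^ k by positivity)
  refine this.trans (le_of_eq ?_)
  ring

lemma hasSum_congr_fun {f g : ℕ → ℂ} {s : ℂ} (h : HasSum f s) (e : ∀ k, g k = f k) :
    HasSum g s := by
  rwa [funext e]

lemma hasSum_shift {f : ℕ → ℂ} {s : ℂ} (h : HasSum (fun k => f (k + 1)) s) (h0 : f 0 = 0) :
    HasSum f s := by
  have := (hasSum_nat_add_iff (f := f) 1).1 h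
  simpa [h0] using this

/-- the hypergeometric differential equation -/
lemma ode {t : ℂ} (ht : ‖t‖ < 1) :
    t * (1 - t) * F2 t + (1 - (pa + pb + 1) * t) * F1 t - pa * pb * F0 t = 0 := by
  have A0 : HasSum (fun k => c k * t ^ k) (F0 t) := (summable_F0 ht).hasSum
  have A1 : HasSum (fun k : ℕ => (((k : ℂ) + 1) * c (k + 1)) * t ^ k) (F1 t) := (summable_F1 ht).hasSum
  have A2 : HasSum (fun k : ℕ => (((k : ℂ) + 1) * (((k : ℂ) + 2) * c (k + 2))) * t ^ k) (F2 t) :=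
    (summable_F2 ht).hasSum
  -- t F1
  have B1 : HasSum (fun k : ℕ => ((k : ℂ) * c k) * t ^ k) (t * F1 t) := by
    refine hasSum_shift ?_ (by simp)
    refine hasSum_congr_fun (A1.mul_left t) fun k => ?_
    push_cast
    ring
  -- t F2
  have B2 : HasSum (fun k : ℕ => ((k : ℂ) * (((k : ℂ) + 1) * c (k + 1))) * t ^ k) (t * F2 t) := by
    refine hasSum_shift ?_ (by simp)
    refine hasSum_congr_fun (A2.mul_left t) fun k => ?_
    push_cast
    ring
  -- t^2 F2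
  have B3 : HasSum (fun k : ℕ => ((k : ℂ) * (((k : ℂ) - 1) * c k)) * t ^ k) (t * (t * F2 t)) := by
    refine hasSum_shift ?_ (by simp)
    refine hasSum_congr_fun (B2.mul_left t) fun k => ?_
    push_cast
    ring
  have S := (((B2.add A1).sub B3).sub (B1.mul_left (pa + pb + 1))).sub (A0.mul_left (pa * pb))
  have Z : HasSum (fun _ : ℕ => (0 : ℂ)) (t * F2 t + F1 t - t * (t * F2 t) - (pa + pb + 1) * (t * F1 t) -
      pa * pb * F0 t) := by
    refine hasSum_congr_fun S fun k => ?_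
    have := c_succ k
    linear_combination (-(t ^ k)) * this
  have := Z.unique hasSum_zero
  linear_combination this

/-- approximate zero -/
noncomputable def ts : ℂ := ⟨11 / 25, -3 / 50⟩

lemma norm_ts : ‖ts‖ ≤ 4441 / 10000 := norm_le_of_sq (by norm_num) (by norm_num [ts])

lemma norm_F2_le {t : ℂ} (ht : ‖t‖ < 1) : ‖F2 t‖ ≤ 7 / (1 - ‖t‖) ^ 3 := by
  have hn : ‖‖t‖‖ < 1 := by simpa using ht
  have h := (hasSum_choose_mul_geometric_of_norm_lt_one (𝕜 := ℝ) 2 hn).mul_left 7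
  have h1 : ‖F2 t‖ ≤ 7 * (1 / (1 - ‖t‖) ^ (2 + 1)) := by
    refine tsum_of_norm_bounded h fun k => ?_
    rw [norm_mul, norm_pow]
    have := mul_le_mul_of_nonneg_right (norm_d2 k) (show 0 ≤ ‖t‖ ^ k by positivity)
    refine this.trans (le_of_eq ?_)
    have e : (((k + 2).choose 2 : ℕ) : ℝ) = ((k : ℝ) + 1) * ((k : ℝ) + 2) / 2 := by
      rw [Nat.cast_choose_two]
      push_cast
      ring
    rw [e]
    ring
  refine h1.trans (le_of_eq ?_)
  ring

/-- explicit powers of `ts` and initial sums are evaluated through real and imaginary parts -/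
lemma psum_F0 : ‖∑ k ∈ Finset.range 10, c k * ts ^ k‖ ≤ 2 / 1000 := by
  apply norm_le_of_sq (by norm_num)
  simp only [Finset.sum_range_succ, Finset.sum_range_zero, c0, c1, c2, c3, c4, c5, c6, c7, c8, c9, ts,
    pow_succ, pow_zero, mul_re, mul_im, add_re, add_im, zero_re, zero_im, one_re, one_im]
  norm_num

lemma psum_F1 : 208 / 100 ≤ ‖∑ k ∈ Finset.range 9, (((k : ℂ) + 1) * c (k + 1)) * ts ^ k‖ := by
  apply le_norm_of_sq
  simp only [Finset.sum_range_succ, Finset.sum_range_zero, zero_add, Nat.reduceAdd, c0, c1, c2, c3, c4, c5, c6, c7, c8, c9, ts,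
    pow_succ, pow_zero, mul_re, mul_im, add_re, add_im, zero_re, zero_im, one_re, one_im,
    natCast_re, natCast_im]
  norm_num

lemma norm_ts_lt : ‖ts‖ < 1 := lt_of_le_of_lt norm_ts (by norm_num)

lemma F0_ts : ‖F0 ts‖ ≤ 5 / 1000 := by
  have hT := norm_ts
  have hT0 := norm_nonneg ts
  have hs := summable_F0 norm_ts_lt
  have h1 : F0 ts = ∑ k ∈ Finset.range 10, c k * ts ^ k + ∑' k, c (k + 10) * ts ^ (k + 10) :=
    (hs.sum_add_tsum_nat_add 10).symm
  have hg := (hasSum_geometric_of_lt_one hT0 norm_ts_lt).mul_left (7 / 2 * ‖ts‖ ^ 10)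
  have h2 : ‖∑' k, c (k + 10) * ts ^ (k + 10)‖ ≤ 7 / 2 * ‖ts‖ ^ 10 * (1 - ‖ts‖)⁻¹ := by
    refine tsum_of_norm_bounded hg fun k => ?_
    rw [norm_mul, norm_pow, pow_add]
    have := mul_le_mul_of_nonneg_right (norm_c_le (k + 10)) (show 0 ≤ ‖ts‖ ^ k * ‖ts‖ ^ 10 by positivity)
    refine this.trans (le_of_eq (by ring))
  have h3 : ‖ts‖ ^ 10 ≤ (4441 / 10000) ^ 10 := by gcongr
  have h4 : (1 - ‖ts‖)⁻¹ ≤ (1 - 4441 / 10000)⁻¹ := by
    apply inv_anti₀ (by norm_num)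
    linarith
  have h5 : 7 / 2 * ‖ts‖ ^ 10 * (1 - ‖ts‖)⁻¹ ≤ 7 / 2 * (4441 / 10000) ^ 10 * (1 - 4441 / 10000)⁻¹ := by
    have : 0 ≤ (1 - ‖ts‖)⁻¹ := inv_nonneg.2 (by linarith [norm_ts_lt])
    gcongr
  rw [h1]
  calc _ ≤ _ := norm_add_le _ _
    _ ≤ 2 / 1000 + 7 / 2 * (4441 / 10000) ^ 10 * (1 - 4441 / 10000)⁻¹ :=
        add_le_add psum_F0 (h2.trans h5)
    _ ≤ 5 / 1000 := by norm_num

lemma F1_ts : 2 ≤ ‖F1 ts‖ := by
  have hT := norm_ts
  have hT0 := norm_nonneg ts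
  have hs := summable_F1 norm_ts_lt
  have h1 : F1 ts = ∑ k ∈ Finset.range 9, (((k : ℂ) + 1) * c (k + 1)) * ts ^ k +
      ∑' k : ℕ, ((((k + 9 : ℕ) : ℂ) + 1) * c (k + 9 + 1)) * ts ^ (k + 9) :=
    (hs.sum_add_tsum_nat_add 9).symm
  have hq : 11 / 10 * ‖ts‖ < 1 := by linarith
  have hg := (hasSum_geometric_of_lt_one (by positivity) hq).mul_left (35 * ‖ts‖ ^ 9)
  have h2 : ‖∑' k : ℕ, ((((k + 9 : ℕ) : ℂ) + 1) * c (k + 9 + 1)) * ts ^ (k + 9)‖ ≤
      35 * ‖ts‖ ^ 9 * (1 - 11 / 10 * ‖ts‖)⁻¹ := by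
    refine tsum_of_norm_bounded hg fun k => ?_
    have hb : 1 + (k : ℝ) * (1 / 10) ≤ (1 + 1 / 10) ^ k := one_add_mul_le_pow (by norm_num) k
    rw [norm_mul, norm_pow]
    have h6 := mul_le_mul_of_nonneg_right (norm_d1 (k + 9)) (show 0 ≤ ‖ts‖ ^ (k + 9) by positivity)
    refine h6.trans ?_
    have h7 : (((k + 9 : ℕ) : ℝ) + 1) ^ 1 ≤ 10 * (11 / 10) ^ k := by
      push_cast
      rw [pow_one]
      have : (1 + 1 / 10 : ℝ) = 11 / 10 := by norm_num
      rw [this] at hb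
      linarith
    calc 7 / 2 * (((k + 9 : ℕ) : ℝ) + 1) ^ 1 * ‖ts‖ ^ (k + 9)
        ≤ 7 / 2 * (10 * (11 / 10) ^ k) * ‖ts‖ ^ (k + 9) := by gcongr
      _ = 35 * ‖ts‖ ^ 9 * (11 / 10 * ‖ts‖) ^ k := by rw [mul_pow, pow_add]; ring
  have h3 : ‖ts‖ ^ 9 ≤ (4441 / 10000) ^ 9 := by gcongr
  have h4 : (1 - 11 / 10 * ‖ts‖)⁻¹ ≤ (1 - 11 / 10 * (4441 / 10000))⁻¹ := by
    apply inv_anti₀ (by norm_num)
    linarith
  have h5 : 35 * ‖ts‖ ^ 9 * (1 - 11 / 10 * ‖ts‖)⁻¹ ≤
      35 * (4441 / 10000) ^ 9 * (1 - 11 / 10 * (4441 / 10000))⁻¹ := by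
    have : 0 ≤ (1 - 11 / 10 * ‖ts‖)⁻¹ := inv_nonneg.2 (by linarith)
    gcongr
  have h8 : 35 * (4441 / 10000 : ℝ) ^ 9 * (1 - 11 / 10 * (4441 / 10000))⁻¹ ≤ 8 / 100 := by norm_num
  have h9 := norm_sub_norm_le (∑ k ∈ Finset.range 9, (((k : ℂ) + 1) * c (k + 1)) * ts ^ k)
    (-∑' k : ℕ, ((((k + 9 : ℕ) : ℂ) + 1) * c (k + 9 + 1)) * ts ^ (k + 9))
  rw [norm_neg, sub_neg_eq_add, ← h1] at h9
  have h10 := psum_F1
  linarith

lemma norm_F2_near {t : ℂ} (ht : t ∈ closedBall ts (1 / 50)) : ‖t‖ ≤ 4641 / 10000 ∧ ‖F2 t‖ ≤ 46 := by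
  have h1 : ‖t‖ ≤ 4641 / 10000 := by
    have := norm_sub_norm_le t ts
    rw [mem_closedBall, dist_eq_norm] at ht
    linarith [norm_ts]
  refine ⟨h1, (norm_F2_le (by linarith)).trans ?_⟩
  have h2 : (1 - 4641 / 10000 : ℝ) ^ 3 ≤ (1 - ‖t‖) ^ 3 := by
    apply pow_le_pow_left₀ (by norm_num)
    linarith
  have h3 : (0 : ℝ) < (1 - 4641 / 10000 : ℝ) ^ 3 := by norm_num
  rw [div_le_iff₀ (lt_of_lt_of_le h3 h2)]
  nlinarith

lemma F1_near {t : ℂ} (ht : t ∈ closedBall ts (1 / 50)) : ‖F1 t - F1 ts‖ ≤ 46 * (1 / 50) := by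
  have hc : Convex ℝ (closedBall ts (1 / 50)) := convex_closedBall _ _
  have h := hc.norm_image_sub_le_of_norm_hasDerivWithin_le (f := F1) (f' := F2) (C := 46) (𝕜 := ℂ)
    (fun x hx => (hasDerivAt_F1 (lt_of_le_of_lt (norm_F2_near hx).1 (by norm_num))).hasDerivWithinAt)
    (fun x hx => (norm_F2_near hx).2) (mem_closedBall_self (by norm_num)) ht
  refine h.trans ?_
  rw [mem_closedBall, dist_eq_norm] at ht
  linarith

lemma F0_near {t : ℂ} (ht : t ∈ closedBall ts (1 / 50)) :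
    ‖F0 t - F0 ts - F1 ts * (t - ts)‖ ≤ 46 * (1 / 50) * (1 / 50) := by
  have hc : Convex ℝ (closedBall ts (1 / 50)) := convex_closedBall _ _
  have h := hc.norm_image_sub_le_of_norm_hasDerivWithin_le (f := fun z => F0 z - F1 ts * z)
    (f' := fun z => F1 z - F1 ts) (C := 46 * (1 / 50)) (𝕜 := ℂ)
    (fun x hx => ?_) (fun x hx => F1_near hx) (mem_closedBall_self (by norm_num)) ht
  · have e : F0 t - F0 ts - F1 ts * (t - ts) = F0 t - F1 ts * t - (F0 ts - F1 ts * ts) := by ring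
    rw [e]
    refine h.trans ?_
    rw [mem_closedBall, dist_eq_norm] at ht
    apply mul_le_mul_of_nonneg_left ht (by norm_num)
  · have h1 := (hasDerivAt_F0 (lt_of_le_of_lt (norm_F2_near hx).1 (by norm_num) : ‖x‖ < 1))
    have h2 := (h1.sub ((hasDerivAt_id' x).const_mul (F1 ts)))
    simp only [mul_one] at h2
    exact h2.hasDerivWithinAt

/-- existence of a nonreal zero of the hypergeometric function -/
theorem exists_zero : ∃ t0 : ℂ, F0 t0 = 0 ∧ ‖t0‖ ≤ 4641 / 10000 ∧ 42 / 100 ≤ t0.re ∧ t0.re ≤ 46 / 100 ∧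
    t0.im ≤ -4 / 100 ∧ -8 / 100 ≤ t0.im := by
  have hd : DifferentiableOn ℂ F0 (ball 0 1) := fun z hz =>
    (hasDerivAt_F0 (by simpa using hz)).differentiableAt.differentiableWithinAt
  have hsub : closedBall ts (1 / 50) ⊆ ball 0 1 := by
    intro t ht
    rw [mem_ball_zero_iff]
    exact lt_of_le_of_lt (norm_F2_near ht).1 (by norm_num)
  have hdc : DiffContOnCl ℂ F0 (ball ts (1 / 50)) := by
    apply DifferentiableOn.diffContOnCl
    rw [closure_ball _ (by norm_num)]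
    exact hd.mono hsub
  have hlow : ∀ z ∈ sphere ts (1 / 50), 2 / 100 ≤ ‖F0 z - F0 ts‖ := by
    intro z hz
    have hz' : ‖z - ts‖ = 1 / 50 := by rw [← dist_eq_norm]; exact hz
    have h1 := F0_near (sphere_subset_closedBall hz)
    have h2 := norm_sub_norm_le (F1 ts * (z - ts)) (F0 z - F0 ts)
    have h3 : ‖F1 ts * (z - ts) - (F0 z - F0 ts)‖ = ‖F0 z - F0 ts - F1 ts * (z - ts)‖ :=
      norm_sub_rev _ _
    rw [h3, norm_mul, hz'] at h2
    have h4 := F1_ts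
    linarith
  have hfreq : ∃ᶠ z in 𝓝 ts, F0 z ≠ F0 ts := by
    have h := (hasDerivAt_F0 norm_ts_lt).eventually_ne (c := F0 ts) (by
      intro h0
      have := F1_ts
      rw [h0, norm_zero] at this
      linarith)
    have h' : ∃ᶠ z in 𝓝[≠] ts, F0 z ≠ F0 ts := h.frequently
    exact h'.filter_mono nhdsWithin_le_nhds
  have hball := hdc.ball_subset_image_closedBall (by norm_num) hlow hfreq
  have h0 : (0 : ℂ) ∈ ball (F0 ts) (2 / 100 / 2) := by
    rw [mem_ball, dist_eq_norm, zero_sub, norm_neg]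
    have := F0_ts
    linarith
  obtain ⟨t0, ht0, hF⟩ := hball h0
  have hre : |(t0 - ts).re| ≤ 1 / 50 := (abs_re_le_norm _).trans (by simpa [dist_eq_norm] using ht0)
  have him : |(t0 - ts).im| ≤ 1 / 50 := (abs_im_le_norm _).trans (by simpa [dist_eq_norm] using ht0)
  rw [abs_le] at hre him
  simp only [sub_re, sub_im, ts] at hre him
  refine ⟨t0, hF, (norm_F2_near ht0).1, ?_, ?_, ?_, ?_⟩ <;> linarith [hre.1, hre.2, him.1, him.2]

end Pool.Agent.Helper728.Hyper
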