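import Mathlib
import Pool.Agent.Helper728.ConeH
import Pool.Agent.Helper728.Hyper

/-!
The singular solution `W` in the cone and its derivatives.
-/

open MeasureTheory Set Metric Filter Topology
open scoped ContDiff InnerProductSpace

namespace Pool.Agent.Helper728.Cone

open Hyper

/-- `f` is differentiable at `x` with gradient `g` -/
structure HP (f : E → ℂ) (g : Fin 3 → ℂ) (x : E) : Prop where
  diff : DifferentiableAt ℝ f x
  pd : ∀ i, pd i f x = g i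

lemma HP.congr {f : E → ℂ} {g g' : Fin 3 → ℂ} {x : E} (h : HP f g x) (e : ∀ i, g i = g' i) : HP f g' x :=
  ⟨h.diff, fun i => (h.pd i).trans (e i)⟩

lemma HP.const (c : ℂ) (x : E) : HP (fun _ => c) (fun _ => 0) x :=
  ⟨by fun_prop, fun i => by simp [Cone.pd]⟩

lemma HP.add {f f' : E → ℂ} {g g' : Fin 3 → ℂ} {x : E} (h : HP f g x) (h' : HP f' g' x) :
    HP (fun y => f y + f' y) (fun i => g i + g' i) x :=
  ⟨h.diff.add h'.diff, fun i => by rw [pd_add i h.diff h'.diff, h.pd, h'.pd]⟩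

lemma HP.sub {f f' : E → ℂ} {g g' : Fin 3 → ℂ} {x : E} (h : HP f g x) (h' : HP f' g' x) :
    HP (fun y => f y - f' y) (fun i => g i - g' i) x :=
  ⟨h.diff.sub h'.diff, fun i => by rw [pd_sub i h.diff h'.diff, h.pd, h'.pd]⟩

lemma HP.mul {f f' : E → ℂ} {g g' : Fin 3 → ℂ} {x : E} (h : HP f g x) (h' : HP f' g' x) :
    HP (fun y => f y * f' y) (fun i => g i * f' x + f x * g' i) x :=
  ⟨h.diff.mul h'.diff, fun i => by rw [pd_mul i h.diff h'.diff, h.pd, h'.pd]⟩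

lemma HP.comp {f : E → ℂ} {g : Fin 3 → ℂ} {x : E} (h : HP f g x) {Φ : ℂ → ℂ} {Φ' : ℂ}
    (hΦ : HasDerivAt Φ Φ' (f x)) : HP (fun y => Φ (f y)) (fun i => Φ' * g i) x := by
  have h1 : HasFDerivAt Φ ((ContinuousLinearMap.toSpanSingleton ℂ Φ').restrictScalars ℝ) (f x) :=
    hΦ.hasFDerivAt.restrictScalars ℝ
  have h2 := h1.comp x h.diff.hasFDerivAt
  refine ⟨h2.differentiableAt, fun i => ?_⟩
  have h3 := h2.fderiv
  have h4 : Cone.pd i (fun y => Φ (f y)) x = fderiv ℝ (Φ ∘ f) x (EuclideanSpace.single i 1) := rfl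
  rw [h4, h3, ← h.pd i]
  simp [Cone.pd, mul_comm]

lemma HP.real_coord {θ : ℝ → ℝ} {θ' : ℝ} {x : E} {j : Fin 3} (h : HasDerivAt θ θ' (x j)) :
    HP (fun y => (θ (y j) : ℂ)) (fun i => if j = i then (θ' : ℂ) else 0) x := by
  have h1 : HasFDerivAt (fun y : E => y j) (EuclideanSpace.proj j : E →L[ℝ] ℝ) x :=
    (EuclideanSpace.proj j : E →L[ℝ] ℝ).hasFDerivAt
  have h3 := h.comp_hasFDerivAt x h1
  have h4 : HasFDerivAt (fun y => (θ (y j) : ℂ)) (Complex.ofRealCLM.comp (θ' • (EuclideanSpace.proj j : E →L[ℝ] ℝ))) x :=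
    Complex.ofRealCLM.hasFDerivAt.comp x h3
  refine ⟨h4.differentiableAt, fun i => ?_⟩
  rw [Cone.pd, h4.fderiv]
  by_cases hij : j = i
  · subst hij; simp
  · simp [hij]

/-- coordinates, complex valued -/
noncomputable def cx (j : Fin 3) (x : E) : ℂ := (x j : ℂ)

lemma HP.coord (j : Fin 3) (x : E) : HP (cx j) (fun i => if j = i then 1 else 0) x := by
  have := HP.real_coord (θ := fun t => t) (j := j) (hasDerivAt_id' (x j))
  refine HP.congr this fun i => ?_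
  by_cases h : j = i <;> simp [h]

/-- a zero of the hypergeometric function -/
noncomputable def t0 : ℂ := exists_zero.choose

lemma F0_t0 : F0 t0 = 0 := exists_zero.choose_spec.1
lemma norm_t0 : ‖t0‖ ≤ 4641 / 10000 := exists_zero.choose_spec.2.1
lemma t0_re_ge : 42 / 100 ≤ t0.re := exists_zero.choose_spec.2.2.1
lemma t0_re_le : t0.re ≤ 46 / 100 := exists_zero.choose_spec.2.2.2.1
lemma t0_im_le : t0.im ≤ -4 / 100 := exists_zero.choose_spec.2.2.2.2.1

/-- the exponent -/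
noncomputable def mu : ℂ := ⟨-4 / 5, 3⟩

/-- `z ^ μ` -/
noncomputable def zm (x : E) : ℂ := cx 2 x ^ mu

/-- `1 / z` -/
noncomputable def zi (x : E) : ℂ := (cx 2 x)⁻¹

/-- the argument of the hypergeometric function -/
noncomputable def tau (x : E) : ℂ := t0 * (cx 0 x * cx 0 x + cx 1 x * cx 1 x) * (zi x * zi x)

/-- the singular function -/
noncomputable def W (x : E) : ℂ := zm x * F0 (tau x)

lemma cx2_ne {x : E} (hx : x ∈ Om) : cx 2 x ≠ 0 := by
  have := hx.2.1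
  simp only [cx]
  exact Complex.ofReal_ne_zero.2 this.ne'

lemma hp_zm {x : E} (hx : x ∈ Om) : HP zm (fun i => if i = 2 then mu * zm x * zi x else 0) x := by
  have h1 : HasDerivAt (fun w : ℂ => w ^ mu) (mu * cx 2 x ^ (mu - 1) * 1) (cx 2 x) := by
    apply (hasDerivAt_id (cx 2 x)).cpow_const
    left
    simpa [cx] using hx.2.1
  refine ((HP.coord 2 x).comp h1).congr fun i => ?_
  rw [Complex.cpow_sub _ _ (cx2_ne hx), Complex.cpow_one]
  fin_cases i
  · simp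
  · simp
  · simp [zm, zi, div_eq_mul_inv]
    ring

lemma hp_zi {x : E} (hx : x ∈ Om) : HP zi (fun i => if i = 2 then -(zi x * zi x) else 0) x := by
  have h1 := hasDerivAt_inv (cx2_ne hx)
  refine ((HP.coord 2 x).comp h1).congr fun i => ?_
  fin_cases i
  · simp
  · simp
  · simp [zi, pow_two]

lemma hp_tau {x : E} (hx : x ∈ Om) : HP tau
    (fun i => if i = 2 then -2 * tau x * zi x else 2 * t0 * cx i x * (zi x * zi x)) x := by
  have h0 := HP.coord 0 x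
  have h1 := HP.coord 1 x
  have h3 := hp_zi hx
  have := (((HP.const t0 x).mul ((h0.mul h0).add (h1.mul h1))).mul (h3.mul h3))
  refine HP.congr this fun i => ?_
  fin_cases i
  · simp [-mul_eq_mul_right_iff, -mul_eq_mul_left_iff]; ring
  · simp [-mul_eq_mul_right_iff, -mul_eq_mul_left_iff]; ring
  · simp [tau, -mul_eq_mul_right_iff, -mul_eq_mul_left_iff]; ring

lemma norm_tau_lt {x : E} (hx : x ∈ Om) : ‖tau x‖ ≤ ‖t0‖ * ((x 0 ^ 2 + x 1 ^ 2) / x 2 ^ 2) := by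
  have h2 := hx.2.1
  have e : tau x = t0 * (((x 0 ^ 2 + x 1 ^ 2) / x 2 ^ 2 : ℝ) : ℂ) := by
    simp only [tau, cx, zi]
    push_cast
    have : (x 2 : ℂ) ≠ 0 := by exact_mod_cast h2.ne'
    field_simp
  rw [e, norm_mul, Complex.norm_real, Real.norm_of_nonneg (by positivity)]

lemma norm_tau_le_half {x : E} (hx : x ∈ Om) : ‖tau x‖ ≤ 1 / 2 := by
  have h := norm_tau_lt hx
  have h1 : (x 0 ^ 2 + x 1 ^ 2) / x 2 ^ 2 ≤ 1 := by
    rw [div_le_one (by have := hx.2.1; positivity)]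
    exact hx.1.le
  have h2 := norm_t0
  have h3 : 0 ≤ (x 0 ^ 2 + x 1 ^ 2) / x 2 ^ 2 := by positivity
  nlinarith [norm_nonneg t0]

lemma norm_tau_lt_one {x : E} (hx : x ∈ Om) : ‖tau x‖ < 1 := lt_of_le_of_lt (norm_tau_le_half hx) (by norm_num)

lemma hp_F0 {x : E} (hx : x ∈ Om) : HP (fun y => F0 (tau y)) (fun i => F1 (tau x) *
    (if i = 2 then -2 * tau x * zi x else 2 * t0 * cx i x * (zi x * zi x))) x :=
  (hp_tau hx).comp (hasDerivAt_F0 (norm_tau_lt_one hx))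

lemma hp_F1 {x : E} (hx : x ∈ Om) : HP (fun y => F1 (tau y)) (fun i => F2 (tau x) *
    (if i = 2 then -2 * tau x * zi x else 2 * t0 * cx i x * (zi x * zi x))) x :=
  (hp_tau hx).comp (hasDerivAt_F1 (norm_tau_lt_one hx))

/-- first derivatives of `W` -/
noncomputable def W0 (x : E) : ℂ := zm x * F1 (tau x) * (2 * t0 * cx 0 x * (zi x * zi x))
/-- first derivatives of `W` -/
noncomputable def W1 (x : E) : ℂ := zm x * F1 (tau x) * (2 * t0 * cx 1 x * (zi x * zi x))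
/-- first derivatives of `W` -/
noncomputable def W2 (x : E) : ℂ := zm x * zi x * (mu * F0 (tau x) - 2 * tau x * F1 (tau x))

lemma hp_W {x : E} (hx : x ∈ Om) : HP W (fun i => if i = 0 then W0 x else if i = 1 then W1 x else W2 x) x := by
  refine ((hp_zm hx).mul (hp_F0 hx)).congr fun i => ?_
  fin_cases i
  · simp [W0]; ring
  · simp [W1]; ring
  · simp [W2]; ring

/-- second derivatives -/
noncomputable def W00 (x : E) : ℂ := zm x * (F2 (tau x) * (2 * t0 * cx 0 x * (zi x * zi x)) ^ 2 +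
  F1 (tau x) * (2 * t0 * (zi x * zi x)))
/-- second derivatives -/
noncomputable def W11 (x : E) : ℂ := zm x * (F2 (tau x) * (2 * t0 * cx 1 x * (zi x * zi x)) ^ 2 +
  F1 (tau x) * (2 * t0 * (zi x * zi x)))
/-- second derivatives -/
noncomputable def W22 (x : E) : ℂ := zm x * (zi x * zi x) * (mu * (mu - 1) * F0 (tau x)
  - (4 * mu - 6) * tau x * F1 (tau x) + 4 * tau x ^ 2 * F2 (tau x))

lemma hp_W0 {x : E} (hx : x ∈ Om) : ∃ g, HP W0 g x ∧ g 0 = W00 x := by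
  have h3 := hp_zi hx
  have := ((hp_zm hx).mul (hp_F1 hx)).mul ((((HP.const 2 x).mul (HP.const t0 x)).mul (HP.coord 0 x)).mul (h3.mul h3))
  refine ⟨_, this, ?_⟩
  simp [W00]; ring

lemma hp_W1 {x : E} (hx : x ∈ Om) : ∃ g, HP W1 g x ∧ g 1 = W11 x := by
  have h3 := hp_zi hx
  have := ((hp_zm hx).mul (hp_F1 hx)).mul ((((HP.const 2 x).mul (HP.const t0 x)).mul (HP.coord 1 x)).mul (h3.mul h3))
  refine ⟨_, this, ?_⟩
  simp [W11]; ring

lemma hp_W2 {x : E} (hx : x ∈ Om) : ∃ g, HP W2 g x ∧ g 2 = W22 x := by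
  have h3 := hp_zi hx
  have := ((hp_zm hx).mul h3).mul (((HP.const mu x).mul (hp_F0 hx)).sub
    (((HP.const 2 x).mul (hp_tau hx)).mul (hp_F1 hx)))
  refine ⟨_, this, ?_⟩
  simp [W22]; ring

/-- `W` solves the equation -/
lemma pde_W {x : E} (hx : x ∈ Om) : (W00 x + W11 x) - t0 * W22 x = 0 := by
  have h := ode (norm_tau_lt_one hx)
  have e1 : pa + pb + 1 = 3 / 2 - mu := by
    apply Complex.ext
    · norm_num [pa, pb, mu]
    · norm_num [pa, pb, mu]
  have e2 : pa * pb = mu * (mu - 1) / 4 := by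
    apply Complex.ext
    · norm_num [pa, pb, mu]
    · norm_num [pa, pb, mu]
  rw [e1, e2] at h
  have e3 : t0 * (cx 0 x ^ 2 + cx 1 x ^ 2) * (zi x * zi x) = tau x := by
    simp only [tau]; ring
  have e4 : W00 x + W11 x = 4 * t0 * zm x * (zi x * zi x) * (tau x * F2 (tau x) + F1 (tau x)) := by
    rw [W00, W11]
    linear_combination (4 * t0 * zm x * (zi x * zi x) * F2 (tau x)) * e3
  rw [e4, W22]
  linear_combination (4 * t0 * zm x * (zi x * zi x)) * h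

lemma contDiffAt_of_holo {Φ : ℂ → ℂ} {s : Set ℂ} (hs : IsOpen s) (h : DifferentiableOn ℂ Φ s) {z : ℂ} (hz : z ∈ s) :
    ContDiffAt ℝ ∞ Φ z :=
  ((h.contDiffOn hs).contDiffAt (hs.mem_nhds hz)).restrict_scalars ℝ

lemma contDiff_cx (j : Fin 3) : ContDiff ℝ ∞ (cx j) :=
  Complex.ofRealCLM.contDiff.comp (EuclideanSpace.proj j : E →L[ℝ] ℝ).contDiff

lemma contDiffAt_zm {x : E} (hx : x ∈ Om) : ContDiffAt ℝ ∞ zm x := by
  have h1 : DifferentiableOn ℂ (fun w : ℂ => w ^ mu) Complex.slitPlane := by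
    intro w hw
    exact ((differentiableAt_id (x := w)).cpow_const hw).differentiableWithinAt
  have h2 : cx 2 x ∈ Complex.slitPlane := by
    left; simpa [cx] using hx.2.1
  exact (contDiffAt_of_holo Complex.isOpen_slitPlane h1 h2).comp x (contDiff_cx 2).contDiffAt

lemma contDiffAt_zi {x : E} (hx : x ∈ Om) : ContDiffAt ℝ ∞ zi x :=
  (contDiff_cx 2).contDiffAt.inv (cx2_ne hx)

lemma contDiffAt_tau {x : E} (hx : x ∈ Om) : ContDiffAt ℝ ∞ tau x := by
  have h0 := (contDiff_cx 0).contDiffAt (x := x)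
  have h1 := (contDiff_cx 1).contDiffAt (x := x)
  have h3 := contDiffAt_zi hx
  exact (contDiffAt_const.mul ((h0.mul h0).add (h1.mul h1))).mul (h3.mul h3)

lemma differentiableOn_F0 : DifferentiableOn ℂ F0 (ball 0 1) := fun z hz =>
  (hasDerivAt_F0 (by simpa using hz)).differentiableAt.differentiableWithinAt

lemma differentiableOn_F1 : DifferentiableOn ℂ F1 (ball 0 1) := fun z hz =>
  (hasDerivAt_F1 (by simpa using hz)).differentiableAt.differentiableWithinAt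

lemma contDiffAt_W {x : E} (hx : x ∈ Om) : ContDiffAt ℝ ∞ W x := by
  have h1 : ContDiffAt ℝ ∞ F0 (tau x) :=
    contDiffAt_of_holo isOpen_ball differentiableOn_F0 (by simpa using norm_tau_lt_one hx)
  exact (contDiffAt_zm hx).mul (h1.comp x (contDiffAt_tau hx))

/-- bounds for the hypergeometric function -/
lemma bdF : ∃ C : ℝ, 1 ≤ C ∧ ∀ t : ℂ, ‖t‖ ≤ 1 / 2 → ‖F0 t‖ ≤ C ∧ ‖F1 t‖ ≤ C ∧ ‖F0 t‖ ≤ C * ‖t - t0‖ := by
  have hsub : closedBall (0 : ℂ) (1 / 2) ⊆ ball 0 1 := closedBall_subset_ball (by norm_num)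
  obtain ⟨C0, hC0⟩ := (isCompact_closedBall (0 : ℂ) (1 / 2)).exists_bound_of_continuousOn
    (differentiableOn_F0.continuousOn.mono hsub)
  obtain ⟨C1, hC1⟩ := (isCompact_closedBall (0 : ℂ) (1 / 2)).exists_bound_of_continuousOn
    (differentiableOn_F1.continuousOn.mono hsub)
  refine ⟨max 1 (max C0 C1), le_max_left _ _, fun t ht => ⟨?_, ?_, ?_⟩⟩
  · exact (hC0 t (by simpa using ht)).trans ((le_max_left _ _).trans (le_max_right _ _))
  · exact (hC1 t (by simpa using ht)).trans ((le_max_right _ _).trans (le_max_right _ _))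
  · have h1 : ‖t0‖ ≤ 1 / 2 := norm_t0.trans (by norm_num)
    have h2 := Convex.norm_image_sub_le_of_norm_hasDerivWithin_le (f := F0) (f' := F1)
      (s := closedBall (0 : ℂ) (1 / 2)) (C := max 1 (max C0 C1)) (x := t0) (y := t)
      (fun z hz => (hasDerivAt_F0 (by simpa using hsub hz)).hasDerivWithinAt)
      (fun z hz => (hC1 z hz).trans ((le_max_right _ _).trans (le_max_right _ _)))
      (convex_closedBall _ _) (by simpa using h1) (by simpa using ht)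
    rwa [F0_t0, sub_zero] at h2

lemma norm_zm {x : E} (hx : x ∈ Om) : ‖zm x‖ = x 2 ^ (-(4 / 5) : ℝ) := by
  rw [zm, cx, Complex.norm_cpow_eq_rpow_re_of_pos hx.2.1]
  simp [mu]
  norm_num

lemma norm_zi {x : E} (hx : x ∈ Om) : ‖zi x‖ = (x 2)⁻¹ := by
  rw [zi, cx, norm_inv, Complex.norm_real, Real.norm_of_nonneg hx.2.1.le]

lemma norm_mu : ‖mu‖ ≤ 4 := norm_le_of_sq (by norm_num) (by norm_num [mu])

/-- the distance function to the lateral boundary -/
noncomputable def q (x : E) : ℝ := x 2 ^ 2 - x 0 ^ 2 - x 1 ^ 2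

lemma bdW : ∃ C : ℝ, 1 ≤ C ∧ ∀ x ∈ Om, ‖W x‖ ≤ C * x 2 ^ (-(4 / 5) : ℝ) ∧
    ‖W x‖ ≤ C * x 2 ^ (-(4 / 5) : ℝ) * ((x 2)⁻¹ ^ 2 * q x) ∧
    ‖W0 x‖ ≤ C * x 2 ^ (-(4 / 5) : ℝ) * (x 2)⁻¹ ∧ ‖W1 x‖ ≤ C * x 2 ^ (-(4 / 5) : ℝ) * (x 2)⁻¹ ∧
    ‖W2 x‖ ≤ C * x 2 ^ (-(4 / 5) : ℝ) * (x 2)⁻¹ := by
  obtain ⟨C, hC1, hC⟩ := bdF
  have hC0 : 0 ≤ C := by linarith
  refine ⟨5 * C, by linarith, fun x hx => ?_⟩
  obtain ⟨h0, h1, h2⟩ := hC (tau x) (norm_tau_le_half hx)
  have hz := hx.2.1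
  have hP : 0 ≤ x 2 ^ (-(4 / 5) : ℝ) := by positivity
  have nt0 : ‖t0‖ ≤ 1 / 2 := norm_t0.trans (by norm_num)
  have nth := norm_tau_le_half hx
  set P := x 2 ^ (-(4 / 5) : ℝ) with hPdef
  have hsum : ∀ j : Fin 3, j ≠ 2 → |x j| ≤ x 2 := by
    intro j hj
    apply abs_le_of_sq_le_sq _ hz.le
    have := hx.1
    fin_cases j
    · simp only [Fin.zero_eta]; nlinarith [sq_nonneg (x 1)]
    · simp only [Fin.mk_one]; nlinarith [sq_nonneg (x 0)]
    · exact absurd rfl hj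
  have hfirst : ∀ j : Fin 3, j ≠ 2 → ‖zm x * F1 (tau x) * (2 * t0 * cx j x * (zi x * zi x))‖ ≤ 5 * C * P * (x 2)⁻¹ := by
    intro j hj
    have h3 := hsum j hj
    simp only [norm_mul]
    rw [norm_zm hx, norm_zi hx, ← hPdef]
    have h4 : ‖cx j x‖ ≤ x 2 := by
      rw [cx, Complex.norm_real, Real.norm_eq_abs]; exact h3
    have h5 : ‖(2 : ℂ)‖ = 2 := by simp
    rw [h5]
    calc P * ‖F1 (tau x)‖ * (2 * ‖t0‖ * ‖cx j x‖ * ((x 2)⁻¹ * (x 2)⁻¹))
        ≤ P * C * (2 * (1 / 2) * x 2 * ((x 2)⁻¹ * (x 2)⁻¹)) := by gcongr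
      _ = C * P * (x 2)⁻¹ := by field_simp
      _ ≤ 5 * C * P * (x 2)⁻¹ := by
        have : 0 ≤ C * P * (x 2)⁻¹ := by positivity
        linarith
  refine ⟨?_, ?_, hfirst 0 (by decide), hfirst 1 (by decide), ?_⟩
  · rw [W, norm_mul, norm_zm hx, ← hPdef]
    calc P * ‖F0 (tau x)‖ ≤ P * C := by gcongr
      _ ≤ 5 * C * P := by nlinarith [mul_nonneg hP hC0]
  · rw [W, norm_mul, norm_zm hx, ← hPdef]
    have e : tau x - t0 = -(t0 * (((x 2)⁻¹ ^ 2 * q x : ℝ) : ℂ)) := by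
      simp only [tau, cx, zi, q]
      push_cast
      have : (x 2 : ℂ) ≠ 0 := Complex.ofReal_ne_zero.2 hz.ne'
      field_simp
      ring
    have hq : 0 ≤ q x := by have := hx.1; simp only [q]; linarith
    rw [e, norm_neg, norm_mul, Complex.norm_real, Real.norm_of_nonneg (by positivity)] at h2
    calc P * ‖F0 (tau x)‖ ≤ P * (C * (‖t0‖ * ((x 2)⁻¹ ^ 2 * q x))) := by gcongr
      _ ≤ P * (C * (1 / 2 * ((x 2)⁻¹ ^ 2 * q x))) := by gcongr
      _ ≤ 5 * C * P * ((x 2)⁻¹ ^ 2 * q x) := by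
        have : 0 ≤ C * P * ((x 2)⁻¹ ^ 2 * q x) := by positivity
        linarith
  · rw [W2, norm_mul, norm_mul, norm_zm hx, norm_zi hx, ← hPdef]
    have h6 : ‖mu * F0 (tau x) - 2 * tau x * F1 (tau x)‖ ≤ 5 * C := by
      refine (norm_sub_le _ _).trans ?_
      simp only [norm_mul]
      have h5 : ‖(2 : ℂ)‖ = 2 := by simp
      rw [h5]
      calc ‖mu‖ * ‖F0 (tau x)‖ + 2 * ‖tau x‖ * ‖F1 (tau x)‖ ≤ 4 * C + 2 * (1 / 2) * C := by
            have := norm_mu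
            gcongr
        _ = 5 * C := by ring
    calc P * (x 2)⁻¹ * ‖mu * F0 (tau x) - 2 * tau x * F1 (tau x)‖ ≤ P * (x 2)⁻¹ * (5 * C) := by gcongr
      _ = 5 * C * P * (x 2)⁻¹ := by ring

end Pool.Agent.Helper728.Cone
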