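import Mathlib
import Pool.Agent.Helper728.ConeW

/-!
Cut-offs of the singular solution belong to the Sobolev space.
-/

open MeasureTheory Set Metric Filter Topology
open scoped ContDiff InnerProductSpace

namespace Pool.Agent.Helper728.Cone

open Hyper

lemma norm_sq_toLp_sub {A B : E → V4} (hA : MemLp A 2 nu) (hB : MemLp B 2 nu) :
    ‖hA.toLp A - hB.toLp B‖ ^ 2 = ∫ x, ‖A x - B x‖ ^ 2 ∂nu := by
  rw [norm_sq_eq_integral]
  apply integral_congr_ae
  filter_upwards [Lp.coeFn_sub (hA.toLp A) (hB.toLp B), hA.coeFn_toLp, hB.coeFn_toLp] with x h1 h2 h3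
  rw [h1, Pi.sub_apply, h2, h3]

lemma ae_nu {p : E → Prop} (h : ∀ x ∈ Om, p x) : ∀ᵐ x ∂nu, p x := by
  have : ∀ᵐ x ∂nu, x ∈ Om := ae_restrict_mem isOpen_Om.measurableSet
  filter_upwards [this] with x hx using h x hx

lemma inH_of_approx {φ : ℕ → E → ℂ} {U : E → V4} {C : ℝ} (hφ : ∀ n, IsTest Om (φ n))
    (hb : ∀ n, ∀ x ∈ Om, ‖J (φ n) x‖ ≤ C) (hl : ∀ x ∈ Om, ∀ᶠ n in atTop, J (φ n) x = U x) : InH U := by
  have hlim : ∀ᵐ x ∂nu, Tendsto (fun n => J (φ n) x) atTop (𝓝 (U x)) := by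
    apply ae_nu
    intro x hx
    exact tendsto_const_nhds.congr' ((hl x hx).mono fun n hn => hn.symm)
  have hUm : AEStronglyMeasurable U nu :=
    aestronglyMeasurable_of_tendsto_ae atTop (fun n => (continuous_J (hφ n).smooth).aestronglyMeasurable) hlim
  have hUb : ∀ x ∈ Om, ‖U x‖ ≤ C := by
    intro x hx
    obtain ⟨n, hn⟩ := (hl x hx).exists
    rw [← hn]; exact hb n x hx
  have hU : MemLp U 2 nu := MemLp.of_bound hUm C (ae_nu hUb)
  refine ⟨hU, ?_⟩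
  have key : Tendsto (fun n => ∫ x, ‖J (φ n) x - U x‖ ^ 2 ∂nu) atTop (𝓝 (∫ _, (0 : ℝ) ∂nu)) := by
    apply tendsto_integral_of_dominated_convergence (fun _ => (2 * C) ^ 2)
    · intro n
      exact (((continuous_J (hφ n).smooth).aestronglyMeasurable.sub hUm).norm.pow 2)
    · exact integrable_const _
    · intro n
      apply ae_nu
      intro x hx
      rw [Real.norm_of_nonneg (by positivity)]
      have h1 : ‖J (φ n) x - U x‖ ≤ 2 * C := by
        have := norm_sub_le (J (φ n) x) (U x)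
        have := hb n x hx
        have := hUb x hx
        linarith
      gcongr
    · apply ae_nu
      intro x hx
      apply tendsto_const_nhds.congr'
      filter_upwards [hl x hx] with n hn
      rw [hn]; simp
  simp only [integral_zero] at key
  have key2 : Tendsto (fun n => ‖(hφ n).memLp_J.toLp _ - hU.toLp U‖) atTop (𝓝 0) := by
    have h1 := key.sqrt
    rw [Real.sqrt_zero] at h1
    refine h1.congr fun n => ?_
    rw [← norm_sq_toLp_sub (hφ n).memLp_J hU, Real.sqrt_sq (norm_nonneg _)]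
  have key3 : Tendsto (fun n => (hφ n).memLp_J.toLp _) atTop (𝓝 (hU.toLp U)) :=
    tendsto_iff_norm_sub_tendsto_zero.2 key2
  exact isClosed_H0.mem_of_tendsto key3 (Eventually.of_forall fun n => (hφ n).toLp_mem)

/-- vertical cut-off functions -/
structure Cut (θ : ℝ → ℝ) (ρ : ℝ) : Prop where
  smooth : ContDiff ℝ ∞ θ
  pos : 0 < ρ
  low : ∀ t ≤ ρ, θ t = 0
  high : ∀ t, 3 / 4 ≤ t → θ t = 0

lemma Cut.compact {θ : ℝ → ℝ} {ρ : ℝ} (h : Cut θ ρ) : HasCompactSupport θ := by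
  apply HasCompactSupport.of_support_subset_isCompact (isCompact_Icc (a := ρ) (b := 3 / 4))
  intro t ht
  rw [Function.mem_support] at ht
  constructor
  · by_contra h'
    exact ht (h.low t (not_le.1 h').le)
  · by_contra h'
    exact ht (h.high t (not_le.1 h').le)

lemma Cut.deriv_smooth {θ : ℝ → ℝ} {ρ : ℝ} (h : Cut θ ρ) : ContDiff ℝ ∞ (deriv θ) :=
  (contDiff_infty_iff_deriv.1 h.smooth).2

lemma Cut.deriv_zero {θ : ℝ → ℝ} {ρ : ℝ} (h : Cut θ ρ) {t : ℝ} (ht : t < ρ) : deriv θ t = 0 := by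
  have : θ =ᶠ[𝓝 t] fun _ => 0 := by
    filter_upwards [Iio_mem_nhds ht] with s hs using h.low s (le_of_lt hs)
  rw [this.deriv_eq]; simp

lemma Cut.deriv2_zero {θ : ℝ → ℝ} {ρ : ℝ} (h : Cut θ ρ) {t : ℝ} (ht : t < ρ) : deriv (deriv θ) t = 0 := by
  have : deriv θ =ᶠ[𝓝 t] fun _ => 0 := by
    filter_upwards [Iio_mem_nhds ht] with s hs using h.deriv_zero hs
  rw [this.deriv_eq]; simp

lemma Cut.bound {θ : ℝ → ℝ} {ρ : ℝ} (h : Cut θ ρ) : ∃ B : ℝ, 0 ≤ B ∧ ∀ t, |θ t| ≤ B ∧ |deriv θ t| ≤ B ∧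
    |deriv (deriv θ) t| ≤ B := by
  have c2 : Continuous (deriv (deriv θ)) := ((contDiff_infty_iff_deriv.1 h.deriv_smooth).2).continuous
  obtain ⟨B0, hB0⟩ := h.compact.exists_bound_of_continuous h.smooth.continuous
  obtain ⟨B1, hB1⟩ := h.compact.deriv.exists_bound_of_continuous h.deriv_smooth.continuous
  obtain ⟨B2, hB2⟩ := h.compact.deriv.deriv.exists_bound_of_continuous c2
  refine ⟨max 0 (max B0 (max B1 B2)), le_max_left _ _, fun t => ⟨?_, ?_, ?_⟩⟩
  · exact (hB0 t).trans ((le_max_left _ _).trans (le_max_right _ _))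
  · exact (hB1 t).trans ((le_max_left _ _).trans ((le_max_right _ _).trans (le_max_right _ _)))
  · exact (hB2 t).trans ((le_max_right _ _).trans ((le_max_right _ _).trans (le_max_right _ _)))

/-- cut-off singular function -/
noncomputable def Kf (θ : ℝ → ℝ) (x : E) : ℂ := (θ (x 2) : ℂ) * W x

lemma hp_theta {θ : ℝ → ℝ} (hθ : ContDiff ℝ ∞ θ) (x : E) : HP (fun y => (θ (y 2) : ℂ))
    (fun i => if 2 = i then ((deriv θ (x 2) : ℝ) : ℂ) else 0) x :=
  HP.real_coord ((hθ.differentiable (by simp) _).hasDerivAt)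

lemma hp_K {θ : ℝ → ℝ} (hθ : ContDiff ℝ ∞ θ) {x : E} (hx : x ∈ Om) : HP (Kf θ)
    (fun i => if i = 0 then (θ (x 2) : ℂ) * W0 x else if i = 1 then (θ (x 2) : ℂ) * W1 x else
      ((deriv θ (x 2) : ℝ) : ℂ) * W x + (θ (x 2) : ℂ) * W2 x) x := by
  refine ((hp_theta hθ x).mul (hp_W hx)).congr fun i => ?_
  fin_cases i
  · simp
  · simp
  · simp

lemma pd_congr {f g : E → ℂ} {x : E} (hx : x ∈ Om) (h : ∀ y ∈ Om, f y = g y) (i : Fin 3) : pd i f x = pd i g x := by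
  have : f =ᶠ[𝓝 x] g := by
    filter_upwards [isOpen_Om.mem_nhds hx] with y hy using h y hy
  simp only [pd, this.fderiv_eq]

lemma pd2_K {θ : ℝ → ℝ} (hθ : ContDiff ℝ ∞ θ) (hθ' : ContDiff ℝ ∞ (deriv θ)) {x : E} (hx : x ∈ Om) :
    pd 0 (pd 0 (Kf θ)) x = (θ (x 2) : ℂ) * W00 x ∧ pd 1 (pd 1 (Kf θ)) x = (θ (x 2) : ℂ) * W11 x ∧
    pd 2 (pd 2 (Kf θ)) x = ((deriv (deriv θ) (x 2) : ℝ) : ℂ) * W x + 2 * ((deriv θ (x 2) : ℝ) : ℂ) * W2 x +
      (θ (x 2) : ℂ) * W22 x := by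
  refine ⟨?_, ?_, ?_⟩
  · rw [pd_congr hx (fun y hy => (hp_K hθ hy).pd 0) 0]
    simp only [if_true]
    obtain ⟨g, h1, h2⟩ := hp_W0 hx
    rw [((hp_theta hθ x).mul h1).pd 0, h2]
    simp
  · rw [pd_congr hx (fun y hy => (hp_K hθ hy).pd 1) 1]
    simp only [one_ne_zero, if_true, if_false]
    obtain ⟨g, h1, h2⟩ := hp_W1 hx
    rw [((hp_theta hθ x).mul h1).pd 1, h2]
    simp
  · rw [pd_congr hx (fun y hy => (hp_K hθ hy).pd 2) 2]
    have e1 : ¬ (2 : Fin 3) = 0 := by decide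
    have e2 : ¬ (2 : Fin 3) = 1 := by decide
    simp only [e1, e2, if_false]
    obtain ⟨g, h1, h2⟩ := hp_W2 hx
    rw [(((hp_theta hθ' x).mul (hp_W hx)).add ((hp_theta hθ x).mul h1)).pd 2, h2]
    simp
    ring

/-- the second order operator -/
noncomputable def Pop (α β : ℂ) (φ : E → ℂ) (x : E) : ℂ :=
  α * (pd 0 (pd 0 φ) x + pd 1 (pd 1 φ) x) + β * pd 2 (pd 2 φ) x

lemma Pop_K {θ : ℝ → ℝ} (hθ : ContDiff ℝ ∞ θ) (hθ' : ContDiff ℝ ∞ (deriv θ)) (γ : ℂ) {x : E} (hx : x ∈ Om) :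
    Pop γ (-(γ * t0)) (Kf θ) x = -(γ * t0) * (((deriv (deriv θ) (x 2) : ℝ) : ℂ) * W x + 2 * ((deriv θ (x 2) : ℝ) : ℂ) * W2 x) := by
  obtain ⟨h0, h1, h2⟩ := pd2_K hθ hθ' hx
  rw [Pop, h0, h1, h2]
  linear_combination (γ * (θ (x 2) : ℂ)) * pde_W hx

lemma V4_norm_le_sum (v : V4) : ‖v‖ ≤ ‖v 0‖ + ‖v 1‖ + ‖v 2‖ + ‖v 3‖ := by
  have h := V4_norm_sq v
  have h0 := norm_nonneg (v 0)
  have h1 := norm_nonneg (v 1)
  have h2 := norm_nonneg (v 2)
  have h3 := norm_nonneg (v 3)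
  refine le_of_sq_le_sq ?_ (by positivity)
  nlinarith [mul_nonneg h0 h1, mul_nonneg h0 h2, mul_nonneg h0 h3, mul_nonneg h1 h2, mul_nonneg h1 h3, mul_nonneg h2 h3]

lemma contDiff_q : ContDiff ℝ ∞ q := by
  unfold q
  fun_prop

lemma contDiffAt_K {θ : ℝ → ℝ} (hθ : ContDiff ℝ ∞ θ) {x : E} (hx : x ∈ Om) : ContDiffAt ℝ ∞ (Kf θ) x := by
  have h1 : ContDiff ℝ ∞ (fun y : E => (θ (y 2) : ℂ)) :=
    Complex.ofRealCLM.contDiff.comp (hθ.comp (EuclideanSpace.proj (𝕜 := ℝ) (2 : Fin 3) : E →L[ℝ] ℝ).contDiff)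
  exact h1.contDiffAt.mul (contDiffAt_W hx)

/-- approximations by test functions -/
noncomputable def An (θ : ℝ → ℝ) (n : ℕ) (x : E) : ℂ := ((st ((n : ℝ) * q x) : ℝ) : ℂ) * Kf θ x

lemma contDiff_stq (n : ℕ) : ContDiff ℝ ∞ (fun x : E => ((st ((n : ℝ) * q x) : ℝ) : ℂ)) :=
  Complex.ofRealCLM.contDiff.comp (st_contDiff.comp (contDiff_const.mul contDiff_q))

lemma isTest_An {θ : ℝ → ℝ} {ρ : ℝ} (h : Cut θ ρ) (n : ℕ) : IsTest Om (An θ n) := by
  set A : Set E := {x | 1 ≤ (n : ℝ) * q x ∧ ρ ≤ x 2 ∧ x 2 ≤ 3 / 4} with hA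
  have hq := contDiff_q.continuous
  have hAc : IsClosed A := by
    have a1 : IsClosed {x : E | 1 ≤ (n : ℝ) * q x} := isClosed_le (by fun_prop) (by fun_prop)
    have a2 : IsClosed {x : E | ρ ≤ x 2} := isClosed_le (by fun_prop) (by fun_prop)
    have a3 : IsClosed {x : E | x 2 ≤ 3 / 4} := isClosed_le (by fun_prop) (by fun_prop)
    exact a1.inter (a2.inter a3)
  have hAO : A ⊆ Om := by
    rintro x ⟨h1, h2, h3⟩
    have h4 : 0 < q x := by
      by_contra h'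
      have h5 : (n : ℝ) * q x ≤ 0 := mul_nonpos_of_nonneg_of_nonpos (Nat.cast_nonneg n) (not_lt.1 h')
      linarith
    simp only [q] at h4
    refine ⟨by linarith, by linarith [h.pos], by linarith⟩
  have hsupp : tsupport (An θ n) ⊆ A := by
    apply closure_minimal _ hAc
    intro x hx
    rw [Function.mem_support] at hx
    refine ⟨?_, ?_, ?_⟩
    · by_contra h'
      apply hx
      rw [An, st_of_le (not_le.1 h').le]; simp
    · by_contra h'
      apply hx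
      rw [An, Kf, h.low _ (not_le.1 h').le]; simp
    · by_contra h'
      apply hx
      rw [An, Kf, h.high _ (not_le.1 h').le]; simp
  have hAcomp : IsCompact A :=
    Metric.isCompact_of_isClosed_isBounded hAc (isBounded_ball.subset (hAO.trans Om_subset_ball))
  refine ⟨?_, ?_, hsupp.trans hAO⟩
  · rw [contDiff_iff_contDiffAt]
    intro x
    by_cases hx : x ∈ tsupport (An θ n)
    · exact (contDiff_stq n).contDiffAt.mul (contDiffAt_K h.smooth (hAO (hsupp hx)))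
    · exact (contDiffAt_const (c := (0 : ℂ))).congr_of_eventuallyEq (notMem_tsupport_iff_eventuallyEq.1 hx)
  · exact hAcomp.of_isClosed_subset (isClosed_tsupport _) hsupp

lemma bd_st : ∃ S : ℝ, 0 ≤ S ∧ ∀ t, 0 ≤ t → |deriv st t| * t ≤ S := by
  have hc : Continuous (fun t => |deriv st t| * t) := by
    have : Continuous (deriv st) := ((contDiff_infty_iff_deriv.1 st_contDiff).2).continuous
    fun_prop
  obtain ⟨S, hS⟩ := (isCompact_Icc (a := (0 : ℝ)) (b := 2)).exists_bound_of_continuousOn hc.continuousOn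
  refine ⟨max 0 S, le_max_left _ _, fun t ht => ?_⟩
  by_cases h2 : t ≤ 2
  · exact (le_abs_self _).trans ((hS t ⟨ht, h2⟩).trans (le_max_right _ _))
  · have : st =ᶠ[𝓝 t] fun _ => 1 := by
      filter_upwards [Ioi_mem_nhds (not_le.1 h2)] with s hs using st_of_ge (le_of_lt hs)
    rw [this.deriv_eq]
    simp

lemma hp_real {g : E → ℝ} {h : ℝ → ℝ} (hg : ContDiff ℝ ∞ g) (hh : ContDiff ℝ ∞ h) (x : E) :
    HP (fun y => ((h (g y) : ℝ) : ℂ))
      (fun i => ((deriv h (g x) * fderiv ℝ g x (EuclideanSpace.single i 1) : ℝ) : ℂ)) x := by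
  have h1 := (hg.differentiable (by simp) x).hasFDerivAt
  have h2 := (hh.differentiable (by simp) (g x)).hasDerivAt
  have h4 : HasFDerivAt (fun y => ((h (g y) : ℝ) : ℂ)) (Complex.ofRealCLM.comp (deriv h (g x) • fderiv ℝ g x)) x :=
    Complex.ofRealCLM.hasFDerivAt.comp x (h2.comp_hasFDerivAt x h1)
  refine ⟨h4.differentiableAt, fun i => ?_⟩
  rw [Cone.pd, h4.fderiv]
  simp

lemma bd_q : ∃ Q : ℝ, 0 ≤ Q ∧ ∀ x ∈ Om, ∀ i : Fin 3, |fderiv ℝ q x (EuclideanSpace.single i 1)| ≤ Q := by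
  have hc : Continuous (fun x => fderiv ℝ q x) := contDiff_q.continuous_fderiv (by simp)
  obtain ⟨Q, hQ⟩ := (isCompact_closedBall (0 : E) 2).exists_bound_of_continuousOn hc.continuousOn
  have h0 : (0 : E) ∈ closedBall (0 : E) 2 := by simp
  refine ⟨Q, (norm_nonneg _).trans (hQ 0 h0), fun x hx i => ?_⟩
  have h1 := hQ x (ball_subset_closedBall (Om_subset_ball hx))
  have h2 := (fderiv ℝ q x).le_opNorm (EuclideanSpace.single i (1 : ℝ))
  have h3 : ‖(EuclideanSpace.single i (1 : ℝ) : E)‖ = 1 := by simp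
  rw [h3, mul_one] at h2
  exact h2.trans h1

/-- bounds for the cut-off singular function -/
lemma bdK {θ : ℝ → ℝ} {ρ : ℝ} (h : Cut θ ρ) : ∃ M : ℝ, 0 ≤ M ∧ ∀ x ∈ Om, ‖Kf θ x‖ ≤ M ∧ ‖Kf θ x‖ ≤ M * q x ∧
    ∀ i, ‖pd i (Kf θ) x‖ ≤ M := by
  obtain ⟨B, hB0, hB⟩ := h.bound
  obtain ⟨C, hC1, hC⟩ := bdW
  have hC0 : 0 ≤ C := by linarith
  have hρ := h.pos
  set R := ρ ^ (-(4 / 5) : ℝ) with hR
  have hR0 : 0 ≤ R := by positivity
  set M := B * (C * R) + B * (C * R * (ρ⁻¹ ^ 2)) + B * (C * R * ρ⁻¹) with hM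
  have m1 : 0 ≤ B * (C * R) := by positivity
  have m2 : 0 ≤ B * (C * R * (ρ⁻¹ ^ 2)) := by positivity
  have m3 : 0 ≤ B * (C * R * ρ⁻¹) := by positivity
  refine ⟨M, by positivity, fun x hx => ?_⟩
  obtain ⟨w1, w2, w3, w4, w5⟩ := hC x hx
  obtain ⟨b1, b2, b3⟩ := hB (x 2)
  have hq : 0 ≤ q x := by have := hx.1; simp only [q]; linarith
  have hz := hx.2.1
  by_cases hlt : x 2 < ρ
  · have e1 := h.low _ hlt.le
    have e2 := h.deriv_zero hlt
    refine ⟨?_, ?_, ?_⟩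
    · rw [Kf, e1]; simp; positivity
    · rw [Kf, e1]; simp; positivity
    · intro i
      rw [(hp_K h.smooth hx).pd i, e1, e2]
      simp
      positivity
  · have hge : ρ ≤ x 2 := not_lt.1 hlt
    have p1 : x 2 ^ (-(4 / 5) : ℝ) ≤ R := Real.rpow_le_rpow_of_nonpos hρ hge (by norm_num)
    have p2 : (x 2)⁻¹ ≤ ρ⁻¹ := inv_anti₀ hρ hge
    have p3 : 0 ≤ x 2 ^ (-(4 / 5) : ℝ) := by positivity
    have v1 : ‖W x‖ ≤ C * R := w1.trans (by gcongr)
    have v2 : ‖W x‖ ≤ C * R * (ρ⁻¹ ^ 2) * q x := w2.trans (by rw [← mul_assoc]; gcongr)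
    have v3 : ‖W0 x‖ ≤ C * R * ρ⁻¹ := w3.trans (by gcongr)
    have v4 : ‖W1 x‖ ≤ C * R * ρ⁻¹ := w4.trans (by gcongr)
    have v5 : ‖W2 x‖ ≤ C * R * ρ⁻¹ := w5.trans (by gcongr)
    have t1 : ∀ r : ℝ, ‖(r : ℂ)‖ = |r| := fun r => by rw [Complex.norm_real, Real.norm_eq_abs]
    refine ⟨?_, ?_, ?_⟩
    · rw [Kf, norm_mul, t1]
      calc |θ (x 2)| * ‖W x‖ ≤ B * (C * R) := by gcongr
        _ ≤ M := by linarith
    · rw [Kf, norm_mul, t1]
      calc |θ (x 2)| * ‖W x‖ ≤ B * (C * R * (ρ⁻¹ ^ 2) * q x) := by gcongr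
        _ = B * (C * R * (ρ⁻¹ ^ 2)) * q x := by ring
        _ ≤ M * q x := by gcongr; linarith
    · intro i
      rw [(hp_K h.smooth hx).pd i]
      fin_cases i
      · simp only [Fin.zero_eta, if_true]
        rw [norm_mul, t1]
        calc |θ (x 2)| * ‖W0 x‖ ≤ B * (C * R * ρ⁻¹) := by gcongr
          _ ≤ M := by linarith
      · simp only [Fin.mk_one, one_ne_zero, if_true, if_false]
        rw [norm_mul, t1]
        calc |θ (x 2)| * ‖W1 x‖ ≤ B * (C * R * ρ⁻¹) := by gcongr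
          _ ≤ M := by linarith
      · have e1 : ¬ (2 : Fin 3) = 0 := by decide
        have e2 : ¬ (2 : Fin 3) = 1 := by decide
        simp only [Fin.reduceFinMk, e1, e2, if_false]
        refine (norm_add_le _ _).trans ?_
        rw [norm_mul, norm_mul, t1, t1]
        calc |deriv θ (x 2)| * ‖W x‖ + |θ (x 2)| * ‖W2 x‖ ≤ B * (C * R) + B * (C * R * ρ⁻¹) := by gcongr
          _ ≤ M := by linarith

/-- the cut-off singular function belongs to the space -/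
lemma inH_K {θ : ℝ → ℝ} {ρ : ℝ} (h : Cut θ ρ) : InH (J (Kf θ)) := by
  obtain ⟨M, hM0, hM⟩ := bdK h
  obtain ⟨S, hS0, hS⟩ := bd_st
  obtain ⟨Q, hQ0, hQ⟩ := bd_q
  refine inH_of_approx (C := M + 3 * (M * Q * S + M)) (isTest_An h) ?_ ?_
  · intro n x hx
    obtain ⟨k1, k2, k3⟩ := hM x hx
    have hq : 0 ≤ q x := by have := hx.1; simp only [q]; linarith
    have t1 : ∀ r : ℝ, ‖(r : ℂ)‖ = |r| := fun r => by rw [Complex.norm_real, Real.norm_eq_abs]
    have s1 : |st ((n : ℝ) * q x)| ≤ 1 := by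
      rw [abs_of_nonneg (st_nonneg _)]; exact st_le_one _
    have c0 : ‖An θ n x‖ ≤ M := by
      rw [An, norm_mul, t1]
      calc |st ((n : ℝ) * q x)| * ‖Kf θ x‖ ≤ 1 * M := by gcongr
        _ = M := one_mul _
    have ci : ∀ i, ‖pd i (An θ n) x‖ ≤ M * Q * S + M := by
      intro i
      have e1 := hp_real (g := fun x => (n : ℝ) * q x) (h := st) (contDiff_const.mul contDiff_q) st_contDiff x
      have e2 := hp_K h.smooth hx
      have e3 := (e1.mul e2).pd i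
      have e4 : Cone.pd i (An θ n) x = _ := e3
      rw [e4]
      have e5 := e2.pd i
      rw [← e5]
      refine (norm_add_le _ _).trans ?_
      rw [norm_mul, norm_mul, t1, t1]
      have e6 : fderiv ℝ (fun x => (n : ℝ) * q x) x (EuclideanSpace.single i 1) =
          n * fderiv ℝ q x (EuclideanSpace.single i 1) := by
        rw [fderiv_const_mul (contDiff_q.differentiable (by simp) x)]
        simp
      rw [e6, abs_mul, abs_mul, Nat.abs_cast]
      have e7 := hS ((n : ℝ) * q x) (by positivity)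
      have e8 := hQ x hx i
      have e9 := k3 i
      calc |deriv st ((n : ℝ) * q x)| * (n * |fderiv ℝ q x (EuclideanSpace.single i 1)|) * ‖Kf θ x‖ +
            |st ((n : ℝ) * q x)| * ‖pd i (Kf θ) x‖
          ≤ |deriv st ((n : ℝ) * q x)| * (n * Q) * (M * q x) + 1 * M := by gcongr
        _ = M * Q * (|deriv st ((n : ℝ) * q x)| * ((n : ℝ) * q x)) + M := by ring
        _ ≤ M * Q * S + M := by gcongr
    refine (V4_norm_le_sum _).trans ?_
    simp only [J_zero, J_one, J_two, J_three]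
    linarith [ci 0, ci 1, ci 2]
  · intro x hx
    have hq : 0 < q x := by have := hx.1; simp only [q]; linarith
    obtain ⟨N, hN⟩ := exists_nat_gt (2 / q x)
    filter_upwards [eventually_ge_atTop N] with n hn
    have h1 : 2 < (n : ℝ) * q x := by
      have : (N : ℝ) ≤ n := by exact_mod_cast hn
      rw [← div_lt_iff₀ hq]
      linarith
    have hq' := contDiff_q.continuous
    have hopen : IsOpen {y : E | 2 < (n : ℝ) * q y} := isOpen_lt (by fun_prop) (by fun_prop)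
    have h2 : An θ n =ᶠ[𝓝 x] Kf θ := by
      filter_upwards [hopen.mem_nhds h1] with y hy
      rw [An, st_of_ge (le_of_lt hy)]
      simp
    ext i
    fin_cases i
    · simpa using h2.eq_of_nhds
    · simp only [Fin.mk_one, J_one, pd, h2.fderiv_eq]
    · simp only [Fin.reduceFinMk, J_two, pd, h2.fderiv_eq]
    · simp only [Fin.reduceFinMk, J_three, pd, h2.fderiv_eq]

end Pool.Agent.Helper728.Cone
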