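import Mathlib
import Pool.Agent.Helper728.ConeK

/-!
The duality argument.
-/

open MeasureTheory Set Metric Filter Topology
open scoped ContDiff InnerProductSpace

namespace Pool.Agent.Helper728.Cone

open Hyper

lemma contDiffAt_pd {f : E → ℂ} {x : E} (h : ContDiffAt ℝ ∞ f x) (i : Fin 3) : ContDiffAt ℝ ∞ (pd i f) x := by
  have : ContDiffAt ℝ ∞ (fderiv ℝ f) x := h.fderiv_right (by norm_cast)
  exact this.clm_apply contDiffAt_const

lemma ibp_K {θ : ℝ → ℝ} (hθ : ContDiff ℝ ∞ θ) {φ : E → ℂ} (hφ : IsTest Om φ) (i : Fin 3) :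
    ∫ x, pd i (Kf θ) x * pd i φ x ∂nu = -∫ x, pd i (pd i (Kf θ)) x * φ x ∂nu := by
  have h := ibp isOpen_Om (q := pd i (Kf θ)) i
    (fun x hx => (contDiffAt_pd (contDiffAt_K hθ hx) i).differentiableAt (by simp))
    (fun x hx => (contDiffAt_pd (contDiffAt_pd (contDiffAt_K hθ hx) i) i).continuousAt.continuousWithinAt) hφ
  rw [integral_nu_eq, integral_nu_eq, h]
  · intro x hx; rw [hφ.zero_of_notMem hx]; simp
  · intro x hx; rw [hφ.pd_zero_of_notMem hx]; simp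

/-- the commutator term -/
noncomputable def Cm (β : ℂ) (a b : ℝ → ℝ) (x : E) : ℂ :=
  β * (((b (x 2) : ℝ) : ℂ) * W x + 2 * ((a (x 2) : ℝ) : ℂ) * W2 x)

lemma continuousAt_W {x : E} (hx : x ∈ Om) : ContinuousAt W x := (contDiffAt_W hx).continuousAt

lemma continuousAt_W2 {x : E} (hx : x ∈ Om) : ContinuousAt W2 x := by
  have h1 : ContinuousAt (pd 2 W) x := (contDiffAt_pd (contDiffAt_W hx) 2).continuousAt
  refine h1.congr ?_
  filter_upwards [isOpen_Om.mem_nhds hx] with y hy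
  rw [(hp_W hy).pd 2]
  simp

lemma aesm_Cm (β : ℂ) {a b : ℝ → ℝ} (ha : Continuous a) (hb : Continuous b) :
    AEStronglyMeasurable (Cm β a b) nu := by
  apply ContinuousOn.aestronglyMeasurable _ isOpen_Om.measurableSet
  intro x hx
  apply ContinuousAt.continuousWithinAt
  have h1 : Continuous (fun x : E => ((b (x 2) : ℝ) : ℂ)) := by fun_prop
  have h2 : Continuous (fun x : E => ((a (x 2) : ℝ) : ℂ)) := by fun_prop
  exact continuousAt_const.mul ((h1.continuousAt.mul (continuousAt_W hx)).add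
    ((continuousAt_const.mul h2.continuousAt).mul (continuousAt_W2 hx)))

/-- pointwise bound for the commutator -/
lemma bdCm : ∃ C : ℝ, 1 ≤ C ∧ ∀ (β : ℂ) (a b : ℝ → ℝ) (A B ρ : ℝ), 0 < ρ → 0 ≤ A → 0 ≤ B → (∀ t, |a t| ≤ A) →
    (∀ t, |b t| ≤ B) → (∀ t < ρ, a t = 0) → (∀ t < ρ, b t = 0) → ∀ x ∈ Om,
    ‖Cm β a b x‖ ≤ ‖β‖ * (C * ρ ^ (-(4 / 5) : ℝ) * (B + 2 * A * ρ⁻¹)) := by
  obtain ⟨C, hC1, hC⟩ := bdW
  have hC0 : 0 ≤ C := by linarith
  refine ⟨C, hC1, fun β a b A B ρ hρ hA hB ha hb ha0 hb0 x hx => ?_⟩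
  obtain ⟨w1, w2, w3, w4, w5⟩ := hC x hx
  have t1 : ∀ r : ℝ, ‖(r : ℂ)‖ = |r| := fun r => by rw [Complex.norm_real, Real.norm_eq_abs]
  set R := ρ ^ (-(4 / 5) : ℝ) with hR
  have hR0 : 0 ≤ R := by positivity
  by_cases hlt : x 2 < ρ
  · rw [Cm, ha0 _ hlt, hb0 _ hlt]
    simp
    positivity
  · have hge : ρ ≤ x 2 := not_lt.1 hlt
    have p1 : x 2 ^ (-(4 / 5) : ℝ) ≤ R := Real.rpow_le_rpow_of_nonpos hρ hge (by norm_num)
    have p2 : (x 2)⁻¹ ≤ ρ⁻¹ := inv_anti₀ hρ hge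
    have p4 : 0 ≤ (x 2)⁻¹ := inv_nonneg.2 (by linarith)
    have v1 : ‖W x‖ ≤ C * R := w1.trans (by gcongr)
    have v5 : ‖W2 x‖ ≤ C * R * ρ⁻¹ := w5.trans (by gcongr)
    rw [Cm, norm_mul]
    have h2 : ‖(2 : ℂ)‖ = 2 := by simp
    have h3 : ‖((b (x 2) : ℝ) : ℂ) * W x + 2 * ((a (x 2) : ℝ) : ℂ) * W2 x‖ ≤ C * R * (B + 2 * A * ρ⁻¹) := by
      refine (norm_add_le _ _).trans ?_
      rw [norm_mul, norm_mul, norm_mul, t1, t1, h2]
      have e1 := ha (x 2)
      have e2 := hb (x 2)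
      calc |b (x 2)| * ‖W x‖ + 2 * |a (x 2)| * ‖W2 x‖ ≤ B * (C * R) + 2 * A * (C * R * ρ⁻¹) := by gcongr
        _ = _ := by ring
    gcongr

lemma memLp_Cm (β : ℂ) {a b : ℝ → ℝ} {A B ρ : ℝ} (ha : Continuous a) (hb : Continuous b) (hρ : 0 < ρ)
    (hA : 0 ≤ A) (hB : 0 ≤ B) (hbA : ∀ t, |a t| ≤ A) (hbB : ∀ t, |b t| ≤ B) (ha0 : ∀ t < ρ, a t = 0)
    (hb0 : ∀ t < ρ, b t = 0) : MemLp (Cm β a b) 2 nu := by
  obtain ⟨C, hC1, hC⟩ := bdCm
  exact MemLp.of_bound (aesm_Cm β ha hb) _ (ae_nu (hC β a b A B ρ hρ hA hB hbA hbB ha0 hb0))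

/-- duality between a weak solution and the cut-off singular function -/
lemma duality {γ : ℂ} {f : E → ℂ} (hf : MemLp f 2 nu) {U : E → V4} (hU : InH U)
    (h : WeakSol γ (-(γ * t0)) f U) {θ : ℝ → ℝ} {ρ : ℝ} (hθ : Cut θ ρ) :
    ∫ x, f x * Kf θ x ∂nu = ∫ x, Cm (-(γ * t0)) (deriv θ) (deriv (deriv θ)) x * U x 0 ∂nu := by
  obtain ⟨B, hB0, hB⟩ := hθ.bound
  have hK := inH_K hθ
  set β := -(γ * t0) with hβ
  have hCm : MemLp (Cm β (deriv θ) (deriv (deriv θ))) 2 nu :=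
    memLp_Cm β hθ.deriv_smooth.continuous ((contDiff_infty_iff_deriv.1 hθ.deriv_smooth).2).continuous hθ.pos hB0 hB0
      (fun t => (hB t).2.1) (fun t => (hB t).2.2) (fun t ht => hθ.deriv_zero ht) (fun t ht => hθ.deriv2_zero ht)
  have h1 := h.extend hf hU.memLp hK
  simp only [J_zero] at h1
  have hA := memLp_Dm γ β hK.memLp
  have hF := memLp_single hCm
  have key : ∀ {V : E → V4}, MemLp V 2 nu → ∫ x, dot (Dm γ β (J (Kf θ) x) +
      WithLp.toLp 2 ![Cm β (deriv θ) (deriv (deriv θ)) x, 0, 0, 0]) (V x) ∂nu =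
      ∫ x, dot (Dm γ β (J (Kf θ) x)) (V x) ∂nu + ∫ x, Cm β (deriv θ) (deriv (deriv θ)) x * V x 0 ∂nu := by
    intro V hV
    have h2 := integrable_dot hF hV
    simp only [dot_single] at h2
    rw [← integral_add (integrable_dot hA hV) h2]
    congr 1
    ext x
    rw [← dot_single]
    simp [dot]
    ring
  have h2 := pairing_zero (hA.add hF) (by
    intro φ hφ
    simp only [Pi.add_apply]
    rw [key hφ.memLp_J]
    have i0 : Integrable (fun x => pd 0 (Kf θ) x * pd 0 φ x) nu :=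
      integrable_mul (memLp_apply hK.memLp 1) (memLp_apply hφ.memLp_J 1)
    have i1 : Integrable (fun x => pd 1 (Kf θ) x * pd 1 φ x) nu :=
      integrable_mul (memLp_apply hK.memLp 2) (memLp_apply hφ.memLp_J 2)
    have i2 : Integrable (fun x => pd 2 (Kf θ) x * pd 2 φ x) nu :=
      integrable_mul (memLp_apply hK.memLp 3) (memLp_apply hφ.memLp_J 3)
    have j : ∀ i, Integrable (fun x => pd i (pd i (Kf θ)) x * φ x) nu := by
      intro i
      refine (integrable_mul_test isOpen_Om ?_ hφ.continuous hφ.compact hφ.subset).restrict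
      intro x hx
      exact (contDiffAt_pd (contDiffAt_pd (contDiffAt_K hθ.smooth hx) i) i).continuousAt.continuousWithinAt
    have e1 : ∫ x, dot (Dm γ β (J (Kf θ) x)) (J φ x) ∂nu =
        γ * ∫ x, pd 0 (Kf θ) x * pd 0 φ x ∂nu + γ * ∫ x, pd 1 (Kf θ) x * pd 1 φ x ∂nu +
        β * ∫ x, pd 2 (Kf θ) x * pd 2 φ x ∂nu := by
      rw [← integral_const_mul, ← integral_const_mul, ← integral_const_mul,
        ← integral_add (i0.const_mul _) (i1.const_mul _)]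
      have i01 : Integrable (fun x => γ * (pd 0 (Kf θ) x * pd 0 φ x) + γ * (pd 1 (Kf θ) x * pd 1 φ x)) nu :=
        (i0.const_mul _).add (i1.const_mul _)
      rw [← integral_add i01 (i2.const_mul _)]
      congr 1
      ext x
      simp [dot]
      ring
    rw [e1, ibp_K hθ.smooth hφ, ibp_K hθ.smooth hφ, ibp_K hθ.smooth hφ]
    have e2 : ∫ x, Cm β (deriv θ) (deriv (deriv θ)) x * φ x ∂nu =
        γ * ∫ x, pd 0 (pd 0 (Kf θ)) x * φ x ∂nu + γ * ∫ x, pd 1 (pd 1 (Kf θ)) x * φ x ∂nu +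
        β * ∫ x, pd 2 (pd 2 (Kf θ)) x * φ x ∂nu := by
      rw [← integral_const_mul, ← integral_const_mul, ← integral_const_mul,
        ← integral_add ((j 0).const_mul _) ((j 1).const_mul _)]
      have j01 : Integrable (fun x => γ * (pd 0 (pd 0 (Kf θ)) x * φ x) + γ * (pd 1 (pd 1 (Kf θ)) x * φ x)) nu :=
        ((j 0).const_mul _).add ((j 1).const_mul _)
      rw [← integral_add j01 ((j 2).const_mul _)]
      apply integral_congr_ae
      apply ae_nu
      intro x hx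
      have := Pop_K hθ.smooth hθ.deriv_smooth γ hx
      simp only [Cm]
      rw [← hβ, Pop] at this
      linear_combination (-φ x) * this
    simp only [J_zero]
    rw [e2]
    ring) hU
  simp only [Pi.add_apply] at h2
  rw [key hU.memLp] at h2
  have h3 : ∫ x, dot (Dm γ β (J (Kf θ) x)) (U x) ∂nu = ∫ x, dot (Dm γ β (U x)) (J (Kf θ) x) ∂nu := by
    congr 1
    ext x
    simp [dot]
    ring
  rw [h3, h1] at h2
  linear_combination -h2

lemma sd_contDiff : ContDiff ℝ ∞ (deriv st) := (contDiff_infty_iff_deriv.1 st_contDiff).2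
lemma sdd_contDiff : ContDiff ℝ ∞ (deriv (deriv st)) := (contDiff_infty_iff_deriv.1 sd_contDiff).2

lemma sd_zero_lt {t : ℝ} (h : t < 1) : deriv st t = 0 := by
  have : st =ᶠ[𝓝 t] fun _ => 0 := by
    filter_upwards [Iio_mem_nhds h] with s hs using st_of_le (le_of_lt hs)
  rw [this.deriv_eq]; simp

lemma sd_zero_gt {t : ℝ} (h : 2 < t) : deriv st t = 0 := by
  have : st =ᶠ[𝓝 t] fun _ => 1 := by
    filter_upwards [Ioi_mem_nhds h] with s hs using st_of_ge (le_of_lt hs)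
  rw [this.deriv_eq]; simp

lemma sdd_zero_lt {t : ℝ} (h : t < 1) : deriv (deriv st) t = 0 := by
  have : deriv st =ᶠ[𝓝 t] fun _ => 0 := by
    filter_upwards [Iio_mem_nhds h] with s hs using sd_zero_lt hs
  rw [this.deriv_eq]; simp

lemma sdd_zero_gt {t : ℝ} (h : 2 < t) : deriv (deriv st) t = 0 := by
  have : deriv st =ᶠ[𝓝 t] fun _ => 0 := by
    filter_upwards [Ioi_mem_nhds h] with s hs using sd_zero_gt hs
  rw [this.deriv_eq]; simp

lemma bd_sd : ∃ S : ℝ, 0 ≤ S ∧ ∀ t, |deriv st t| ≤ S ∧ |deriv (deriv st) t| ≤ S := by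
  obtain ⟨S1, hS1⟩ := (isCompact_Icc (a := (1 : ℝ)) (b := 2)).exists_bound_of_continuousOn
    sd_contDiff.continuous.continuousOn
  obtain ⟨S2, hS2⟩ := (isCompact_Icc (a := (1 : ℝ)) (b := 2)).exists_bound_of_continuousOn
    sdd_contDiff.continuous.continuousOn
  refine ⟨max 0 (max S1 S2), le_max_left _ _, fun t => ?_⟩
  by_cases h1 : t < 1
  · rw [sd_zero_lt h1, sdd_zero_lt h1]; simp
  · by_cases h2 : 2 < t
    · rw [sd_zero_gt h2, sdd_zero_gt h2]; simp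
    · have ht : t ∈ Icc (1 : ℝ) 2 := ⟨not_lt.1 h1, not_lt.1 h2⟩
      exact ⟨(hS1 t ht).trans ((le_max_left _ _).trans (le_max_right _ _)),
        (hS2 t ht).trans ((le_max_right _ _).trans (le_max_right _ _))⟩

/-- cut-off function -/
noncomputable def cu (ρ : ℝ) (t : ℝ) : ℝ := st (t * ρ⁻¹) - st (4 * t - 1)

lemma contDiff_cu (ρ : ℝ) : ContDiff ℝ ∞ (cu ρ) :=
  (st_contDiff.comp (by fun_prop)).sub (st_contDiff.comp (by fun_prop))

lemma cut_cu {ρ : ℝ} (hρ : 0 < ρ) (hρ' : ρ ≤ 1 / 4) : Cut (cu ρ) ρ where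
  smooth := contDiff_cu ρ
  pos := hρ
  low := by
    intro t ht
    rw [cu, st_of_le, st_of_le]
    · ring
    · linarith
    · rw [← div_eq_mul_inv, div_le_one hρ]; exact ht
  high := by
    intro t ht
    rw [cu, st_of_ge, st_of_ge]
    · ring
    · linarith
    · rw [← div_eq_mul_inv, le_div_iff₀ hρ]; linarith

lemma deriv_cu (ρ : ℝ) : deriv (cu ρ) = fun t => deriv st (t * ρ⁻¹) * ρ⁻¹ - 4 * deriv st (4 * t - 1) := by
  ext t
  have h1 : HasDerivAt (fun t => st (t * ρ⁻¹)) (deriv st (t * ρ⁻¹) * ρ⁻¹) t := by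
    have a := (st_contDiff.differentiable (by simp) (t * ρ⁻¹)).hasDerivAt
    have b : HasDerivAt (fun t : ℝ => t * ρ⁻¹) ρ⁻¹ t := by simpa using (hasDerivAt_id t).mul_const ρ⁻¹
    exact HasDerivAt.comp (h := fun t => t * ρ⁻¹) (h₂ := st) t a b
  have h2 : HasDerivAt (fun t => st (4 * t - 1)) (deriv st (4 * t - 1) * 4) t := by
    have a := (st_contDiff.differentiable (by simp) (4 * t - 1)).hasDerivAt
    have b : HasDerivAt (fun t : ℝ => 4 * t - 1) 4 t := by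
      simpa using ((hasDerivAt_id t).const_mul 4).sub_const 1
    exact HasDerivAt.comp (h := fun t => 4 * t - 1) (h₂ := st) t a b
  have h3 := (h1.sub h2).deriv
  have h4 : deriv (cu ρ) t = _ := h3
  rw [h4]; ring

lemma deriv2_cu (ρ : ℝ) : deriv (deriv (cu ρ)) = fun t => deriv (deriv st) (t * ρ⁻¹) * ρ⁻¹ ^ 2 -
    16 * deriv (deriv st) (4 * t - 1) := by
  rw [deriv_cu]
  ext t
  have h1 : HasDerivAt (fun t => deriv st (t * ρ⁻¹) * ρ⁻¹) (deriv (deriv st) (t * ρ⁻¹) * ρ⁻¹ * ρ⁻¹) t := by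
    have a := (sd_contDiff.differentiable (by simp) (t * ρ⁻¹)).hasDerivAt
    have b : HasDerivAt (fun t : ℝ => t * ρ⁻¹) ρ⁻¹ t := by simpa using (hasDerivAt_id t).mul_const ρ⁻¹
    exact (HasDerivAt.comp (h := fun t => t * ρ⁻¹) (h₂ := deriv st) t a b).mul_const _
  have h2 : HasDerivAt (fun t => 4 * deriv st (4 * t - 1)) (4 * (deriv (deriv st) (4 * t - 1) * 4)) t := by
    have a := (sd_contDiff.differentiable (by simp) (4 * t - 1)).hasDerivAt
    have b : HasDerivAt (fun t : ℝ => 4 * t - 1) 4 t := by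
      simpa using ((hasDerivAt_id t).const_mul 4).sub_const 1
    exact (HasDerivAt.comp (h := fun t => 4 * t - 1) (h₂ := deriv st) t a b).const_mul 4
  have h3 := (h1.sub h2).deriv
  have h4 : deriv (fun t => deriv st (t * ρ⁻¹) * ρ⁻¹ - 4 * deriv st (4 * t - 1)) t = _ := h3
  rw [h4]; ring

/-- first order coefficient near the vertex -/
noncomputable def a1 (ρ t : ℝ) : ℝ := deriv st (t * ρ⁻¹) * ρ⁻¹
/-- second order coefficient near the vertex -/
noncomputable def b1 (ρ t : ℝ) : ℝ := deriv (deriv st) (t * ρ⁻¹) * ρ⁻¹ ^ 2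
/-- first order coefficient away from the vertex -/
noncomputable def a2 (t : ℝ) : ℝ := 4 * deriv st (4 * t - 1)
/-- second order coefficient away from the vertex -/
noncomputable def b2 (t : ℝ) : ℝ := 16 * deriv (deriv st) (4 * t - 1)

lemma Cm_cu (β : ℂ) (ρ : ℝ) (x : E) : Cm β (deriv (cu ρ)) (deriv (deriv (cu ρ))) x =
    Cm β (a1 ρ) (b1 ρ) x - Cm β a2 b2 x := by
  rw [deriv2_cu, deriv_cu]
  simp only [Cm, a1, b1, a2, b2]
  push_cast
  ring

lemma memLp_Cm1 (β : ℂ) {ρ : ℝ} (hρ : 0 < ρ) : MemLp (Cm β (a1 ρ) (b1 ρ)) 2 nu := by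
  obtain ⟨S, hS0, hS⟩ := bd_sd
  have c1 := sd_contDiff.continuous
  have c2 := sdd_contDiff.continuous
  have hi : 0 < ρ⁻¹ := inv_pos.2 hρ
  refine memLp_Cm (A := S * ρ⁻¹) (B := S * ρ⁻¹ ^ 2) (ρ := ρ) β (by unfold a1; fun_prop) (by unfold b1; fun_prop) hρ
    (by positivity) (by positivity) ?_ ?_ ?_ ?_
  · intro t
    rw [a1, abs_mul, abs_of_pos hi]
    have := (hS (t * ρ⁻¹)).1
    gcongr
  · intro t
    rw [b1, abs_mul, abs_of_pos (pow_pos hi 2)]
    have := (hS (t * ρ⁻¹)).2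
    gcongr
  · intro t ht
    rw [a1, sd_zero_lt, zero_mul]
    rw [← div_eq_mul_inv, div_lt_one hρ]; exact ht
  · intro t ht
    rw [b1, sdd_zero_lt, zero_mul]
    rw [← div_eq_mul_inv, div_lt_one hρ]; exact ht

lemma memLp_Cm2 (β : ℂ) : MemLp (Cm β a2 b2) 2 nu := by
  obtain ⟨S, hS0, hS⟩ := bd_sd
  have c1 := sd_contDiff.continuous
  have c2 := sdd_contDiff.continuous
  refine memLp_Cm (A := 4 * S) (B := 16 * S) (ρ := 1 / 2) β (by unfold a2; fun_prop) (by unfold b2; fun_prop)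
    (by norm_num) (by positivity) (by positivity) ?_ ?_ ?_ ?_
  · intro t
    rw [a2, abs_mul, abs_of_pos (by norm_num : (0 : ℝ) < 4)]
    have := (hS (4 * t - 1)).1
    gcongr
  · intro t
    rw [b2, abs_mul, abs_of_pos (by norm_num : (0 : ℝ) < 16)]
    have := (hS (4 * t - 1)).2
    gcongr
  · intro t ht
    rw [a2, sd_zero_lt (by linarith), mul_zero]
  · intro t ht
    rw [b2, sdd_zero_lt (by linarith), mul_zero]

/-- the commutator term near the vertex is small when tested against bounded functions -/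
lemma comm_bound (β : ℂ) : ∃ C' : ℝ, 0 ≤ C' ∧ ∀ ρ : ℝ, 0 < ρ → ∀ M : ℝ, 0 ≤ M → ∀ u : E → ℂ,
    (∀ᵐ x ∂nu, x 2 ≤ 2 * ρ → ‖u x‖ ≤ M) →
    ‖∫ x, Cm β (a1 ρ) (b1 ρ) x * u x ∂nu‖ ≤ C' * M * ρ ^ (1 / 5 : ℝ) := by
  obtain ⟨S, hS0, hS⟩ := bd_sd
  obtain ⟨C, hC1, hC⟩ := bdCm
  have hC0 : 0 ≤ C := by linarith
  set V := (volume (ball (0 : E) 1)).toReal with hV
  have hV0 : 0 ≤ V := ENNReal.toReal_nonneg
  refine ⟨‖β‖ * (C * (3 * S)) * 64 * V, by positivity, fun ρ hρ M hM u hu => ?_⟩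
  have hi : 0 < ρ⁻¹ := inv_pos.2 hρ
  have hb : ∀ x ∈ Om, ‖Cm β (a1 ρ) (b1 ρ) x‖ ≤ ‖β‖ * (C * ρ ^ (-(4 / 5) : ℝ) * (S * ρ⁻¹ ^ 2 + 2 * (S * ρ⁻¹) * ρ⁻¹)) := by
    apply hC β (a1 ρ) (b1 ρ) (S * ρ⁻¹) (S * ρ⁻¹ ^ 2) ρ hρ (by positivity) (by positivity)
    · intro t
      rw [a1, abs_mul, abs_of_pos hi]
      have := (hS (t * ρ⁻¹)).1
      gcongr
    · intro t
      rw [b1, abs_mul, abs_of_pos (pow_pos hi 2)]
      have := (hS (t * ρ⁻¹)).2
      gcongr
    · intro t ht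
      rw [a1, sd_zero_lt, zero_mul]
      rw [← div_eq_mul_inv, div_lt_one hρ]; exact ht
    · intro t ht
      rw [b1, sdd_zero_lt, zero_mul]
      rw [← div_eq_mul_inv, div_lt_one hρ]; exact ht
  have hz : ∀ x : E, 2 * ρ < x 2 → Cm β (a1 ρ) (b1 ρ) x = 0 := by
    intro x hx
    have : 2 < x 2 * ρ⁻¹ := by rw [← div_eq_mul_inv, lt_div_iff₀ hρ]; exact hx
    rw [Cm, a1, b1, sd_zero_gt this, sdd_zero_gt this]
    simp
  set T := ‖β‖ * (C * ρ ^ (-(4 / 5) : ℝ) * (S * ρ⁻¹ ^ 2 + 2 * (S * ρ⁻¹) * ρ⁻¹)) with hT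
  have hT0 : 0 ≤ T := by positivity
  have h1 : ‖∫ x, Cm β (a1 ρ) (b1 ρ) x * u x ∂nu‖ ≤ ∫ x, (ball (0 : E) (4 * ρ)).indicator (fun _ => T * M) x ∂nu := by
    apply norm_integral_le_of_norm_le
    · exact (integrable_const _).indicator measurableSet_ball
    · have : ∀ᵐ x ∂nu, x ∈ Om := ae_restrict_mem isOpen_Om.measurableSet
      filter_upwards [this, hu] with x hx hux
      by_cases h2 : x 2 ≤ 2 * ρ
      · have h3 : x ∈ ball (0 : E) (4 * ρ) := by
          rw [mem_ball_zero_iff]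
          have := norm_lt_of_mem_Om hx
          linarith
        rw [indicator_of_mem h3, norm_mul]
        exact mul_le_mul (hb x hx) (hux h2) (norm_nonneg _) hT0
      · rw [hz x (not_le.1 h2), zero_mul, norm_zero]
        apply indicator_nonneg
        intro _ _
        positivity
  have h2 : ∫ x, (ball (0 : E) (4 * ρ)).indicator (fun _ => T * M) x ∂nu ≤ (T * M) * ((4 * ρ) ^ 3 * V) := by
    rw [integral_indicator measurableSet_ball, setIntegral_const, smul_eq_mul, mul_comm]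
    apply mul_le_mul_of_nonneg_left _ (by positivity)
    rw [Measure.real]
    have h3 : nu (ball (0 : E) (4 * ρ)) ≤ volume (ball (0 : E) (4 * ρ)) := by
      rw [nu]; exact Measure.restrict_apply_le _ _
    have h4 : (volume (ball (0 : E) (4 * ρ))).toReal = (4 * ρ) ^ 3 * V := by
      rw [Measure.addHaar_ball _ _ (by positivity), ENNReal.toReal_mul, ENNReal.toReal_ofReal (by positivity)]
      simp [hV]
    rw [← h4]
    exact ENNReal.toReal_mono measure_ball_lt_top.ne h3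
  refine (h1.trans h2).trans (le_of_eq ?_)
  have h5 : ρ ^ (1 / 5 : ℝ) = ρ ^ (-(4 / 5) : ℝ) * ρ := by
    nth_rewrite 3 [← Real.rpow_one ρ]
    rw [← Real.rpow_add hρ]; norm_num
  rw [h5, hT]
  field_simp
  ring

/-- the identity for solutions bounded near the vertex -/
lemma key_identity {γ : ℂ} {f : E → ℂ} (hf : IsTest Om f) (hs : ∀ x : E, 1 / 2 < x 2 → f x = 0) {U : E → V4}
    (hU : InH U) (h : WeakSol γ (-(γ * t0)) f U) {r M : ℝ} (hr : 0 < r)
    (hb : ∀ᵐ x ∂nu, ‖x‖ < r → ‖U x 0‖ ≤ M) :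
    ∫ x, f x * W x ∂nu = -∫ x, Cm (-(γ * t0)) a2 b2 x * U x 0 ∂nu := by
  set β := -(γ * t0) with hβ
  have hfm : MemLp f 2 nu := memLp_apply hf.memLp_J 0
  have hUm := memLp_apply hU.memLp 0
  obtain ⟨C', hC'0, hC'⟩ := comm_bound β
  obtain ⟨δ, hδ, hδf⟩ : ∃ δ : ℝ, 0 < δ ∧ ∀ x, f x ≠ 0 → δ ≤ x 2 := by
    by_cases hne : (tsupport f).Nonempty
    · obtain ⟨y, hy, hmin⟩ := hf.compact.isCompact.exists_isMinOn hne
        (f := fun x : E => x 2) (by fun_prop : Continuous fun x : E => x 2).continuousOn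
      refine ⟨y 2, (hf.subset hy).2.1, fun x hx => ?_⟩
      exact hmin (subset_tsupport f hx)
    · refine ⟨1, one_pos, fun x hx => ?_⟩
      exact absurd ⟨x, subset_tsupport f hx⟩ hne
  have hM' : ∀ᵐ x ∂nu, ‖x‖ < r → ‖U x 0‖ ≤ max M 0 := by
    filter_upwards [hb] with x hx h using (hx h).trans (le_max_left _ _)
  have main : ∀ ρ : ℝ, 0 < ρ → ρ ≤ 1 / 4 → 2 * ρ ≤ δ → 4 * ρ ≤ r →
      ‖∫ x, f x * W x ∂nu + ∫ x, Cm β a2 b2 x * U x 0 ∂nu‖ ≤ C' * max M 0 * ρ ^ (1 / 5 : ℝ) := by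
    intro ρ h1 h2 h3 h4
    have h5 := duality hfm hU h (cut_cu h1 h2)
    rw [← hβ] at h5
    have h6 : ∫ x, f x * Kf (cu ρ) x ∂nu = ∫ x, f x * W x ∂nu := by
      congr 1
      ext x
      by_cases hx : f x = 0
      · simp [hx]
      · have h7 := hδf x hx
        have h8 : x 2 ≤ 1 / 2 := by
          by_contra h'
          exact hx (hs x (not_le.1 h'))
        have h9 : cu ρ (x 2) = 1 := by
          rw [cu, st_of_ge, st_of_le]
          · ring
          · linarith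
          · rw [← div_eq_mul_inv, le_div_iff₀ h1]; linarith
        rw [Kf, h9]; simp
    have h10 : ∫ x, Cm β (deriv (cu ρ)) (deriv (deriv (cu ρ))) x * U x 0 ∂nu =
        ∫ x, Cm β (a1 ρ) (b1 ρ) x * U x 0 ∂nu - ∫ x, Cm β a2 b2 x * U x 0 ∂nu := by
      rw [← integral_sub (integrable_mul (memLp_Cm1 β h1) hUm) (integrable_mul (memLp_Cm2 β) hUm)]
      congr 1
      ext x
      rw [Cm_cu]
      ring
    rw [h6, h10] at h5
    rw [h5, sub_add_cancel]
    apply hC' ρ h1 _ (le_max_right _ _)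
    have hom : ∀ᵐ x ∂nu, x ∈ Om := ae_restrict_mem isOpen_Om.measurableSet
    filter_upwards [hM', hom] with x hx hxo hx2
    apply hx
    have := norm_lt_of_mem_Om hxo
    linarith
  have hlim : Tendsto (fun ρ : ℝ => C' * max M 0 * ρ ^ (1 / 5 : ℝ)) (𝓝[>] 0) (𝓝 (C' * max M 0 * 0)) := by
    apply Tendsto.const_mul
    have h1 : Tendsto (fun ρ : ℝ => ρ ^ (1 / 5 : ℝ)) (𝓝 0) (𝓝 ((0 : ℝ) ^ (1 / 5 : ℝ))) :=
      (Real.continuousAt_rpow_const 0 (1 / 5) (Or.inr (by norm_num))).tendsto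
    rw [Real.zero_rpow (by norm_num)] at h1
    exact h1.mono_left nhdsWithin_le_nhds
  rw [mul_zero] at hlim
  have hle : ‖∫ x, f x * W x ∂nu + ∫ x, Cm β a2 b2 x * U x 0 ∂nu‖ ≤ 0 := by
    apply ge_of_tendsto hlim
    have hpos : 0 < min (1 / 4) (min (δ / 2) (r / 4)) := by positivity
    filter_upwards [Ioc_mem_nhdsGT hpos] with ρ hρ
    obtain ⟨h1, h2⟩ := hρ
    have h3 := h2.trans (min_le_left _ _)
    have h4 := (h2.trans (min_le_right _ _)).trans (min_le_left _ _)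
    have h5 := (h2.trans (min_le_right _ _)).trans (min_le_right _ _)
    exact main ρ h1 h3 (by linarith) (by linarith)
  have := norm_le_zero_iff.1 hle
  linear_combination this

end Pool.Agent.Helper728.Cone
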