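import Mathlib
import Pool.Agent.Helper728.ConeDual

/-!
Scaling and the final contradiction.
-/

open MeasureTheory Set Metric Filter Topology
open scoped ContDiff InnerProductSpace

namespace Pool.Agent.Helper728.Cone

open Hyper

lemma W_scale {ρ : ℝ} (hρ : 0 < ρ) {y : E} (hy : y ∈ Om) : W (ρ • y) = (ρ : ℂ) ^ mu * W y := by
  have h1 : ∀ j, cx j (ρ • y) = ρ * cx j y := by intro j; simp [cx]
  have h2 : zm (ρ • y) = (ρ : ℂ) ^ mu * zm y := by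
    rw [zm, h1, cx, Complex.mul_cpow_ofReal_nonneg hρ.le hy.2.1.le]
    rfl
  have h3 : tau (ρ • y) = tau y := by
    have h4 := cx2_ne hy
    have h5 : (ρ : ℂ) ≠ 0 := Complex.ofReal_ne_zero.2 hρ.ne'
    simp only [tau, zi, h1]
    field_simp
  rw [W, h2, h3, W, mul_assoc]

lemma IsTest.mul_smooth {Ω : Set E} {φ g : E → ℂ} (hφ : IsTest Ω φ) (hg : ContDiff ℝ ∞ g) :
    IsTest Ω (fun x => φ x * g x) where
  smooth := hφ.smooth.mul hg
  compact := hφ.compact.mul_right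
  subset := (closure_mono (by intro x hx; simp at hx ⊢; tauto)).trans hφ.subset

lemma F0_zero : F0 0 = 1 := by
  rw [F0, tsum_eq_single 0]
  · simp [c]
  · intro k hk
    simp [hk]

/-- the building block of the right hand sides -/
noncomputable def g0 (x : E) : ℂ :=
  (starRingEnd ℂ) (An (cu (1 / 4)) 8 x) * (((st ((8 : ℕ) * q x) : ℝ) : ℂ) * ((cu (1 / 4) (x 2) : ℝ) : ℂ))

lemma cut4 : Cut (cu (1 / 4)) (1 / 4) := cut_cu (by norm_num) le_rfl

lemma isTest_g0 : IsTest Om g0 := by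
  apply (isTest_An cut4 8).conj.mul_smooth
  apply (contDiff_stq 8).mul
  exact Complex.ofRealCLM.contDiff.comp (cut4.smooth.comp (EuclideanSpace.proj (𝕜 := ℝ) (2 : Fin 3) : E →L[ℝ] ℝ).contDiff)

lemma g0_mul_W (x : E) : g0 x * W x = ((‖An (cu (1 / 4)) 8 x‖ ^ 2 : ℝ) : ℂ) := by
  have : An (cu (1 / 4)) 8 x = ((st ((8 : ℕ) * q x) : ℝ) : ℂ) * (((cu (1 / 4) (x 2) : ℝ) : ℂ) * W x) := rfl
  rw [Complex.ofReal_pow, ← Complex.conj_mul']
  nth_rewrite 2 [this]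
  rw [g0]
  ring

/-- a point on the axis -/
noncomputable def pt : E := EuclideanSpace.single 2 (1 / 2)

lemma An_pt : An (cu (1 / 4)) 8 pt ≠ 0 := by
  have e0 : pt 0 = 0 := by simp [pt]
  have e1 : pt 1 = 0 := by simp [pt]
  have e2 : pt 2 = 1 / 2 := by simp [pt]
  have e3 : q pt = 1 / 4 := by rw [q, e0, e1, e2]; norm_num
  have e4 : tau pt = 0 := by simp [tau, cx, e0, e1]
  rw [An, Kf, W, e4, F0_zero, e3, e2, st_of_ge (by norm_num), cu, st_of_ge (by norm_num), st_of_le (by norm_num), zm, cx, e2]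
  have : (((1 / 2 : ℝ) : ℂ)) ^ mu ≠ 0 := by
    rw [Complex.cpow_ne_zero_iff_of_exponent_ne_zero]
    · norm_num
    · intro h
      have := congrArg Complex.re h
      norm_num [mu] at this
  simp only [Complex.ofReal_one, one_mul, sub_zero, mul_one]
  exact this

/-- the nonvanishing integral -/
noncomputable def I0 : ℂ := ∫ x, g0 x * W x

lemma I0_ne : I0 ≠ 0 := by
  have h1 : I0 = ((∫ x, ‖An (cu (1 / 4)) 8 x‖ ^ 2 : ℝ) : ℂ) := by
    rw [I0, ← integral_complex_ofReal]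
    congr 1
    ext x
    exact g0_mul_W x
  have hA := isTest_An cut4 8
  have h2 : 0 < ∫ x, ‖An (cu (1 / 4)) 8 x‖ ^ 2 := by
    have hc : Continuous (fun x => ‖An (cu (1 / 4)) 8 x‖ ^ 2) := by
      have := hA.continuous
      fun_prop
    have hcs : HasCompactSupport (fun x => ‖An (cu (1 / 4)) 8 x‖ ^ 2) :=
      hA.compact.norm.comp_left (g := fun t : ℝ => t ^ 2) (by simp)
    refine hc.integral_pos_of_hasCompactSupport_nonneg_nonzero hcs (fun x => by positivity) (x := pt) ?_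
    have := norm_pos_iff.2 An_pt
    positivity
  rw [h1]
  exact Complex.ofReal_ne_zero.2 h2.ne'

lemma smul_mem_Om {y : E} (hy : y ∈ Om) {ρ : ℝ} (h : 0 < ρ) (h' : ρ ≤ 1) : ρ • y ∈ Om := by
  obtain ⟨h1, h2, h3⟩ := hy
  refine ⟨?_, ?_, ?_⟩
  · simp only [PiLp.smul_apply, smul_eq_mul]
    have : 0 < ρ ^ 2 := by positivity
    nlinarith
  · simp only [PiLp.smul_apply, smul_eq_mul]; positivity
  · simp only [PiLp.smul_apply, smul_eq_mul]; nlinarith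

lemma IsTest.scale {g : E → ℂ} (hg : IsTest Om g) {ρ : ℝ} (h : 0 < ρ) (h' : ρ ≤ 1) :
    IsTest Om (fun x => g (ρ⁻¹ • x)) := by
  have hsub : tsupport (fun x => g (ρ⁻¹ • x)) ⊆ (fun y => ρ • y) '' tsupport g := by
    apply closure_minimal
    · intro x hx
      refine ⟨ρ⁻¹ • x, subset_tsupport _ hx, ?_⟩
      simp only [smul_smul]
      rw [mul_inv_cancel₀ h.ne', one_smul]
    · exact (hg.compact.isCompact.image (by fun_prop)).isClosed
  refine ⟨hg.smooth.comp (by fun_prop), ?_, ?_⟩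
  · exact (hg.compact.isCompact.image (by fun_prop : Continuous fun y : E => ρ • y)).of_isClosed_subset
      (isClosed_tsupport _) hsub
  · intro x hx
    obtain ⟨y, hy, rfl⟩ := hsub hx
    exact smul_mem_Om (hg.subset hy) h h'

lemma scale_zero {g : E → ℂ} (hg : IsTest Om g) {ρ : ℝ} (h : 0 < ρ) (x : E) (hx : ρ < x 2) : g (ρ⁻¹ • x) = 0 := by
  apply hg.zero_of_notMem
  intro h1
  have h2 := h1.2.2
  simp only [PiLp.smul_apply, smul_eq_mul] at h2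
  have h3 : ρ⁻¹ * x 2 = x 2 / ρ := by ring
  rw [h3, div_lt_one h] at h2
  linarith

lemma integral_scale {F : Type*} [NormedAddCommGroup F] [NormedSpace ℝ F] (f : E → F) {ρ : ℝ} (h : 0 < ρ) :
    ∫ x, f (ρ⁻¹ • x) = ρ ^ 3 • ∫ x, f x := by
  have := Measure.integral_comp_inv_smul (volume : Measure E) f ρ
  rw [this]
  congr 1
  simp [abs_of_pos h]

lemma integral_fW {ρ : ℝ} (h : 0 < ρ) (h' : ρ ≤ 1) : ∫ x, g0 (ρ⁻¹ • x) * W x ∂nu = ρ ^ 3 * ((ρ : ℂ) ^ mu * I0) := by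
  rw [integral_nu_eq]
  · have e : ∀ x, g0 (ρ⁻¹ • x) * W x = (fun y => (ρ : ℂ) ^ mu * (g0 y * W y)) (ρ⁻¹ • x) := by
      intro x
      by_cases hx : ρ⁻¹ • x ∈ Om
      · have h1 : x = ρ • (ρ⁻¹ • x) := by rw [smul_smul, mul_inv_cancel₀ h.ne', one_smul]
        have h2 : W x = (ρ : ℂ) ^ mu * W (ρ⁻¹ • x) := by
          conv_lhs => rw [h1]
          exact W_scale h hx
        simp only
        rw [h2]; ring
      · simp only
        rw [isTest_g0.zero_of_notMem hx]; simp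
    simp only [e]
    rw [integral_scale (fun y => (ρ : ℂ) ^ mu * (g0 y * W y)) h, integral_const_mul, ← I0]
    simp
  · intro x hx
    rw [(isTest_g0.scale h h').zero_of_notMem hx, zero_mul]

lemma integral_f_sq {ρ : ℝ} (h : 0 < ρ) (h' : ρ ≤ 1) : ∫ x, ‖g0 (ρ⁻¹ • x)‖ ^ 2 ∂nu = ρ ^ 3 * ∫ x, ‖g0 x‖ ^ 2 := by
  rw [integral_nu_eq]
  · exact integral_scale (fun y => ‖g0 y‖ ^ 2) h
  · intro x hx
    rw [(isTest_g0.scale h h').zero_of_notMem hx]; simp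

/-- the coefficient of `∂₀² + ∂₁²` -/
noncomputable def ga : ℂ := ⟨1 / 20, -1⟩

lemma ga_re : 1 / 100 ≤ ga.re := by norm_num [ga]

lemma be_re : 1 / 100 ≤ (-(ga * t0)).re := by
  have h1 := t0_re_le
  have h2 := t0_im_le
  simp only [Complex.neg_re, Complex.mul_re, ga]
  linarith

/-- existence of a right hand side whose solution is unbounded near the vertex -/
theorem exists_bad : ∃ f, IsTest Om f ∧ ∀ U, InH U → WeakSol ga (-(ga * t0)) f U → ∀ r, 0 < r → ∀ M : ℝ,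
    ¬ (∀ᵐ x ∂nu, ‖x‖ < r → ‖U x 0‖ ≤ M) := by
  by_contra hcon
  push Not at hcon
  set A := ∫ x, ‖Cm (-(ga * t0)) a2 b2 x‖ ^ 2 ∂nu with hA
  have hA0 : 0 ≤ A := integral_nonneg fun x => sq_nonneg _
  set G := ∫ x, ‖g0 x‖ ^ 2 with hG
  have hG0 : 0 ≤ G := integral_nonneg fun x => sq_nonneg _
  have main : ∀ ρ : ℝ, 0 < ρ → ρ ≤ 1 / 2 → ‖I0‖ ^ 2 ≤ A * (64 / (1 / 100) ^ 2) * G * ρ ^ (3 / 5 : ℝ) := by
    intro ρ h h'
    have h1 : ρ ≤ 1 := by linarith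
    have hf := isTest_g0.scale h h1
    have hfm : MemLp (fun x => g0 (ρ⁻¹ • x)) 2 nu := memLp_apply hf.memLp_J 0
    obtain ⟨U, hU, hw, r, hr, M, hb⟩ := hcon _ hf
    have hUm := memLp_apply hU.memLp 0
    have h2 := key_identity hf (fun x hx => scale_zero isTest_g0 h x (by linarith)) hU hw hr hb
    have h3 := hw.energy (by norm_num : (0 : ℝ) < 1 / 100) ga_re be_re hfm h (fun x hx => scale_zero isTest_g0 h x hx) hU
    have h4 := norm_integral_mul_le (memLp_Cm2 (-(ga * t0))) hUm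
    rw [integral_f_sq h h1] at h3
    rw [integral_fW h h1] at h2
    have h5 : ‖(ρ : ℂ) ^ 3 * ((ρ : ℂ) ^ mu * I0)‖ ^ 2 ≤ A * (64 / (1 / 100) ^ 2 * ρ ^ 2 * (ρ ^ 3 * G)) := by
      rw [h2, norm_neg]
      refine h4.trans ?_
      gcongr
    have h6 : ‖(ρ : ℂ) ^ 3 * ((ρ : ℂ) ^ mu * I0)‖ ^ 2 = ρ ^ 6 * ((ρ ^ (-(4 / 5) : ℝ)) ^ 2 * ‖I0‖ ^ 2) := by
      rw [norm_mul, norm_mul, Complex.norm_cpow_eq_rpow_re_of_pos h]
      have e1 : ‖(ρ : ℂ) ^ 3‖ = ρ ^ 3 := by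
        rw [norm_pow, Complex.norm_real, Real.norm_of_nonneg h.le]
      have e2 : mu.re = -(4 / 5) := by norm_num [mu]
      rw [e1, e2]
      ring
    have h7 : ρ ^ 6 * (ρ ^ (-(4 / 5) : ℝ)) ^ 2 * ρ ^ (3 / 5 : ℝ) = ρ ^ 5 := by
      have e1 : (ρ ^ (-(4 / 5) : ℝ)) ^ 2 = ρ ^ (-(8 / 5) : ℝ) := by
        rw [← Real.rpow_natCast, ← Real.rpow_mul h.le]; norm_num
      have e2 : ρ ^ 6 = ρ ^ (6 : ℝ) := by norm_cast
      have e3 : ρ ^ 5 = ρ ^ (5 : ℝ) := by norm_cast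
      rw [e1, e2, e3, ← Real.rpow_add h, ← Real.rpow_add h]
      norm_num
    rw [h6] at h5
    set P := ρ ^ 6 * (ρ ^ (-(4 / 5) : ℝ)) ^ 2 with hP
    have hP0 : 0 < P := by positivity
    have h8 : P * ‖I0‖ ^ 2 ≤ P * (A * (64 / (1 / 100) ^ 2) * G * ρ ^ (3 / 5 : ℝ)) := by
      calc P * ‖I0‖ ^ 2 = ρ ^ 6 * ((ρ ^ (-(4 / 5) : ℝ)) ^ 2 * ‖I0‖ ^ 2) := by rw [hP]; ring
        _ ≤ A * (64 / (1 / 100) ^ 2 * ρ ^ 2 * (ρ ^ 3 * G)) := h5
        _ = A * (64 / (1 / 100) ^ 2) * G * ρ ^ 5 := by ring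
        _ = P * (A * (64 / (1 / 100) ^ 2) * G * ρ ^ (3 / 5 : ℝ)) := by rw [← h7]; ring
    exact le_of_mul_le_mul_left h8 hP0
  have hlim : Tendsto (fun ρ : ℝ => A * (64 / (1 / 100) ^ 2) * G * ρ ^ (3 / 5 : ℝ)) (𝓝[>] 0)
      (𝓝 (A * (64 / (1 / 100) ^ 2) * G * 0)) := by
    apply Tendsto.const_mul
    have h1 : Tendsto (fun ρ : ℝ => ρ ^ (3 / 5 : ℝ)) (𝓝 0) (𝓝 ((0 : ℝ) ^ (3 / 5 : ℝ))) :=
      (Real.continuousAt_rpow_const 0 (3 / 5) (Or.inr (by norm_num))).tendsto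
    rw [Real.zero_rpow (by norm_num)] at h1
    exact h1.mono_left nhdsWithin_le_nhds
  rw [mul_zero] at hlim
  have hle : ‖I0‖ ^ 2 ≤ 0 := by
    apply ge_of_tendsto hlim
    filter_upwards [Ioc_mem_nhdsGT (by norm_num : (0 : ℝ) < 1 / 2)] with ρ hρ
    exact main ρ hρ.1 hρ.2
  have := norm_pos_iff.2 I0_ne
  nlinarith

end Pool.Agent.Helper728.Cone
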